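import Mathlib

/-!
Definitions for the weighted Hardy inequality with weight `(1 + |x|²)^α` on `ℝⁿ`.
-/

set_option autoImplicit false

open MeasureTheory
open scoped ContDiff

namespace Run7.h187.Hy

/-- `∫ (1 + |x|²)^α |∇u|² dx` -/
noncomputable def energy {n : ℕ} (α : ℝ) (u : EuclideanSpace ℝ (Fin n) → ℝ) : ℝ :=
  ∫ x, (1 + ‖x‖ ^ 2) ^ α * ‖gradient u x‖ ^ 2

/-- `∫ (1 + |x|²)^(α-1) u² dx` -/
noncomputable def mass {n : ℕ} (α : ℝ) (u : EuclideanSpace ℝ (Fin n) → ℝ) : ℝ :=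
  ∫ x, (1 + ‖x‖ ^ 2) ^ (α - 1) * u x ^ 2

/-- The admissible functions: nonzero, smooth, of compact support, and, if `α < -(n-2)/2`, with
`∫ (1 + |x|²)^(α-1) u dx = 0`. -/
def admissible (n : ℕ) (α : ℝ) : Set (EuclideanSpace ℝ (Fin n) → ℝ) :=
  {u | u ≠ 0 ∧ ContDiff ℝ ∞ u ∧ HasCompactSupport u ∧
    (α < -((n : ℝ) - 2) / 2 → ∫ x, (1 + ‖x‖ ^ 2) ^ (α - 1) * u x = 0)}

/-- The best constant `C(α, n)`: the infimum of the quotients over all admissible functions. -/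
noncomputable def bestConst (n : ℕ) (α : ℝ) : ℝ :=
  sInf ((fun u => energy α u / mass α u) '' admissible n α)

end Run7.h187.Hy
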