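import Mathlib

/-!
One-dimensional weighted inequalities with the weights `r^(n-1) (1+r²)^a`.
-/

set_option autoImplicit false

open MeasureTheory Set Filter Topology intervalIntegral

namespace Run7.h187.Hy

/-- the weight as a function of the radius -/
noncomputable def W (r : ℝ) : ℝ := 1 + r ^ 2

lemma W_pos (r : ℝ) : 0 < W r := by unfold W; positivity

lemma W_ne (r : ℝ) : W r ≠ 0 := (W_pos r).ne'

lemma W_cont : Continuous W := by unfold W; fun_prop

lemma W_deriv (r : ℝ) : HasDerivAt W (2 * r) r := by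
  unfold W
  have := (hasDerivAt_pow 2 r).const_add 1
  simpa using this

lemma Wp_cont (a : ℝ) : Continuous fun r => W r ^ a :=
  W_cont.rpow_const fun r => Or.inl (W_ne r)

lemma Wp_deriv (a r : ℝ) : HasDerivAt (fun r => W r ^ a) (2 * r * a * W r ^ (a - 1)) r :=
  (W_deriv r).rpow_const (Or.inl (W_ne r))

lemma Wp_succ (a r : ℝ) : W r ^ (a + 1) = W r ^ a * W r := Real.rpow_add_one (W_ne r) a

lemma Wp_pos (a r : ℝ) : 0 < W r ^ a := Real.rpow_pos_of_pos (W_pos r) a

/-- The inequality on rays with ground state `(1+r²)^(-κ)`. -/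
theorem oneA (m : ℕ) (α κ R : ℝ) (hR : 0 ≤ R) (f f' : ℝ → ℝ) (hf : ∀ r, HasDerivAt f (f' r) r)
    (hc : Continuous f') (hfR : f R = 0) :
    ∫ r in (0 : ℝ)..R, r ^ m * (W r ^ (α - 2) *
      (2 * κ * (m + 1) + (2 * κ * (m + 1) + 4 * κ * (α - 1 - κ)) * r ^ 2) * f r ^ 2) ≤
    ∫ r in (0 : ℝ)..R, r ^ m * (W r ^ α * f' r ^ 2) := by
  have hfc : Continuous f := continuous_iff_continuousAt.2 fun x => (hf x).continuousAt
  set F : ℝ → ℝ := fun r => -2 * κ * (r ^ (m + 1) * (W r ^ (α - 1) * f r ^ 2)) with hF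
  set F' : ℝ → ℝ := fun r => -2 * κ * (((m + 1 : ℕ) * r ^ m) * (W r ^ (α - 1) * f r ^ 2) +
    r ^ (m + 1) * ((2 * r * (α - 1) * W r ^ (α - 1 - 1)) * f r ^ 2 +
      W r ^ (α - 1) * (2 * f r * f' r))) with hF'
  have hd : ∀ r, HasDerivAt F (F' r) r := by
    intro r
    have h1 := hasDerivAt_pow (m + 1) r
    have h2 := Wp_deriv (α - 1) r
    have h3 := (hf r).pow 2
    have h4 := (h1.mul (h2.mul h3)).const_mul (-2 * κ)
    refine (h4.congr_deriv ?_)
    simp only [hF', Nat.cast_add, Nat.cast_one, Nat.add_sub_cancel, Nat.cast_ofNat, Pi.pow_apply,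
      Pi.mul_apply]
    ring
  have hFc : Continuous F' := by
    have := Wp_cont (α - 1)
    have := Wp_cont (α - 1 - 1)
    simp only [hF']
    fun_prop
  have hI : ∫ r in (0 : ℝ)..R, F' r = 0 := by
    rw [integral_eq_sub_of_hasDerivAt (fun r _ => hd r) (hFc.intervalIntegrable _ _)]
    simp [hF, hfR]
  have c1 := Wp_cont (α - 2)
  have c2 := Wp_cont α
  have i1 : IntervalIntegrable (fun r => r ^ m * (W r ^ (α - 2) *
      (2 * κ * (m + 1) + (2 * κ * (m + 1) + 4 * κ * (α - 1 - κ)) * r ^ 2) * f r ^ 2))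
      volume 0 R := by
    apply Continuous.intervalIntegrable
    fun_prop
  have i2 : IntervalIntegrable (fun r => r ^ m * (W r ^ α * f' r ^ 2)) volume 0 R := by
    apply Continuous.intervalIntegrable
    fun_prop
  have i3 : IntervalIntegrable F' volume 0 R := hFc.intervalIntegrable _ _
  have key : 0 ≤ ∫ r in (0 : ℝ)..R, (r ^ m * (W r ^ α * f' r ^ 2) - r ^ m * (W r ^ (α - 2) *
      (2 * κ * (m + 1) + (2 * κ * (m + 1) + 4 * κ * (α - 1 - κ)) * r ^ 2) * f r ^ 2) - F' r) := by
    apply integral_nonneg hR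
    intro r hr
    have e1 : W r ^ (α - 1) = W r ^ (α - 2) * W r := by
      rw [← Wp_succ]; congr 1; ring
    have e2 : W r ^ α = W r ^ (α - 2) * W r * W r := by
      rw [← e1, ← Wp_succ]; congr 1; ring
    have e3 : W r ^ (α - 1 - 1) = W r ^ (α - 2) := by congr 1; ring
    have e4 : (r ^ m * (W r ^ α * f' r ^ 2) - r ^ m * (W r ^ (α - 2) *
      (2 * κ * (m + 1) + (2 * κ * (m + 1) + 4 * κ * (α - 1 - κ)) * r ^ 2) * f r ^ 2) - F' r) =
      r ^ m * (W r ^ (α - 2) * (W r * f' r + 2 * κ * r * f r) ^ 2) := by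
      simp only [hF']
      rw [e3, e2, e1]
      push_cast
      unfold W
      ring
    rw [e4]
    have := (Wp_pos (α - 2) r).le
    have := pow_nonneg hr.1 m
    positivity
  rw [integral_sub (i2.sub i1) i3, integral_sub i2 i1, hI] at key
  linarith

/-- The inequality on rays with ground state `r`. -/
theorem oneB (m : ℕ) (t R : ℝ) (hR : 0 ≤ R) (f f' : ℝ → ℝ) (hf : ∀ r, HasDerivAt f (f' r) r)
    (hc : Continuous f') (hfR : f R = 0) :
    2 * t * ∫ r in (0 : ℝ)..R, r ^ (m + 2) * (W r ^ (-t - 1) * f r ^ 2) ≤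
    (∫ r in (0 : ℝ)..R, r ^ (m + 2) * (W r ^ (-t) * f' r ^ 2)) +
      (m + 2) * ∫ r in (0 : ℝ)..R, r ^ m * (W r ^ (-t) * f r ^ 2) := by
  have hfc : Continuous f := continuous_iff_continuousAt.2 fun x => (hf x).continuousAt
  set F : ℝ → ℝ := fun r => r ^ (m + 1) * (W r ^ (-t) * f r ^ 2) with hF
  set F' : ℝ → ℝ := fun r => ((m + 1 : ℕ) * r ^ m) * (W r ^ (-t) * f r ^ 2) +
    r ^ (m + 1) * ((2 * r * (-t) * W r ^ (-t - 1)) * f r ^ 2 +
      W r ^ (-t) * (2 * f r * f' r)) with hF'
  have hd : ∀ r, HasDerivAt F (F' r) r := by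
    intro r
    have h1 := hasDerivAt_pow (m + 1) r
    have h2 := Wp_deriv (-t) r
    have h3 := (hf r).pow 2
    have h4 := (h1.mul (h2.mul h3))
    refine (h4.congr_deriv ?_)
    simp only [hF', Nat.cast_add, Nat.cast_one, Nat.add_sub_cancel, Nat.cast_ofNat, Pi.pow_apply,
      Pi.mul_apply]
    ring
  have c1 := Wp_cont (-t)
  have c2 := Wp_cont (-t - 1)
  have hFc : Continuous F' := by
    simp only [hF']
    fun_prop
  have hI : ∫ r in (0 : ℝ)..R, F' r = 0 := by
    rw [integral_eq_sub_of_hasDerivAt (fun r _ => hd r) (hFc.intervalIntegrable _ _)]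
    simp [hF, hfR]
  have i1 : IntervalIntegrable (fun r => r ^ (m + 2) * (W r ^ (-t - 1) * f r ^ 2))
      volume 0 R := by
    apply Continuous.intervalIntegrable
    fun_prop
  have i2 : IntervalIntegrable (fun r => r ^ (m + 2) * (W r ^ (-t) * f' r ^ 2)) volume 0 R := by
    apply Continuous.intervalIntegrable
    fun_prop
  have i4 : IntervalIntegrable (fun r => r ^ m * (W r ^ (-t) * f r ^ 2)) volume 0 R := by
    apply Continuous.intervalIntegrable
    fun_prop
  have i3 : IntervalIntegrable F' volume 0 R := hFc.intervalIntegrable _ _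
  have key : 0 ≤ ∫ r in (0 : ℝ)..R, (r ^ (m + 2) * (W r ^ (-t) * f' r ^ 2) +
      (m + 2) * (r ^ m * (W r ^ (-t) * f r ^ 2)) -
      2 * t * (r ^ (m + 2) * (W r ^ (-t - 1) * f r ^ 2)) - F' r) := by
    apply integral_nonneg hR
    intro r hr
    have e4 : (r ^ (m + 2) * (W r ^ (-t) * f' r ^ 2) +
      (m + 2) * (r ^ m * (W r ^ (-t) * f r ^ 2)) -
      2 * t * (r ^ (m + 2) * (W r ^ (-t - 1) * f r ^ 2)) - F' r) =
      r ^ m * (W r ^ (-t) * (r * f' r - f r) ^ 2) := by
      simp only [hF']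
      push_cast
      ring
    rw [e4]
    have := (Wp_pos (-t) r).le
    have := pow_nonneg hr.1 m
    positivity
  rw [integral_sub ((i2.add (i4.const_mul _)).sub (i1.const_mul _)) i3,
    integral_sub (i2.add (i4.const_mul _)) (i1.const_mul _),
    integral_add i2 (i4.const_mul _), hI, intervalIntegral.integral_const_mul, intervalIntegral.integral_const_mul] at key
  linarith

/-- The radial inequality for functions of mean zero. -/
theorem oneR (m : ℕ) (t q lam R : ℝ) (hR : 0 < R) (hlam : 0 ≤ lam)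
    (h1 : lam ≤ 2 * q * (m + 3) - 2 * (m + 1) * (t + 1))
    (h2 : lam ≤ 2 * q * (m + 3) - 2 * (m + 1) * (t + 1) + 4 * q * (t - q))
    (f f' : ℝ → ℝ) (hf : ∀ r, HasDerivAt f (f' r) r) (hc : Continuous f')
    (hmean : ∫ r in (0 : ℝ)..R, r ^ m * (W r ^ (-t - 1) * f r) = 0) :
    lam * ∫ r in (0 : ℝ)..R, r ^ m * (W r ^ (-t - 1) * f r ^ 2) ≤
      ∫ r in (0 : ℝ)..R, r ^ m * (W r ^ (-t) * f' r ^ 2) := by
  have hfc : Continuous f := continuous_iff_continuousAt.2 fun x => (hf x).continuousAt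
  have c0 := Wp_cont (-t - 1)
  have c1 := Wp_cont (-t)
  have c2 := Wp_cont t
  have c3 := Wp_cont (t + 1)
  -- the primitive
  set g : ℝ → ℝ := fun r => r ^ m * (W r ^ (-t - 1) * f r) with hg
  have hgc : Continuous g := by
    simp only [hg]
    fun_prop
  set G : ℝ → ℝ := fun r => ∫ s in (0 : ℝ)..r, g s with hG
  have hGd : ∀ r, HasDerivAt G (g r) r := fun r =>
    integral_hasDerivAt_right (hgc.intervalIntegrable _ _)
      (hgc.stronglyMeasurableAtFilter _ _) hgc.continuousAt
  have hGc : Continuous G := continuous_iff_continuousAt.2 fun x => (hGd x).continuousAt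
  have hG0 : G 0 = 0 := by simp [hG]
  have hGR : G R = 0 := hmean
  -- bound near zero
  obtain ⟨K, hK⟩ : ∃ K : ℝ, ∀ s ∈ Icc (0 : ℝ) R, |W s ^ (-t - 1) * f s| ≤ K := by
    obtain ⟨K, hK⟩ := (isCompact_Icc (a := (0 : ℝ)) (b := R)).exists_bound_of_continuousOn
      (c0.mul hfc).continuousOn
    exact ⟨K, fun s hs => hK s hs⟩
  have hGb : ∀ ε ∈ Icc (0 : ℝ) R, |G ε| ≤ K * ε ^ (m + 1) := by
    intro ε hε
    have := norm_integral_le_of_norm_le_const (a := 0) (b := ε) (f := g) (C := K * ε ^ m) (by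
      intro s hs
      rw [uIoc_of_le hε.1] at hs
      simp only [hg]
      rw [norm_mul, Real.norm_eq_abs, Real.norm_eq_abs, abs_of_nonneg (pow_nonneg hs.1.le m)]
      have b1 := hK s ⟨hs.1.le, hs.2.trans hε.2⟩
      have b2 : s ^ m ≤ ε ^ m := pow_le_pow_left₀ hs.1.le hs.2 m
      have b3 := abs_nonneg (W s ^ (-t - 1) * f s)
      have b4 := pow_nonneg hs.1.le m
      calc s ^ m * |W s ^ (-t - 1) * f s| ≤ ε ^ m * K := mul_le_mul b2 b1 b3 (b4.trans b2)
        _ = K * ε ^ m := mul_comm _ _)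
    rw [sub_zero, abs_of_nonneg hε.1] at this
    calc |G ε| ≤ K * ε ^ m * ε := this
      _ = _ := by ring
  -- abbreviations for the error terms
  set e1 : ℝ → ℝ := fun ε => G ε * f ε with he1
  set e2 : ℝ → ℝ := fun ε => ((m + 1) * W ε ^ (t + 1) - 2 * q * ε ^ 2 * W ε ^ t) / ε ^ (m + 1) *
    G ε ^ 2 with he2
  have key : ∀ ε ∈ Ioo (0 : ℝ) R,
      lam * ∫ r in ε..R, r ^ m * (W r ^ (-t - 1) * f r ^ 2) ≤
      (∫ r in ε..R, r ^ m * (W r ^ (-t) * f' r ^ 2)) - 2 * lam * e1 ε + lam * e2 ε := by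
    intro ε hε
    have hεR : ε ≤ R := hε.2.le
    have hne : ∀ r ∈ uIcc ε R, r ≠ 0 := by
      intro r hr
      rw [uIcc_of_le hεR] at hr
      exact (hε.1.trans_le hr.1).ne'
    -- step 2
    have s2 : ∫ r in ε..R, (g r * f r + G r * f' r) = - e1 ε := by
      have : ∀ r ∈ uIcc ε R, HasDerivAt (fun r => G r * f r) (g r * f r + G r * f' r) r :=
        fun r _ => (hGd r).mul (hf r)
      rw [integral_eq_sub_of_hasDerivAt this (by
        apply Continuous.intervalIntegrable
        fun_prop)]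
      simp [he1, hGR]
    -- step 3
    set H : ℝ → ℝ := fun r => ((m + 1) * W r ^ (t + 1) - 2 * q * r ^ 2 * W r ^ t) / r ^ (m + 1) *
      G r ^ 2 with hH
    set H' : ℝ → ℝ := fun r => (((m + 1) * (2 * r * (t + 1) * W r ^ t) -
      2 * q * (2 * r * W r ^ t + r ^ 2 * (2 * r * t * W r ^ (t - 1)))) * r ^ (m + 1) -
      ((m + 1) * W r ^ (t + 1) - 2 * q * r ^ 2 * W r ^ t) * ((m + 1) * r ^ m)) /
        (r ^ (m + 1)) ^ 2 * G r ^ 2 +
      ((m + 1) * W r ^ (t + 1) - 2 * q * r ^ 2 * W r ^ t) / r ^ (m + 1) * (2 * G r * g r) with hH'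
    have hHd : ∀ r ∈ uIcc ε R, HasDerivAt H (H' r) r := by
      intro r hr
      have hr0 := hne r hr
      have d1 := (Wp_deriv (t + 1) r).const_mul ((m : ℝ) + 1)
      have d2 := ((hasDerivAt_pow 2 r).mul (Wp_deriv t r)).const_mul (2 * q)
      have d3 := hasDerivAt_pow (m + 1) r
      have d4 := (hGd r).pow 2
      have d5 := ((d1.sub d2).div d3 (pow_ne_zero _ hr0)).mul d4
      have e : t + 1 - 1 = t := by ring
      refine (d5.congr_deriv ?_).congr_of_eventuallyEq (Eventually.of_forall fun x => ?_)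
      · simp only [hH', Nat.cast_add, Nat.cast_one, Nat.add_sub_cancel, Nat.cast_ofNat,
          Pi.pow_apply, Pi.mul_apply, Pi.sub_apply, Pi.div_apply, e]
        ring
      · simp only [hH, Pi.pow_apply, Pi.mul_apply, Pi.sub_apply, Pi.div_apply]
        ring
    have c4 := Wp_cont (t - 1)
    have hH'c : ContinuousOn H' (uIcc ε R) := by
      simp only [hH']
      refine ContinuousOn.add (ContinuousOn.mul (ContinuousOn.div ?_ ?_ ?_) ?_)
        (ContinuousOn.mul (ContinuousOn.div ?_ ?_ ?_) ?_)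
      · apply Continuous.continuousOn; fun_prop
      · apply Continuous.continuousOn; fun_prop
      · intro r hr; exact pow_ne_zero _ (pow_ne_zero _ (hne r hr))
      · apply Continuous.continuousOn; fun_prop
      · apply Continuous.continuousOn; fun_prop
      · apply Continuous.continuousOn; fun_prop
      · intro r hr; exact pow_ne_zero _ (hne r hr)
      · apply Continuous.continuousOn; fun_prop
    have iH' : IntervalIntegrable H' volume ε R := hH'c.intervalIntegrable
    have s3 : ∫ r in ε..R, H' r = - e2 ε := by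
      rw [integral_eq_sub_of_hasDerivAt hHd iH']
      simp [hH, he2, hGR]
    -- positivity
    have iN : IntervalIntegrable (fun r => r ^ m * (W r ^ (-t) * f' r ^ 2)) volume ε R := by
      apply Continuous.intervalIntegrable
      fun_prop
    have iD : IntervalIntegrable (fun r => r ^ m * (W r ^ (-t - 1) * f r ^ 2)) volume ε R := by
      apply Continuous.intervalIntegrable
      fun_prop
    have iX : IntervalIntegrable (fun r => g r * f r + G r * f' r) volume ε R := by
      apply Continuous.intervalIntegrable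
      fun_prop
    have pos : 0 ≤ ∫ r in ε..R, (r ^ m * (W r ^ (-t) * f' r ^ 2) -
        lam * (r ^ m * (W r ^ (-t - 1) * f r ^ 2)) + 2 * lam * (g r * f r + G r * f' r) -
        lam * H' r) := by
      apply integral_nonneg hεR
      intro r hr
      have hr0 : 0 < r := hε.1.trans_le hr.1
      have hw := W_pos r
      set a : ℝ := W r ^ t with ha
      have ha0 : 0 < a := Wp_pos t r
      have ea1 : W r ^ (t + 1) = a * W r := Wp_succ t r
      have ea2 : W r ^ (-t) = a⁻¹ := by rw [Real.rpow_neg hw.le]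
      have ea3 : W r ^ (-t - 1) = a⁻¹ / W r := by
        rw [Real.rpow_sub_one (W_ne r), ea2]
      have ea4 : W r ^ (t - 1) = a / W r := by rw [Real.rpow_sub_one (W_ne r)]
      have hP : 0 < r ^ m := pow_pos hr0 m
      -- the identity
      have id : (r ^ m * (W r ^ (-t) * f' r ^ 2) -
        lam * (r ^ m * (W r ^ (-t - 1) * f r ^ 2)) + 2 * lam * (g r * f r + G r * f' r) -
        lam * H' r) =
        r ^ m * a⁻¹ * (f' r + lam * G r * a / r ^ m) ^ 2 +
        lam * (a * W r / r ^ m) * (g r - ((m + 1) / r - 2 * q * r / W r) * G r) ^ 2 +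
        lam * (a / W r / r ^ m) * ((2 * q * (m + 3) - 2 * (m + 1) * (t + 1)) * W r +
          4 * q * (t - q) * r ^ 2 - lam * W r) * G r ^ 2 := by
        simp only [hH', hg, ea1, ea2, ea3, ea4]
        have hWr : W r = 1 + r ^ 2 := rfl
        rw [pow_succ r m]
        field_simp
        ring
      rw [id]
      have hb : 0 ≤ (2 * q * (m + 3) - 2 * (m + 1) * (t + 1)) * W r +
          4 * q * (t - q) * r ^ 2 - lam * W r := by
        have : (2 * q * (m + 3) - 2 * (m + 1) * (t + 1)) * W r +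
          4 * q * (t - q) * r ^ 2 - lam * W r =
          (2 * q * (m + 3) - 2 * (m + 1) * (t + 1) - lam) +
          (2 * q * (m + 3) - 2 * (m + 1) * (t + 1) + 4 * q * (t - q) - lam) * r ^ 2 := by
          unfold W; ring
        rw [this]
        have := sub_nonneg.2 h1
        have := sub_nonneg.2 h2
        positivity
      positivity
    rw [intervalIntegral.integral_sub ((iN.sub (iD.const_mul _)).add (iX.const_mul _))
      (iH'.const_mul _), intervalIntegral.integral_add (iN.sub (iD.const_mul _)) (iX.const_mul _),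
      intervalIntegral.integral_sub iN (iD.const_mul _), intervalIntegral.integral_const_mul,
      intervalIntegral.integral_const_mul, intervalIntegral.integral_const_mul, s2, s3] at pos
    linarith
  -- the limit
  have t1 : Tendsto e1 (𝓝[>] 0) (𝓝 0) := by
    have : Tendsto e1 (𝓝 0) (𝓝 (e1 0)) := (hGc.mul hfc).tendsto 0
    simp only [he1, hG0, zero_mul] at this
    exact this.mono_left nhdsWithin_le_nhds
  have t2 : Tendsto e2 (𝓝[>] 0) (𝓝 0) := by
    have b : ∀ᶠ ε in 𝓝[>] (0 : ℝ), ‖e2 ε‖ ≤ |(m + 1) * W ε ^ (t + 1) - 2 * q * ε ^ 2 * W ε ^ t| *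
        K ^ 2 * ε ^ (m + 1) := by
      filter_upwards [Ioo_mem_nhdsGT hR] with ε hε
      have h0 := hGb ε ⟨hε.1.le, hε.2.le⟩
      have hε0 : 0 < ε ^ (m + 1) := pow_pos hε.1 _
      simp only [he2]
      rw [Real.norm_eq_abs, abs_mul, abs_div, abs_of_pos hε0, abs_of_nonneg (sq_nonneg (G ε))]
      have h3 : G ε ^ 2 ≤ (K * ε ^ (m + 1)) ^ 2 := by
        rw [← sq_abs]
        exact pow_le_pow_left₀ (abs_nonneg _) h0 2
      calc |(m + 1) * W ε ^ (t + 1) - 2 * q * ε ^ 2 * W ε ^ t| / ε ^ (m + 1) * G ε ^ 2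
          ≤ |(m + 1) * W ε ^ (t + 1) - 2 * q * ε ^ 2 * W ε ^ t| / ε ^ (m + 1) *
            (K * ε ^ (m + 1)) ^ 2 := by gcongr
        _ = _ := by field_simp
    refine squeeze_zero_norm' b ?_
    have c : Continuous fun ε : ℝ => |(m + 1) * W ε ^ (t + 1) - 2 * q * ε ^ 2 * W ε ^ t| *
        K ^ 2 * ε ^ (m + 1) := by fun_prop
    have := c.tendsto 0
    simp only [ne_eq, Nat.add_eq_zero_iff, one_ne_zero, and_false, not_false_eq_true, zero_pow,
      mul_zero] at this
    exact this.mono_left nhdsWithin_le_nhds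
  have lim : ∀ {h : ℝ → ℝ}, Continuous h →
      Tendsto (fun ε => ∫ r in ε..R, h r) (𝓝[>] 0) (𝓝 (∫ r in (0 : ℝ)..R, h r)) := by
    intro h hh
    have : Continuous fun ε => ∫ r in R..ε, h r :=
      continuous_primitive (fun a b => hh.intervalIntegrable a b) R
    have h2 : Continuous fun ε => ∫ r in ε..R, h r := by
      have e : (fun ε => ∫ r in ε..R, h r) = fun ε => - ∫ r in R..ε, h r := by
        funext ε
        rw [integral_symm]
      rw [e]
      exact this.neg
    exact (h2.tendsto 0).mono_left nhdsWithin_le_nhds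
  have l1 := (lim (h := fun r => r ^ m * (W r ^ (-t - 1) * f r ^ 2)) (by fun_prop)).const_mul lam
  have l2 := ((lim (h := fun r => r ^ m * (W r ^ (-t) * f' r ^ 2)) (by fun_prop)).sub
    (t1.const_mul (2 * lam))).add (t2.const_mul lam)
  rw [mul_zero, mul_zero, sub_zero, add_zero] at l2
  refine le_of_tendsto_of_tendsto l1 l2 ?_
  filter_upwards [Ioo_mem_nhdsGT hR] with ε hε
  exact key ε hε

end Run7.h187.Hy
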