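import Pool.Agent.Run7.h187.HyDefs
import Pool.Agent.Run7.h187.HyOne
import Pool.Agent.Q94.NB.K13
import Pool.Agent.Q94.NB.K14
import Pool.Agent.Q94.NB.K17

/-!
Polar coordinates and the lower bounds for the weighted Hardy constant.
-/

set_option autoImplicit false

open MeasureTheory Set Filter Topology Metric
open scoped ENNReal
open Q94.NB Q94.NB.S98

namespace Run7.h187.Hy

variable {d : ℕ}

lemma prod_integrable {R : ℝ} {F : ℝ → sphere (0 : E d) 1 → ℝ}
    (hF : Continuous (Function.uncurry F)) :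
    Integrable (Function.uncurry F) ((volume.restrict (Ioc 0 R)).prod (sg d)) := by
  have := sg_fin d
  have h1 : IntegrableOn (Function.uncurry F) (Icc (0 : ℝ) R ×ˢ univ)
      ((volume : Measure ℝ).prod (sg d)) :=
    hF.continuousOn.integrableOn_compact (isCompact_Icc.prod isCompact_univ)
  have h2 : (volume.restrict (Ioc 0 R)).prod (sg d) =
      ((volume : Measure ℝ).prod (sg d)).restrict (Ioc (0 : ℝ) R ×ˢ univ) := by
    rw [← Measure.prod_restrict, Measure.restrict_univ]
  rw [h2]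
  exact h1.mono_set (prod_mono Ioc_subset_Icc_self le_rfl)

/-- exchange of the order of integration -/
lemma swap {R : ℝ} (hR : 0 ≤ R) {F : ℝ → sphere (0 : E d) 1 → ℝ}
    (hF : Continuous (Function.uncurry F)) :
    ∫ r in (0 : ℝ)..R, ∫ θ, F r θ ∂(sg d) = ∫ θ, (∫ r in (0 : ℝ)..R, F r θ) ∂(sg d) := by
  have := sg_fin d
  simp_rw [intervalIntegral.integral_of_le hR]
  exact integral_integral_swap (prod_integrable hF)

/-- continuity of integrals over the sphere -/
lemma sph_cont {F : ℝ → sphere (0 : E d) 1 → ℝ} (hF : Continuous (Function.uncurry F)) :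
    Continuous fun r => ∫ θ, F r θ ∂(sg d) := by
  have := sg_fin d
  have h := continuous_parametric_integral_of_continuous (μ := sg d)
    (f := fun r θ => F r θ) hF (s := univ) isCompact_univ
  simpa only [Measure.restrict_univ] using h

lemma sph_ray {G : E d → ℝ} (hG : Continuous G) (r : ℝ) :
    Continuous fun θ : sphere (0 : E d) 1 => G (r • (θ : E d)) :=
  hG.comp (by fun_prop : Continuous fun θ : sphere (0 : E d) 1 => r • (θ : E d))

lemma polar_nonneg (hd : 1 ≤ d) {G : E d → ℝ} (hG : Continuous G) (hp : ∀ x, 0 ≤ G x) {R : ℝ}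
    (hR : 0 ≤ R) (h0 : ∀ x, R ≤ ‖x‖ → G x = 0) :
    ∫ x, G x = ∫ r in (0 : ℝ)..R, r ^ (d - 1) * ∫ θ, G (r • (θ : E d)) ∂(sg d) := by
  have := sg_fin d
  have hc : Continuous (Function.uncurry fun (r : ℝ) (θ : sphere (0 : E d) 1) =>
      G (r • (θ : E d))) := hG.comp (by fun_prop)
  have hi : Continuous fun r : ℝ => ∫ θ, G (r • (θ : E d)) ∂(sg d) := sph_cont hc
  rw [integral_eq_lintegral_of_nonneg_ae (Eventually.of_forall hp) hG.aestronglyMeasurable,
    polar hd _ hG.measurable.ennreal_ofReal, intervalIntegral.integral_of_le hR]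
  rw [integral_eq_lintegral_of_nonneg_ae]
  · congr 1
    rw [← lintegral_indicator measurableSet_Ioi, ← lintegral_indicator measurableSet_Ioc]
    refine lintegral_congr fun r => ?_
    by_cases hr : r ∈ Ioc 0 R
    · have hs := sph_ray hG r
      rw [indicator_of_mem (show r ∈ Ioi (0 : ℝ) from hr.1), indicator_of_mem hr,
        ENNReal.ofReal_mul (pow_nonneg hr.1.le _), ofReal_integral_eq_lintegral_ofReal
          (sph_int d hs) (Eventually.of_forall fun θ => hp _)]
    · rw [indicator_of_notMem hr]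
      by_cases hr0 : 0 < r
      · rw [indicator_of_mem (show r ∈ Ioi (0 : ℝ) from hr0)]
        have hRr : R ≤ r := by
          by_contra hcon
          exact hr ⟨hr0, (not_le.1 hcon).le⟩
        have : ∀ θ : sphere (0 : E d) 1, G (r • (θ : E d)) = 0 := by
          intro θ
          apply h0
          rw [norm_smul, norm_sph, mul_one, Real.norm_of_nonneg hr0.le]
          exact hRr
        simp [this]
      · rw [indicator_of_notMem (show r ∉ Ioi (0 : ℝ) from hr0)]
  · filter_upwards [ae_restrict_mem measurableSet_Ioc] with r hr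
    exact mul_nonneg (pow_nonneg hr.1.le _) (integral_nonneg fun θ => hp _)
  · exact ((continuous_pow _).mul hi).aestronglyMeasurable

/-- polar coordinates for continuous functions of compact support -/
lemma polarC (hd : 1 ≤ d) {G : E d → ℝ} (hG : Continuous G) {R : ℝ}
    (hR : 0 ≤ R) (h0 : ∀ x, R ≤ ‖x‖ → G x = 0) :
    ∫ x, G x = ∫ r in (0 : ℝ)..R, r ^ (d - 1) * ∫ θ, G (r • (θ : E d)) ∂(sg d) := by
  have := sg_fin d
  set P : E d → ℝ := fun x => max (G x) 0 with hP
  set N : E d → ℝ := fun x => max (-G x) 0 with hN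
  have hPc : Continuous P := hG.max continuous_const
  have hNc : Continuous N := hG.neg.max continuous_const
  have e : ∀ x, G x = P x - N x := by
    intro x
    simp only [hP, hN]
    rcases le_total 0 (G x) with h | h
    · rw [max_eq_left h, max_eq_right (by linarith)]; ring
    · rw [max_eq_right h, max_eq_left (by linarith)]; ring
  have hcs : HasCompactSupport G := by
    refine HasCompactSupport.intro (isCompact_closedBall (0 : E d) R) fun x hx => ?_
    apply h0
    rw [mem_closedBall, dist_zero_right, not_le] at hx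
    exact hx.le
  have iP : Integrable P := by
    refine hPc.integrable_of_hasCompactSupport (hcs.mono' ?_)
    intro x hx
    apply subset_tsupport
    intro hg
    apply hx
    simp [hP, hg]
  have iN : Integrable N := by
    refine hNc.integrable_of_hasCompactSupport (hcs.mono' ?_)
    intro x hx
    apply subset_tsupport
    intro hg
    apply hx
    simp [hN, hg]
  have h1 := polar_nonneg hd hPc (fun x => le_max_right _ _) hR
    (fun x hx => by simp [hP, h0 x hx])
  have h2 := polar_nonneg hd hNc (fun x => le_max_right _ _) hR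
    (fun x hx => by simp [hN, h0 x hx])
  have cP : Continuous fun r : ℝ => ∫ θ, P (r • (θ : E d)) ∂(sg d) :=
    sph_cont (F := fun (r : ℝ) (θ : sphere (0 : E d) 1) => P (r • (θ : E d)))
      (hPc.comp (by fun_prop))
  have cN : Continuous fun r : ℝ => ∫ θ, N (r • (θ : E d)) ∂(sg d) :=
    sph_cont (F := fun (r : ℝ) (θ : sphere (0 : E d) 1) => N (r • (θ : E d)))
      (hNc.comp (by fun_prop))
  calc ∫ x, G x = ∫ x, (P x - N x) := by simp_rw [← e]
    _ = (∫ x, P x) - ∫ x, N x := integral_sub iP iN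
    _ = _ := by
      have i1 : IntervalIntegrable (fun r : ℝ => r ^ (d - 1) * ∫ θ, P (r • (θ : E d)) ∂(sg d))
          volume 0 R := ((continuous_pow _).mul cP).intervalIntegrable _ _
      have i2 : IntervalIntegrable (fun r : ℝ => r ^ (d - 1) * ∫ θ, N (r • (θ : E d)) ∂(sg d))
          volume 0 R := ((continuous_pow _).mul cN).intervalIntegrable _ _
      rw [h1, h2, ← intervalIntegral.integral_sub i1 i2]
      refine intervalIntegral.integral_congr fun r _ => ?_
      change r ^ (d - 1) * (∫ θ, P (r • (θ : E d)) ∂(sg d)) -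
        r ^ (d - 1) * (∫ θ, N (r • (θ : E d)) ∂(sg d)) = _
      rw [← mul_sub, ← integral_sub (sph_int d (sph_ray hPc r)) (sph_int d (sph_ray hNc r))]
      simp_rw [← e]

/-! ### energy and mass in polar coordinates -/

section

variable {u : E d → ℝ}

lemma exists_R (hc : HasCompactSupport u) :
    ∃ R : ℝ, 0 < R ∧ ∀ x, R ≤ ‖x‖ → u x = 0 ∧ gradient u x = 0 := by
  obtain ⟨R, hR0, hR⟩ := hc.isCompact.isBounded.subset_ball_lt 0 0
  refine ⟨R, hR0, fun x hx => ?_⟩
  have hx' : x ∉ tsupport u := by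
    intro h
    have := hR h
    rw [mem_ball, dist_zero_right] at this
    linarith
  refine ⟨image_eq_zero_of_notMem_tsupport hx', ?_⟩
  rw [gradient, fderiv_of_notMem_tsupport ℝ hx', map_zero]

lemma norm_ray (r : ℝ) (θ : sphere (0 : E d) 1) : 1 + ‖r • (θ : E d)‖ ^ 2 = W r := by
  rw [norm_smul, norm_sph, mul_one, Real.norm_eq_abs, sq_abs]; rfl

lemma weight_cont (a : ℝ) : Continuous fun x : E d => (1 + ‖x‖ ^ 2) ^ a := by
  refine Continuous.rpow_const (by fun_prop) fun x => Or.inl ?_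
  positivity

lemma energy_polar (hd : 1 ≤ d) (α : ℝ) (hu : ContDiff ℝ 1 u) {R : ℝ} (hR : 0 ≤ R)
    (h0 : ∀ x, R ≤ ‖x‖ → u x = 0 ∧ gradient u x = 0) :
    energy α u = ∫ r in (0 : ℝ)..R, r ^ (d - 1) *
      (W r ^ α * ∫ θ, ‖gradient u (r • (θ : E d))‖ ^ 2 ∂(sg d)) := by
  have hG : Continuous fun x : E d => (1 + ‖x‖ ^ 2) ^ α * ‖gradient u x‖ ^ 2 :=
    (weight_cont α).mul ((grad_cont hu).norm.pow 2)
  rw [energy, polarC hd hG hR (fun x hx => by rw [(h0 x hx).2]; simp)]
  refine intervalIntegral.integral_congr fun r _ => ?_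
  simp only [norm_ray]
  rw [integral_const_mul]

lemma mass_polar (hd : 1 ≤ d) (α : ℝ) (hu : ContDiff ℝ 1 u) {R : ℝ} (hR : 0 ≤ R)
    (h0 : ∀ x, R ≤ ‖x‖ → u x = 0 ∧ gradient u x = 0) :
    mass α u = ∫ r in (0 : ℝ)..R, r ^ (d - 1) *
      (W r ^ (α - 1) * ∫ θ, u (r • (θ : E d)) ^ 2 ∂(sg d)) := by
  have hG : Continuous fun x : E d => (1 + ‖x‖ ^ 2) ^ (α - 1) * u x ^ 2 :=
    (weight_cont (α - 1)).mul (hu.continuous.pow 2)
  rw [mass, polarC hd hG hR (fun x hx => by rw [(h0 x hx).1]; simp)]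
  refine intervalIntegral.integral_congr fun r _ => ?_
  simp only [norm_ray]
  rw [integral_const_mul]

lemma gr_sq_le (r : ℝ) (θ : sphere (0 : E d) 1) :
    gr u r θ ^ 2 ≤ ‖gradient u (r • (θ : E d))‖ ^ 2 := by
  have h : |gr u r θ| ≤ ‖gradient u (r • (θ : E d))‖ := by
    unfold gr
    have := abs_real_inner_le_norm (gradient u (r • (θ : E d))) (θ : E d)
    rwa [norm_sph, mul_one] at this
  rw [← sq_abs]
  exact pow_le_pow_left₀ (abs_nonneg _) h 2

/-- lower bound for radial ground states without constraint -/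
theorem lowerA (m : ℕ) (hdm : d = m + 1) (α κ C : ℝ) (h1 : C ≤ 2 * κ * d)
    (h2 : C ≤ 2 * κ * d + 4 * κ * (α - 1 - κ)) (hu : ContDiff ℝ 1 u)
    (hc : HasCompactSupport u) : C * mass α u ≤ energy α u := by
  have := sg_fin d
  obtain ⟨R, hR0, h0⟩ := exists_R hc
  have hdm' : d - 1 = m := by omega
  have hd1 : (d : ℝ) = m + 1 := by rw [hdm]; push_cast; ring
  rw [hd1] at h1 h2
  rw [energy_polar (by omega) α hu hR0.le h0, mass_polar (by omega) α hu hR0.le h0, hdm']
  have hrc : Continuous fun z : ℝ × sphere (0 : E d) 1 => z.1 • (z.2 : E d) := by fun_prop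
  have cg : Continuous fun z : ℝ × sphere (0 : E d) 1 => ‖gradient u (z.1 • (z.2 : E d))‖ :=
    ((grad_cont hu).comp hrc).norm
  have cu : Continuous fun z : ℝ × sphere (0 : E d) 1 => u (z.1 • (z.2 : E d)) :=
    hu.continuous.comp hrc
  have cr := gr_cont hu
  have w1 := Wp_cont α
  have w2 := Wp_cont (α - 1)
  have w3 := Wp_cont (α - 2)
  -- continuity in two variables
  have k1 : Continuous (Function.uncurry fun (r : ℝ) (θ : sphere (0 : E d) 1) =>
      ‖gradient u (r • (θ : E d))‖ ^ 2) := cg.pow 2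
  have k2 : Continuous (Function.uncurry fun (r : ℝ) (θ : sphere (0 : E d) 1) =>
      r ^ m * (W r ^ α * gr u r θ ^ 2)) :=
    (continuous_fst.pow m).mul ((w1.comp continuous_fst).mul (cr.pow 2))
  have k3 : Continuous (Function.uncurry fun (r : ℝ) (θ : sphere (0 : E d) 1) =>
      r ^ m * (W r ^ (α - 1) * u (r • (θ : E d)) ^ 2)) :=
    (continuous_fst.pow m).mul ((w2.comp continuous_fst).mul (cu.pow 2))
  have s1 : ∫ r in (0 : ℝ)..R, (∫ θ, r ^ m * (W r ^ α * gr u r θ ^ 2) ∂(sg d)) ≤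
      ∫ r in (0 : ℝ)..R, r ^ m * (W r ^ α * ∫ θ, ‖gradient u (r • (θ : E d))‖ ^ 2 ∂(sg d)) := by
    refine intervalIntegral.integral_mono_on hR0.le ((sph_cont k2).intervalIntegrable _ _)
      (Continuous.intervalIntegrable ((continuous_pow m).mul (w1.mul (sph_cont k1))) _ _) ?_
    intro r hr
    rw [← integral_const_mul, ← integral_const_mul]
    refine integral_mono (sph_int d (k2.comp (by fun_prop :
      Continuous fun θ : sphere (0 : E d) 1 => (r, θ)))) ?_ ?_
    · exact (((sph_int d (k1.comp (by fun_prop :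
        Continuous fun θ : sphere (0 : E d) 1 => (r, θ)))).const_mul _).const_mul _)
    · intro θ
      have a1 := gr_sq_le (u := u) r θ
      have a2 := (Wp_pos α r).le
      have a3 := pow_nonneg hr.1 m
      exact mul_le_mul_of_nonneg_left (mul_le_mul_of_nonneg_left a1 a2) a3
  have s2 : ∫ r in (0 : ℝ)..R, r ^ m * (W r ^ (α - 1) * ∫ θ, u (r • (θ : E d)) ^ 2 ∂(sg d)) =
      ∫ r in (0 : ℝ)..R, (∫ θ, r ^ m * (W r ^ (α - 1) * u (r • (θ : E d)) ^ 2) ∂(sg d)) := by
    refine intervalIntegral.integral_congr fun r _ => ?_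
    rw [← integral_const_mul, ← integral_const_mul]
  rw [s2]
  refine le_trans ?_ s1
  rw [swap hR0.le k2, swap hR0.le k3, ← integral_const_mul]
  have cI : ∀ {F : ℝ → sphere (0 : E d) 1 → ℝ}, Continuous (Function.uncurry F) →
      Integrable (fun θ => ∫ r in (0 : ℝ)..R, F r θ) (sg d) := by
    intro F hF
    simp_rw [intervalIntegral.integral_of_le hR0.le]
    exact (prod_integrable hF).integral_prod_right
  refine integral_mono ((cI k3).const_mul C) (cI k2) ?_
  intro θ
  have hf : ∀ r, HasDerivAt (fun r : ℝ => u (r • (θ : E d))) (gr u r θ) r :=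
    fun r => uf_deriv hu θ r
  have hfc : Continuous fun r : ℝ => u (r • (θ : E d)) :=
    continuous_iff_continuousAt.2 fun x => (hf x).continuousAt
  have hgc : Continuous fun r => gr u r θ :=
    cr.comp (by fun_prop : Continuous fun r : ℝ => (r, θ))
  have hfR : u (R • (θ : E d)) = 0 := by
    apply (h0 _ _).1
    rw [norm_smul, norm_sph, mul_one, Real.norm_of_nonneg hR0.le]
  have key := oneA m α κ R hR0.le _ _ hf hgc hfR
  refine le_trans ?_ key
  change C * (∫ r in (0 : ℝ)..R, r ^ m * (W r ^ (α - 1) * u (r • (θ : E d)) ^ 2)) ≤ _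
  rw [← intervalIntegral.integral_const_mul]
  refine intervalIntegral.integral_mono_on hR0.le ?_ ?_ ?_
  · apply Continuous.intervalIntegrable
    fun_prop
  · apply Continuous.intervalIntegrable
    fun_prop
  · intro r hr
    have e1 : W r ^ (α - 1) = W r ^ (α - 2) * W r := by
      rw [← Wp_succ]; congr 1; ring
    rw [e1]
    have a1 : C * W r ≤ 2 * κ * (m + 1) + (2 * κ * (m + 1) + 4 * κ * (α - 1 - κ)) * r ^ 2 := by
      unfold W
      nlinarith [sq_nonneg r]
    have a2 := (Wp_pos (α - 2) r).le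
    have a3 := pow_nonneg hr.1 m
    have a4 := sq_nonneg (u (r • (θ : E d)))
    calc C * (r ^ m * (W r ^ (α - 2) * W r * u (r • (θ : E d)) ^ 2))
        = r ^ m * (W r ^ (α - 2) * (C * W r) * u (r • (θ : E d)) ^ 2) := by ring
      _ ≤ _ := by gcongr

lemma mono3 {X : Type*} [MeasurableSpace X] {μ : Measure X} {A1 A2 A3 : X → ℝ} (a b : ℝ)
    (h1 : Integrable A1 μ) (h2 : Integrable A2 μ) (h3 : Integrable A3 μ)
    (h : ∀ θ, a * A1 θ ≤ A2 θ + b * A3 θ) :
    a * ∫ θ, A1 θ ∂μ ≤ (∫ θ, A2 θ ∂μ) + b * ∫ θ, A3 θ ∂μ := by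
  rw [← integral_const_mul, ← integral_const_mul, ← integral_add h2 (h3.const_mul b)]
  exact integral_mono (h1.const_mul a) (h2.add (h3.const_mul b)) h

/-- lower bound under the constraint -/
theorem lowerB (m : ℕ) (hdm : d = m + 3) (t q lam C : ℝ) (hlam : 0 ≤ lam) (hC1 : C ≤ lam)
    (hC2 : C ≤ 2 * t) (h1 : lam ≤ 2 * q * (d + 2) - 2 * d * (t + 1))
    (h2 : lam ≤ 2 * q * (d + 2) - 2 * d * (t + 1) + 4 * q * (t - q)) (hu : ContDiff ℝ 1 u)
    (hc : HasCompactSupport u) (hmean : ∫ x : E d, (1 + ‖x‖ ^ 2) ^ (-t - 1) * u x = 0) :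
    C * mass (-t) u ≤ energy (-t) u := by
  have fin := sg_fin d
  obtain ⟨R, hR0, h0⟩ := exists_R hc
  have hdm' : d - 1 = m + 2 := by omega
  have hd1 : (d : ℝ) = m + 3 := by rw [hdm]; push_cast; ring
  rw [hd1] at h1 h2
  have hrc : Continuous fun z : ℝ × sphere (0 : E d) 1 => z.1 • (z.2 : E d) := by fun_prop
  have cg : Continuous fun z : ℝ × sphere (0 : E d) 1 => ‖gradient u (z.1 • (z.2 : E d))‖ :=
    ((grad_cont hu).comp hrc).norm
  have cu : Continuous fun z : ℝ × sphere (0 : E d) 1 => u (z.1 • (z.2 : E d)) :=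
    hu.continuous.comp hrc
  have cr := gr_cont hu
  have w1 := Wp_cont (-t)
  have w2 := Wp_cont (-t - 1)
  have fix : ∀ {F : ℝ → sphere (0 : E d) 1 → ℝ}, Continuous (Function.uncurry F) → ∀ r,
      Continuous (F r) := fun hF r =>
    hF.comp (by fun_prop : Continuous fun θ : sphere (0 : E d) 1 => (r, θ))
  -- the mean
  set S : ℝ := (sg d).real univ with hS
  have hSpos : 0 < S := by
    have : Nontrivial (E d) := by
      have : Nonempty (Fin d) := ⟨⟨0, by omega⟩⟩
      infer_instance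
    simp only [hS]
    rw [measureReal_def]
    refine ENNReal.toReal_pos ?_ (measure_ne_top _ _)
    rw [Measure.measure_univ_ne_zero]
    exact Measure.toSphere_ne_zero _
  have mnd : ∀ r, HasDerivAt (mn u) (mn' u r) r := fun r => mn_deriv hu r
  have mnc : Continuous (mn u) := continuous_iff_continuousAt.2 fun r => (mnd r).continuousAt
  have mnc' : Continuous (mn' u) := mn'_cont hu
  have iu : ∀ r : ℝ, Integrable (fun θ : sphere (0 : E d) 1 => u (r • (θ : E d))) (sg d) :=
    fun r => sph_int d (sph_ray hu.continuous r)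
  have ig : ∀ r : ℝ, Integrable (fun θ : sphere (0 : E d) 1 => gr u r θ) (sg d) :=
    fun r => sph_int d (fix (F := fun r θ => gr u r θ) cr r)
  have hmn : ∀ r, ∫ θ, u (r • (θ : E d)) ∂(sg d) = S * mn u r := by
    intro r
    rw [mn, ← hS]
    field_simp
  have hmn' : ∀ r, ∫ θ, gr u r θ ∂(sg d) = S * mn' u r := by
    intro r
    rw [mn', ← hS]
    field_simp
  -- oscillation
  set hh : ℝ → sphere (0 : E d) 1 → ℝ := fun r θ => u (r • (θ : E d)) - mn u r with hhh
  set hh' : ℝ → sphere (0 : E d) 1 → ℝ := fun r θ => gr u r θ - mn' u r with hhh'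
  have hhc : Continuous (Function.uncurry hh) := cu.sub (mnc.comp continuous_fst)
  have hh'c : Continuous (Function.uncurry hh') := cr.sub (mnc'.comp continuous_fst)
  have zero1 : ∀ r, ∫ θ, hh r θ ∂(sg d) = 0 := by
    intro r
    simp only [hhh]
    rw [integral_sub (iu r) (integrable_const _), hmn, integral_const, smul_eq_mul, ← hS]
    ring
  have zero2 : ∀ r, ∫ θ, hh' r θ ∂(sg d) = 0 := by
    intro r
    simp only [hhh']
    rw [integral_sub (ig r) (integrable_const _), hmn', integral_const, smul_eq_mul, ← hS]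
    ring
  have ihh : ∀ r, Integrable (fun θ => hh r θ) (sg d) := fun r => sph_int d (fix hhc r)
  have ihh' : ∀ r, Integrable (fun θ => hh' r θ) (sg d) := fun r => sph_int d (fix hh'c r)
  have ihh2 : ∀ r, Integrable (fun θ => hh r θ ^ 2) (sg d) :=
    fun r => sph_int d ((fix hhc r).pow 2)
  have ihh'2 : ∀ r, Integrable (fun θ => hh' r θ ^ 2) (sg d) :=
    fun r => sph_int d ((fix hh'c r).pow 2)
  have sq1 : ∀ r, ∫ θ, u (r • (θ : E d)) ^ 2 ∂(sg d) =
      (∫ θ, hh r θ ^ 2 ∂(sg d)) + S * mn u r ^ 2 := by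
    intro r
    have e : (fun θ : sphere (0 : E d) 1 => u (r • (θ : E d)) ^ 2) = fun θ =>
        hh r θ ^ 2 + (2 * mn u r * hh r θ + mn u r ^ 2) := by
      funext θ
      simp only [hhh]
      ring
    have i1 : Integrable (fun θ : sphere (0 : E d) 1 => 2 * mn u r * hh r θ + mn u r ^ 2) (sg d) :=
      ((ihh r).const_mul _).add (integrable_const _)
    rw [e, integral_add (ihh2 r) i1, integral_add ((ihh r).const_mul _) (integrable_const _),
      integral_const_mul, zero1, mul_zero, zero_add, integral_const, smul_eq_mul]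
  have sq2 : ∀ r, ∫ θ, gr u r θ ^ 2 ∂(sg d) =
      (∫ θ, hh' r θ ^ 2 ∂(sg d)) + S * mn' u r ^ 2 := by
    intro r
    have e : (fun θ : sphere (0 : E d) 1 => gr u r θ ^ 2) = fun θ =>
        hh' r θ ^ 2 + (2 * mn' u r * hh' r θ + mn' u r ^ 2) := by
      funext θ
      simp only [hhh']
      ring
    have i1 : Integrable (fun θ : sphere (0 : E d) 1 => 2 * mn' u r * hh' r θ + mn' u r ^ 2)
      (sg d) := ((ihh' r).const_mul _).add (integrable_const _)
    rw [e, integral_add (ihh'2 r) i1, integral_add ((ihh' r).const_mul _) (integrable_const _),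
      integral_const_mul, zero2, mul_zero, zero_add, integral_const, smul_eq_mul]
  -- Poincare on spheres
  have poin : ∀ r, 0 < r → (∫ θ, gr u r θ ^ 2 ∂(sg d)) +
      (m + 2) / r ^ 2 * (∫ θ, hh r θ ^ 2 ∂(sg d)) ≤
      ∫ θ, ‖gradient u (r • (θ : E d))‖ ^ 2 ∂(sg d) := by
    intro r hr
    have h := s4 (s2 s1) s3 d u r (by omega) hu hr
    have i1 : Integrable (fun θ : sphere (0 : E d) 1 => ‖gradient u (r • (θ : E d))‖ ^ 2) (sg d) :=
      sph_int d ((fix (F := fun (r : ℝ) (θ : sphere (0 : E d) 1) =>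
        ‖gradient u (r • (θ : E d))‖) cg r).pow 2)
    have i2 : Integrable (fun θ : sphere (0 : E d) 1 => gr u r θ ^ 2) (sg d) :=
      sph_int d ((fix (F := fun r θ => gr u r θ) cr r).pow 2)
    have e : ∫ θ : sphere (0 : E d) 1, (‖gradient u (r • (θ : E d))‖ ^ 2 -
        inner ℝ (gradient u (r • (θ : E d))) (θ : E d) ^ 2) ∂(sg d) =
        (∫ θ, ‖gradient u (r • (θ : E d))‖ ^ 2 ∂(sg d)) - ∫ θ, gr u r θ ^ 2 ∂(sg d) :=
      integral_sub i1 i2
    rw [e] at h
    have hm : (0 : ℝ) < m + 2 := by positivity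
    have hd2 : (d : ℝ) - 1 = m + 2 := by rw [hd1]; ring
    rw [hd2] at h
    have hr2 : 0 < r ^ 2 := by positivity
    have h' : (m + 2) / r ^ 2 * (∫ θ, hh r θ ^ 2 ∂(sg d)) ≤
        (∫ θ, ‖gradient u (r • (θ : E d))‖ ^ 2 ∂(sg d)) - ∫ θ, gr u r θ ^ 2 ∂(sg d) := by
      calc (m + 2) / r ^ 2 * (∫ θ, hh r θ ^ 2 ∂(sg d))
          ≤ (m + 2) / r ^ 2 * (r ^ 2 / (m + 2) *
            ((∫ θ, ‖gradient u (r • (θ : E d))‖ ^ 2 ∂(sg d)) - ∫ θ, gr u r θ ^ 2 ∂(sg d))) :=
            mul_le_mul_of_nonneg_left h (by positivity)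
        _ = _ := by field_simp
    linarith
  -- polar coordinates
  rw [energy_polar (by omega) (-t) hu hR0.le h0, mass_polar (by omega) (-t) hu hR0.le h0, hdm']
  -- continuity
  have k1 : Continuous fun r : ℝ => ∫ θ, ‖gradient u (r • (θ : E d))‖ ^ 2 ∂(sg d) :=
    sph_cont (F := fun (r : ℝ) (θ : sphere (0 : E d) 1) => ‖gradient u (r • (θ : E d))‖ ^ 2)
      (cg.pow 2)
  have k2 : Continuous fun r : ℝ => ∫ θ, hh r θ ^ 2 ∂(sg d) :=
    sph_cont (F := fun r θ => hh r θ ^ 2) (hhc.pow 2)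
  have k3 : Continuous fun r : ℝ => ∫ θ, hh' r θ ^ 2 ∂(sg d) :=
    sph_cont (F := fun r θ => hh' r θ ^ 2) (hh'c.pow 2)
  -- mass
  have eM : ∫ r in (0 : ℝ)..R, r ^ (m + 2) * (W r ^ (-t - 1) *
      ∫ θ, u (r • (θ : E d)) ^ 2 ∂(sg d)) =
      (∫ r in (0 : ℝ)..R, r ^ (m + 2) * (W r ^ (-t - 1) * ∫ θ, hh r θ ^ 2 ∂(sg d))) +
      S * ∫ r in (0 : ℝ)..R, r ^ (m + 2) * (W r ^ (-t - 1) * mn u r ^ 2) := by
    have i1 : IntervalIntegrable (fun r => r ^ (m + 2) * (W r ^ (-t - 1) *
        ∫ θ, hh r θ ^ 2 ∂(sg d))) volume 0 R := by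
      apply Continuous.intervalIntegrable
      fun_prop
    have i2 : IntervalIntegrable (fun r => S * (r ^ (m + 2) * (W r ^ (-t - 1) * mn u r ^ 2)))
        volume 0 R := by
      apply Continuous.intervalIntegrable
      fun_prop
    rw [← intervalIntegral.integral_const_mul, ← intervalIntegral.integral_add i1 i2]
    refine intervalIntegral.integral_congr fun r _ => ?_
    simp only [sq1]
    ring
  -- energy
  have eN : ((∫ r in (0 : ℝ)..R, r ^ (m + 2) * (W r ^ (-t) * ∫ θ, hh' r θ ^ 2 ∂(sg d))) +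
      (m + 2) * ∫ r in (0 : ℝ)..R, r ^ m * (W r ^ (-t) * ∫ θ, hh r θ ^ 2 ∂(sg d))) +
      S * ∫ r in (0 : ℝ)..R, r ^ (m + 2) * (W r ^ (-t) * mn' u r ^ 2) ≤
      ∫ r in (0 : ℝ)..R, r ^ (m + 2) * (W r ^ (-t) *
        ∫ θ, ‖gradient u (r • (θ : E d))‖ ^ 2 ∂(sg d)) := by
    have i1 : IntervalIntegrable (fun r => r ^ (m + 2) * (W r ^ (-t) *
        ∫ θ, hh' r θ ^ 2 ∂(sg d))) volume 0 R := by
      apply Continuous.intervalIntegrable
      fun_prop
    have i2 : IntervalIntegrable (fun r => (m + 2) * (r ^ m * (W r ^ (-t) *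
        ∫ θ, hh r θ ^ 2 ∂(sg d)))) volume 0 R := by
      apply Continuous.intervalIntegrable
      fun_prop
    have i3 : IntervalIntegrable (fun r => S * (r ^ (m + 2) * (W r ^ (-t) * mn' u r ^ 2)))
        volume 0 R := by
      apply Continuous.intervalIntegrable
      fun_prop
    have i4 : IntervalIntegrable (fun r => r ^ (m + 2) * (W r ^ (-t) *
        ∫ θ, ‖gradient u (r • (θ : E d))‖ ^ 2 ∂(sg d))) volume 0 R := by
      apply Continuous.intervalIntegrable
      fun_prop
    rw [← intervalIntegral.integral_const_mul, ← intervalIntegral.integral_const_mul,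
      ← intervalIntegral.integral_add i1 i2, ← intervalIntegral.integral_add (i1.add i2) i3]
    refine intervalIntegral.integral_mono_on_of_le_Ioo hR0.le ((i1.add i2).add i3) i4 ?_
    intro r hr
    have hp := poin r hr.1
    rw [sq2] at hp
    have a1 : 0 ≤ r ^ (m + 2) * W r ^ (-t) :=
      mul_nonneg (pow_nonneg hr.1.le _) (Wp_pos (-t) r).le
    have hr0 : r ≠ 0 := hr.1.ne'
    calc r ^ (m + 2) * (W r ^ (-t) * ∫ θ, hh' r θ ^ 2 ∂(sg d)) +
        (m + 2) * (r ^ m * (W r ^ (-t) * ∫ θ, hh r θ ^ 2 ∂(sg d))) +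
        S * (r ^ (m + 2) * (W r ^ (-t) * mn' u r ^ 2))
        = r ^ (m + 2) * W r ^ (-t) * ((∫ θ, hh' r θ ^ 2 ∂(sg d)) + S * mn' u r ^ 2 +
          (m + 2) / r ^ 2 * ∫ θ, hh r θ ^ 2 ∂(sg d)) := by
          field_simp
          ring
      _ ≤ r ^ (m + 2) * W r ^ (-t) * ∫ θ, ‖gradient u (r • (θ : E d))‖ ^ 2 ∂(sg d) :=
          mul_le_mul_of_nonneg_left hp a1
      _ = _ := by ring
  -- the oscillating part
  have part1 : 2 * t * (∫ r in (0 : ℝ)..R, r ^ (m + 2) * (W r ^ (-t - 1) *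
      ∫ θ, hh r θ ^ 2 ∂(sg d))) ≤
      (∫ r in (0 : ℝ)..R, r ^ (m + 2) * (W r ^ (-t) * ∫ θ, hh' r θ ^ 2 ∂(sg d))) +
      (m + 2) * ∫ r in (0 : ℝ)..R, r ^ m * (W r ^ (-t) * ∫ θ, hh r θ ^ 2 ∂(sg d)) := by
    have b1 : Continuous (Function.uncurry fun (r : ℝ) (θ : sphere (0 : E d) 1) =>
        r ^ (m + 2) * (W r ^ (-t - 1) * hh r θ ^ 2)) :=
      (continuous_fst.pow _).mul ((w2.comp continuous_fst).mul (hhc.pow 2))
    have b2 : Continuous (Function.uncurry fun (r : ℝ) (θ : sphere (0 : E d) 1) =>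
        r ^ (m + 2) * (W r ^ (-t) * hh' r θ ^ 2)) :=
      (continuous_fst.pow _).mul ((w1.comp continuous_fst).mul (hh'c.pow 2))
    have b3 : Continuous (Function.uncurry fun (r : ℝ) (θ : sphere (0 : E d) 1) =>
        r ^ m * (W r ^ (-t) * hh r θ ^ 2)) :=
      (continuous_fst.pow _).mul ((w1.comp continuous_fst).mul (hhc.pow 2))
    have ex : ∀ (a b : ℝ → ℝ) (F : ℝ → sphere (0 : E d) 1 → ℝ),
        ∫ r in (0 : ℝ)..R, a r * (b r * ∫ θ, F r θ ∂(sg d)) =
        ∫ r in (0 : ℝ)..R, ∫ θ, a r * (b r * F r θ) ∂(sg d) := by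
      intro a b F
      refine intervalIntegral.integral_congr fun r _ => ?_
      rw [← integral_const_mul, ← integral_const_mul]
    have cI : ∀ {F : ℝ → sphere (0 : E d) 1 → ℝ}, Continuous (Function.uncurry F) →
        Integrable (fun θ => ∫ r in (0 : ℝ)..R, F r θ) (sg d) := by
      intro F hF
      simp_rw [intervalIntegral.integral_of_le hR0.le]
      exact (prod_integrable hF).integral_prod_right
    rw [ex, ex, ex, swap hR0.le b1, swap hR0.le b2, swap hR0.le b3]
    refine mono3 (2 * t) (m + 2) (cI b1) (cI b2) (cI b3) fun θ => ?_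
    have hf : ∀ r, HasDerivAt (fun r => hh r θ) (hh' r θ) r :=
      fun r => (uf_deriv hu θ r).fun_sub (mnd r)
    have hfc' : Continuous fun r => hh' r θ := Continuous.uncurry_right θ hh'c
    have z : ∀ θ : sphere (0 : E d) 1, u (R • (θ : E d)) = 0 := by
      intro θ
      apply (h0 _ _).1
      rw [norm_smul, norm_sph, mul_one, Real.norm_of_nonneg hR0.le]
    have hfR : hh R θ = 0 := by
      simp only [hhh, mn, z]
      simp
    exact oneB m t R hR0.le (fun r => hh r θ) (fun r => hh' r θ) hf hfc' hfR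
  -- the radial part
  have part2 : lam * (∫ r in (0 : ℝ)..R, r ^ (m + 2) * (W r ^ (-t - 1) * mn u r ^ 2)) ≤
      ∫ r in (0 : ℝ)..R, r ^ (m + 2) * (W r ^ (-t) * mn' u r ^ 2) := by
    refine oneR (m + 2) t q lam R hR0 hlam ?_ ?_ (mn u) (mn' u) mnd mnc' ?_
    · push_cast
      linarith
    · push_cast
      linarith
    · have hG : Continuous fun x : E d => (1 + ‖x‖ ^ 2) ^ (-t - 1) * u x :=
        (weight_cont (-t - 1)).mul hu.continuous
      rw [polarC (by omega) hG hR0.le (fun x hx => by rw [(h0 x hx).1]; simp), hdm'] at hmean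
      have e : ∫ r in (0 : ℝ)..R, r ^ (m + 2) * ∫ θ : sphere (0 : E d) 1,
          (1 + ‖r • (θ : E d)‖ ^ 2) ^ (-t - 1) * u (r • (θ : E d)) ∂(sg d) =
          S * ∫ r in (0 : ℝ)..R, r ^ (m + 2) * (W r ^ (-t - 1) * mn u r) := by
        rw [← intervalIntegral.integral_const_mul]
        refine intervalIntegral.integral_congr fun r _ => ?_
        simp only [norm_ray]
        rw [integral_const_mul, hmn]
        ring
      rw [e] at hmean
      exact (mul_eq_zero.1 hmean).resolve_left hSpos.ne'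
  have pos1 : 0 ≤ ∫ r in (0 : ℝ)..R, r ^ (m + 2) * (W r ^ (-t - 1) *
      ∫ θ, hh r θ ^ 2 ∂(sg d)) := by
    apply intervalIntegral.integral_nonneg hR0.le
    intro r hr
    exact mul_nonneg (pow_nonneg hr.1 _) (mul_nonneg (Wp_pos _ _).le
      (integral_nonneg fun θ => sq_nonneg _))
  have pos2 : 0 ≤ ∫ r in (0 : ℝ)..R, r ^ (m + 2) * (W r ^ (-t - 1) * mn u r ^ 2) := by
    apply intervalIntegral.integral_nonneg hR0.le
    intro r hr
    exact mul_nonneg (pow_nonneg hr.1 _) (mul_nonneg (Wp_pos _ _).le (sq_nonneg _))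
  rw [eM]
  refine le_trans ?_ eN
  have f1 := mul_le_mul_of_nonneg_right hC2 pos1
  have f2 := mul_le_mul_of_nonneg_right hC1 pos2
  have f3 := mul_le_mul_of_nonneg_left (f2.trans part2) hSpos.le
  rw [mul_add, mul_left_comm]
  exact add_le_add (f1.trans part1) f3

end

end Run7.h187.Hy
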