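import Pool.Agent.Run7.h187.HyVal
import Pool.Agent.Run7.h187.HyPolar

/-!
The best constant in the weighted Hardy inequality.
-/

set_option autoImplicit false

open MeasureTheory Set Filter Topology Metric
open scoped ContDiff

namespace Run7.h187.Hy

variable {d : ℕ}

/-! ### coordinate functions -/

lemma coord_abs_le (x : En d) (i : Fin d) : |x i| ≤ wt x := by
  have h1 := coord_sq_le x i
  have h2 := one_le_wt x
  rw [abs_le]
  constructor <;> nlinarith [sq_nonneg (x i - 1), sq_nonneg (x i + 1)]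

/-- the coordinate function as a test function -/
theorem upper_coord (i : Fin d) {t : ℝ} (h : (d : ℝ) / 2 < t) (ht : 0 < t) :
    (admissible d (-t)).Nonempty ∧ bestConst d (-t) ≤ 2 * t := by
  set v : En d → ℝ := fun x => x i with hv
  have hvs : ContDiff ℝ ∞ v := (EuclideanSpace.proj i : En d →L[ℝ] ℝ).contDiff
  have hvd : ∀ x, ‖fderiv ℝ v x‖ ^ 2 ≤ 1 := by
    intro x
    have e : fderiv ℝ v x = (EuclideanSpace.proj i : En d →L[ℝ] ℝ) :=
      (EuclideanSpace.proj i : En d →L[ℝ] ℝ).hasFDerivAt.fderiv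
    rw [e]
    have : ‖(EuclideanSpace.proj i : En d →L[ℝ] ℝ)‖ ≤ 1 := by
      refine ContinuousLinearMap.opNorm_le_bound _ zero_le_one fun y => ?_
      rw [one_mul]
      exact PiLp.norm_apply_le y i
    exact pow_le_one₀ (norm_nonneg _) this
  have hcd : Continuous fun x => ‖fderiv ℝ v x‖ ^ 2 :=
    (hvs.continuous_fderiv (by simp)).norm.pow 2
  have iN : Integrable fun x => wt x ^ (-t) * ‖fderiv ℝ v x‖ ^ 2 := by
    refine (int_wt h).mono' ((wtp_cont _).mul hcd).aestronglyMeasurable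
      (Eventually.of_forall fun x => ?_)
    rw [Real.norm_of_nonneg (mul_nonneg (wtp_pos _ _).le (sq_nonneg _))]
    exact mul_le_of_le_one_right (wtp_pos _ _).le (hvd x)
  have eN : energy (-t) v ≤ II d t := by
    rw [energy_eq]
    refine integral_mono iN (int_wt h) fun x => ?_
    exact mul_le_of_le_one_right (wtp_pos _ _).le (hvd x)
  have iD : Integrable fun x => wt x ^ (-t - 1) * v x ^ 2 := by
    have := int_coord h i
    refine this.congr (Eventually.of_forall fun x => ?_)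
    simp only [hv]
    ring
  have eD : mass (-t) v = II d t / (2 * t) := by
    rw [mass_eq, coord_identity h i]
    have : ∫ x, wt x ^ (-t - 1) * v x ^ 2 = ∫ x : En d, x i ^ 2 * wt x ^ (-t - 1) := by
      congr 1
      funext x
      simp only [hv]
      ring
    rw [this]
    field_simp
  have hI := II_pos h
  have hpos : 0 < mass (-t) v := by rw [eD]; positivity
  have iM : Integrable fun x => wt x ^ (-t - 1) * v x := by
    refine (int_wt h).mono' ((wtp_cont _).mul hvs.continuous).aestronglyMeasurable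
      (Eventually.of_forall fun x => ?_)
    rw [norm_mul, Real.norm_of_nonneg (wtp_pos _ _).le, Real.rpow_sub_one (wt_pos x).ne',
      div_mul_eq_mul_div, div_le_iff₀ (wt_pos x)]
    exact mul_le_mul_of_nonneg_left (coord_abs_le x i) (wtp_pos _ _).le
  have eM : ∫ x, wt x ^ (-t - 1) * v x = 0 := by
    have h1 := integral_neg_eq_self (fun x : En d => wt x ^ (-t - 1) * v x) volume
    have h2 : ∫ x : En d, wt (-x) ^ (-t - 1) * v (-x) = - ∫ x, wt x ^ (-t - 1) * v x := by
      rw [← integral_neg]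
      congr 1
      funext x
      simp only [hv, wt, norm_neg, PiLp.neg_apply]
      ring
    rw [h2] at h1
    linarith
  obtain ⟨h1, h2⟩ := bestConst_le hvs iD iN hpos (fun _ => ⟨iM, eM⟩)
  refine ⟨h1, h2.trans ?_⟩
  rw [div_le_iff₀ hpos, eD]
  calc energy (-t) v ≤ II d t := eN
    _ = 2 * t * (II d t / (2 * t)) := by field_simp

/-! ### powers without constraint -/

theorem upper_pow {α a : ℝ} (hα : -((d : ℝ) - 2) / 2 < α) (h : (d : ℝ) / 2 < 1 - α - 2 * a)
    (h0 : 0 < 1 - α - 2 * a) :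
    (admissible d α).Nonempty ∧ bestConst d α ≤ 2 * a ^ 2 * d / (1 - α - 2 * a) := by
  have hI := II_pos h
  have hpos : 0 < mass α (pf d a 0) := by rw [pf_mass_zero]; exact hI
  obtain ⟨h1, h2⟩ := bestConst_le (pf_smooth a 0) (pf_mass_int h (fun h => absurd rfl h))
    (pf_energy_int 0 h) hpos (fun h => absurd h (not_lt.2 hα.le))
  refine ⟨h1, h2.trans (le_of_eq ?_)⟩
  rw [pf_energy 0 h h0, pf_mass_zero]
  have hb := h0.ne'
  have hI' := hI.ne'
  generalize 1 - α - 2 * a = b at hb hI' ⊢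
  generalize II d b = I at hI' ⊢
  field_simp
  ring

/-- `α` between the critical value and `(n+2)/2` -/
theorem upper_mid {α : ℝ} (hd : 1 ≤ d) (hα : -((d : ℝ) - 2) / 2 < α) :
    (admissible d α).Nonempty ∧ bestConst d α ≤ ((d : ℝ) + 2 * α - 2) ^ 2 / 4 := by
  have hd' : (1 : ℝ) ≤ d := by exact_mod_cast hd
  set κ : ℝ := ((d : ℝ) + 2 * α - 2) / 4 with hκ
  have hκ0 : 0 < κ := by
    rw [hκ]
    linarith
  have key : ∀ s, κ < s → (admissible d α).Nonempty ∧ bestConst d α ≤ 4 * s ^ 2 := by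
    intro s hs
    have e1 : (d : ℝ) / 2 < 1 - α - 2 * (-s) := by
      rw [hκ] at hs
      linarith
    have e0 : 0 < 1 - α - 2 * (-s) := by
      refine lt_trans ?_ e1
      positivity
    obtain ⟨h1, h2⟩ := upper_pow hα e1 e0
    refine ⟨h1, h2.trans ?_⟩
    rw [div_le_iff₀ e0, neg_sq]
    have := sq_nonneg s
    nlinarith
  refine ⟨(key (κ + 1) (by linarith)).1, ?_⟩
  have e : ((d : ℝ) + 2 * α - 2) ^ 2 / 4 = 4 * κ ^ 2 := by rw [hκ]; ring
  rw [e]
  have hlim : Tendsto (fun s : ℝ => 4 * s ^ 2) (𝓝[>] κ) (𝓝 (4 * κ ^ 2)) := by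
    have : Continuous fun s : ℝ => 4 * s ^ 2 := by fun_prop
    exact (this.tendsto κ).mono_left nhdsWithin_le_nhds
  refine ge_of_tendsto hlim ?_
  filter_upwards [self_mem_nhdsWithin] with s hs
  exact (key s hs).2

/-- `α` above `(n+2)/2` -/
theorem upper_high {α : ℝ} (hd : 1 ≤ d) (hα : ((d : ℝ) + 2) / 2 < α) :
    (admissible d α).Nonempty ∧ bestConst d α ≤ 2 * d * (α - 1) := by
  have hd' : (1 : ℝ) ≤ d := by exact_mod_cast hd
  have e1 : (d : ℝ) / 2 < 1 - α - 2 * (1 - α) := by linarith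
  have e0 : 0 < 1 - α - 2 * (1 - α) := by linarith
  obtain ⟨h1, h2⟩ := upper_pow (d := d) (by linarith) e1 e0
  refine ⟨h1, h2.trans (le_of_eq ?_)⟩
  have e3 : 1 - α - 2 * (1 - α) = α - 1 := by ring
  have e4 : α - 1 ≠ 0 := by
    rw [e3] at e0
    exact e0.ne'
  rw [e3]
  field_simp
  ring

/-! ### the constrained case -/

/-- `-(n+2)/2 > α`: the function `1 + |x|² - c` -/
theorem upper_quad {t : ℝ} (hd : 1 ≤ d) (ht : ((d : ℝ) + 2) / 2 < t) :
    (admissible d (-t)).Nonempty ∧ bestConst d (-t) ≤ 4 * t - 2 * d := by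
  have hd' : (1 : ℝ) ≤ d := by exact_mod_cast hd
  have a1 : 1 - (-t) - 2 * (1 : ℝ) = t - 1 := by ring
  have a2 : 1 - (-t) - (1 : ℝ) = t := by ring
  have a3 : 1 - (-t) = t + 1 := by ring
  have b1 : (d : ℝ) / 2 < 1 - (-t) - 2 * (1 : ℝ) := by linarith
  have b3 : (d : ℝ) / 2 < 1 - (-t) := by linarith
  have b0 : 0 < 1 - (-t) - 2 * (1 : ℝ) := by linarith
  have hX := II_pos (d := d) (β := t - 1) (by linarith)
  have r1 := II_succ (d := d) (β := t - 1) (by linarith) (by linarith)
  have r2 := II_succ (d := d) (β := t) (by linarith) (by linarith)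
  rw [sub_add_cancel] at r1
  have n1 : 2 * (t - 1) ≠ 0 := by linarith
  have n2 : 2 * t ≠ 0 := by linarith
  have n3 : 2 * t - d ≠ 0 := by linarith
  have n4 : t ≠ 0 := by linarith
  have n5 : t - 1 ≠ 0 := by linarith
  have q1 : II d t = (2 * t - 2 - d) / (2 * (t - 1)) * II d (t - 1) := by
    have : II d t = II d (t - 1) - d / (2 * (t - 1)) * II d (t - 1) := by linarith
    rw [this]
    field_simp
    try ring
  have q2 : II d (t + 1) = (2 * t - d) / (2 * t) * II d t := by
    have : II d (t + 1) = II d t - d / (2 * t) * II d t := by linarith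
    rw [this]
    field_simp
    try ring
  set c : ℝ := 2 * t / (2 * t - d) with hc
  have m1 : mass (-t) (pf d 1 c) = 2 * d / ((2 * t - d) * (2 * (t - 1))) * II d (t - 1) := by
    rw [pf_mass c b1 b3, a1, a2, a3, q2, q1, hc]
    obtain ⟨p, hp⟩ : ∃ p : ℝ, p = 2 * t - d := ⟨_, rfl⟩
    have hD : (d : ℝ) = 2 * t - p := by linarith
    have hp0 : p ≠ 0 := by rw [hp]; exact n3
    rw [← hp, hD]
    generalize II d (t - 1) = I
    field_simp
    ring
  have hpos : 0 < mass (-t) (pf d 1 c) := by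
    rw [m1]
    have : 0 < 2 * t - d := by linarith
    have : 0 < 2 * (t - 1) := by linarith
    positivity
  have hm := pf_mean (d := d) c b1 b3
  have hm0 : ∫ x : En d, wt x ^ (-t - 1) * pf d 1 c x = 0 := by
    rw [hm.2, a2, a3, q2, hc]
    generalize II d t = I
    have : 2 * t / (2 * t - (d : ℝ)) * ((2 * t - d) / (2 * t) * I) = I := by
      rw [← mul_assoc, div_mul_div_comm, mul_comm (2 * t) (2 * t - (d : ℝ)),
        div_self (mul_ne_zero n3 n2), one_mul]
    rw [this, sub_self]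
  obtain ⟨h1, h2⟩ := bestConst_le (pf_smooth 1 c) (pf_mass_int b1 (fun _ => b3))
    (pf_energy_int c b1) hpos (fun _ => ⟨hm.1, hm0⟩)
  refine ⟨h1, h2.trans (le_of_eq ?_)⟩
  rw [m1, pf_energy c b1 b0, a1]
  have hX' := hX.ne'
  have hd0 : (d : ℝ) ≠ 0 := by positivity
  generalize II d (t - 1) = I at hX' ⊢
  generalize (d : ℝ) = D at n3 hd0 ⊢
  obtain ⟨p, hp⟩ : ∃ p : ℝ, p = 2 * t - D := ⟨_, rfl⟩
  have hD : 4 * t - 2 * D = 2 * p := by linarith
  rw [hD, ← hp]
  rw [← hp] at n3
  field_simp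
  ring

/-- constrained case, `α ≥ -(n+2)/2`: the functions `(1+|x|²)^s - c` -/
theorem upper_low {t : ℝ} (hd : 2 ≤ d) (ht : ((d : ℝ) - 2) / 2 < t) :
    (admissible d (-t)).Nonempty ∧ bestConst d (-t) ≤ (2 * t + 2 - d) ^ 2 / 4 := by
  have hd' : (2 : ℝ) ≤ d := by exact_mod_cast hd
  set σ : ℝ := (2 * t + 2 - d) / 4 with hσ
  have hσ0 : 0 < σ := by rw [hσ]; linarith
  have b3 : (d : ℝ) / 2 < 1 - (-t) := by linarith
  have hY := II_pos (d := d) (β := t + 1) (by linarith)
  set Z : ℝ := II d (t + 1 - σ) with hZ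
  have hZ0 : 0 < Z := II_pos (by rw [hσ]; linarith)
  set A : ℝ := Z ^ 2 / II d (t + 1) with hA
  have hA0 : 0 < A := by positivity
  set J : ℝ := d * II d ((d : ℝ) / 2 + 2) with hJ
  have hJ0 : 0 < J := by
    have := II_pos (d := d) (β := (d : ℝ) / 2 + 2) (by linarith)
    positivity
  -- the main estimate
  have key : ∀ s, 0 < s → s < σ → σ - s ≤ 1 / 2 → 4 * (σ - s) * (A + 1) ≤ J →
      (admissible d (-t)).Nonempty ∧
      bestConst d (-t) * (II d (t + 1 - 2 * s) - A) ≤ 4 * σ ^ 2 * II d (t + 1 - 2 * s) ∧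
      J ≤ 4 * (σ - s) * II d (t + 1 - 2 * s) := by
    intro s hs hsσ hs2 hsA
    have hσ' : 4 * σ = 2 * t + 2 - d := by rw [hσ]; ring
    have a1 : 1 - (-t) - 2 * s = t + 1 - 2 * s := by ring
    have a2 : 1 - (-t) - s = t + 1 - s := by ring
    have a3 : 1 - (-t) = t + 1 := by ring
    have b1 : (d : ℝ) / 2 < 1 - (-t) - 2 * s := by linarith
    have b0 : 0 < 1 - (-t) - 2 * s := by linarith
    set X : ℝ := II d (t + 1 - 2 * s) with hX
    have hX0 : 0 < X := II_pos (by linarith)
    have hXJ : J ≤ 4 * (σ - s) * X := by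
      have r := II_succ (d := d) (β := t + 1 - 2 * s) (by linarith) (by linarith)
      have r2 := II_anti (d := d) (β := t + 1 - 2 * s + 1) (γ := (d : ℝ) / 2 + 2) (by linarith)
        (by linarith)
      have n0 : (0 : ℝ) < 2 * (t + 1 - 2 * s) := by linarith
      have r3 : 2 * (t + 1 - 2 * s) * II d (t + 1 - 2 * s + 1) =
          (2 * (t + 1 - 2 * s) - d) * X := by
        have : II d (t + 1 - 2 * s + 1) = X - d / (2 * (t + 1 - 2 * s)) * X := by linarith
        rw [this]
        have n0' := n0.ne'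
        generalize 2 * (t + 1 - 2 * s) = b at n0' ⊢
        field_simp
      have e5 : 2 * (t + 1 - 2 * s) - d = 4 * (σ - s) := by linarith
      rw [← e5, ← r3, hJ]
      have hp := II_pos (d := d) (β := (d : ℝ) / 2 + 2) (by linarith)
      have hle : (d : ℝ) ≤ 2 * (t + 1 - 2 * s) := by linarith
      exact mul_le_mul hle r2 hp.le (by linarith)
    have hXA : A < X := by
      have h4 : 0 < 4 * (σ - s) := by linarith
      by_contra hcon
      rw [not_lt] at hcon
      have : 4 * (σ - s) * X ≤ 4 * (σ - s) * A := mul_le_mul_of_nonneg_left hcon h4.le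
      nlinarith
    set Ys : ℝ := II d (t + 1 - s) with hYs
    have hYs0 : 0 < Ys := II_pos (by linarith)
    have hYZ : Ys ≤ Z := II_anti (by linarith) (by linarith)
    set c : ℝ := Ys / II d (t + 1) with hc
    have m1 : mass (-t) (pf d s c) = X - Ys ^ 2 / II d (t + 1) := by
      rw [pf_mass c b1 b3, a1, a2, a3, hc]
      field_simp
      ring
    have m2 : X - A ≤ mass (-t) (pf d s c) := by
      rw [m1, hA]
      have : Ys ^ 2 ≤ Z ^ 2 := pow_le_pow_left₀ hYs0.le hYZ 2
      have : Ys ^ 2 / II d (t + 1) ≤ Z ^ 2 / II d (t + 1) := by gcongr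
      linarith
    have hpos : 0 < mass (-t) (pf d s c) := by linarith
    have hm := pf_mean (d := d) c b1 b3
    have hm0 : ∫ x : En d, wt x ^ (-t - 1) * pf d s c x = 0 := by
      rw [hm.2, a2, a3, hc]
      field_simp
      ring
    obtain ⟨h1, h2⟩ := bestConst_le (pf_smooth s c) (pf_mass_int b1 (fun _ => b3))
      (pf_energy_int c b1) hpos (fun _ => ⟨hm.1, hm0⟩)
    refine ⟨h1, ?_, hXJ⟩
    have hen : energy (-t) (pf d s c) ≤ 4 * σ ^ 2 * X := by
      rw [pf_energy c b1 b0, a1]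
      have n0 : (0 : ℝ) < 2 * (t + 1 - 2 * s) := by linarith
      have : (d : ℝ) / (2 * (t + 1 - 2 * s)) ≤ 1 := by
        rw [div_le_one n0]
        linarith
      have hs3 : s ^ 2 ≤ σ ^ 2 := pow_le_pow_left₀ hs.le hsσ.le 2
      calc 4 * s ^ 2 * (d / (2 * (t + 1 - 2 * s)) * II d (t + 1 - 2 * s))
          ≤ 4 * s ^ 2 * (1 * II d (t + 1 - 2 * s)) := by gcongr
        _ ≤ 4 * σ ^ 2 * X := by rw [one_mul]; gcongr
    have hB0 : 0 ≤ bestConst d (-t) := by
      refine Real.sInf_nonneg ?_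
      rintro _ ⟨u, _, rfl⟩
      refine div_nonneg (integral_nonneg fun x => ?_) (integral_nonneg fun x => ?_)
      · exact mul_nonneg (wtp_pos (-t) x).le (sq_nonneg _)
      · exact mul_nonneg (wtp_pos (-t - 1) x).le (sq_nonneg _)
    rw [le_div_iff₀ hpos] at h2
    calc bestConst d (-t) * (X - A) ≤ bestConst d (-t) * mass (-t) (pf d s c) := by gcongr
      _ ≤ _ := h2
      _ ≤ _ := hen
  have e : (2 * t + 2 - (d : ℝ)) ^ 2 / 4 = 4 * σ ^ 2 := by rw [hσ]; ring
  rw [e]
  -- choice of `s`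
  have choice : ∀ M : ℝ, 0 < M → ∃ s, 0 < s ∧ s < σ ∧ σ - s ≤ 1 / 2 ∧ 4 * (σ - s) * M ≤ J := by
    intro M hM
    set δ : ℝ := min (σ / 2) (min (1 / 2) (J / (4 * M))) with hδ
    have hδ0 : 0 < δ := by
      rw [hδ]
      positivity
    have h1 : δ ≤ σ / 2 := min_le_left _ _
    have h2 : δ ≤ 1 / 2 := (min_le_right _ _).trans (min_le_left _ _)
    have h3 : δ ≤ J / (4 * M) := (min_le_right _ _).trans (min_le_right _ _)
    refine ⟨σ - δ, by linarith, by linarith, by linarith, ?_⟩
    rw [le_div_iff₀ (by positivity)] at h3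
    linarith
  obtain ⟨s0, c1, c2, c3, c4⟩ := choice (A + 1) (by linarith)
  refine ⟨(key s0 c1 c2 c3 c4).1, ?_⟩
  by_contra hcon
  rw [not_le] at hcon
  set B : ℝ := bestConst d (-t) with hB
  set L : ℝ := B * A / (B - 4 * σ ^ 2) with hL
  have hden : 0 < B - 4 * σ ^ 2 := by linarith
  have hBpos : 0 < B := by
    have := sq_nonneg σ
    linarith
  have hL0 : 0 < L := by positivity
  obtain ⟨s, c1, c2, c3, c4⟩ := choice (A + 1 + (L + 1)) (by linarith)
  have h4 : 0 < 4 * (σ - s) := by linarith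
  have c5 : 4 * (σ - s) * (A + 1) ≤ J := by nlinarith
  obtain ⟨_, k2, k3⟩ := key s c1 c2 c3 c5
  set X : ℝ := II d (t + 1 - 2 * s) with hX
  have hXL : X ≤ L := by
    rw [hL, le_div_iff₀ hden]
    linarith
  have : 4 * (σ - s) * X ≤ 4 * (σ - s) * L := mul_le_mul_of_nonneg_left hXL h4.le
  nlinarith

/-! ### the theorem -/

theorem bestConst_eq (n : ℕ) (hn : 3 ≤ n) (α : ℝ) (hα : α ≠ -((n : ℝ) - 2) / 2) :
    (admissible n α).Nonempty ∧
    bestConst n α = if α < -n then -2 * α
      else if α < -((n : ℝ) + 2) / 2 then -4 * α - 2 * n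
      else if α ≤ ((n : ℝ) + 2) / 2 then ((n : ℝ) + 2 * α - 2) ^ 2 / 4
      else 2 * n * (α - 1) := by
  have hn' : (3 : ℝ) ≤ n := by exact_mod_cast hn
  obtain ⟨m, rfl⟩ : ∃ m, n = m + 3 := ⟨n - 3, by omega⟩
  set N : ℝ := ((m + 3 : ℕ) : ℝ) with hN
  rcases lt_or_gt_of_ne hα with hlt | hgt
  · -- constrained
    obtain ⟨t, rfl⟩ : ∃ t, α = -t := ⟨-α, by ring⟩
    have low : ∀ q lam C : ℝ, 0 ≤ lam → C ≤ lam → C ≤ 2 * t →
        lam ≤ 2 * q * (N + 2) - 2 * N * (t + 1) →
        lam ≤ 2 * q * (N + 2) - 2 * N * (t + 1) + 4 * q * (t - q) →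
        (admissible (m + 3) (-t)).Nonempty → C ≤ bestConst (m + 3) (-t) := by
      intro q lam C h1 h2 h3 h4 h5 hne
      refine le_bestConst hne fun u hu => ?_
      exact lowerB m rfl t q lam C h1 h2 h3 h4 h5 (hu.2.1.of_le (by simp)) hu.2.2.1
        (hu.2.2.2 hlt)
    by_cases h1 : -t < -N
    · have up := upper_coord (d := m + 3) ⟨0, by omega⟩ (t := t) (by linarith) (by linarith)
      refine ⟨up.1, ?_⟩
      rw [if_pos h1]
      refine le_antisymm (up.2.trans (by linarith)) ?_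
      have := low t (4 * t - 2 * N) (2 * t) (by linarith) (by linarith) le_rfl (by linarith)
        (by linarith) up.1
      linarith
    · by_cases h2 : -t < -(N + 2) / 2
      · have up := upper_quad (d := m + 3) (t := t) (by omega) (by linarith)
        refine ⟨up.1, ?_⟩
        rw [if_neg h1, if_pos h2]
        refine le_antisymm (up.2.trans (by linarith)) ?_
        have := low t (4 * t - 2 * N) (4 * t - 2 * N) (by linarith) le_rfl (by linarith)
          (by linarith) (by linarith) up.1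
        linarith
      · have up := upper_low (d := m + 3) (t := t) (by omega) (by linarith)
        refine ⟨up.1, ?_⟩
        rw [if_neg h1, if_neg h2, if_pos (by linarith)]
        refine le_antisymm (up.2.trans (le_of_eq (by ring))) ?_
        have h3 : t ≤ (N + 2) / 2 := by linarith
        have h4 : (N - 2) / 2 < t := by linarith
        have := low ((2 * t + 2 + N) / 4) ((2 * t + 2 - N) ^ 2 / 4) ((2 * t + 2 - N) ^ 2 / 4)
          (by positivity) le_rfl (by nlinarith) (by nlinarith) (by nlinarith) up.1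
        refine le_trans (le_of_eq (by ring)) this
  · -- unconstrained
    have low : ∀ κ C : ℝ, C ≤ 2 * κ * N → C ≤ 2 * κ * N + 4 * κ * (α - 1 - κ) →
        (admissible (m + 3) α).Nonempty → C ≤ bestConst (m + 3) α := by
      intro κ C h1 h2 hne
      refine le_bestConst hne fun u hu => ?_
      exact lowerA (m + 2) rfl α κ C h1 h2 (hu.2.1.of_le (by simp)) hu.2.2.1
    rw [if_neg (by linarith), if_neg (by linarith)]
    by_cases h3 : α ≤ (N + 2) / 2
    · have up := upper_mid (d := m + 3) (α := α) (by omega) hgt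
      refine ⟨up.1, ?_⟩
      rw [if_pos h3]
      refine le_antisymm up.2 ?_
      refine low ((N + 2 * α - 2) / 4) _ ?_ (le_of_eq (by ring)) up.1
      nlinarith
    · have up := upper_high (d := m + 3) (α := α) (by omega) (not_le.1 h3)
      refine ⟨up.1, ?_⟩
      rw [if_neg h3]
      refine le_antisymm up.2 ?_
      exact low (α - 1) _ (le_of_eq (by ring)) (le_of_eq (by ring)) up.1

end Run7.h187.Hy
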