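import Mathlib

/-!
Truncated polynomials in `y₀, y₁, y₂, z₁, z₂` as nested lists, and the kernel computation used for
Shang's equations.
-/

set_option autoImplicit false

namespace Run7.h187.Sh

/-! ### the computation -/

/-- add lists entrywise -/
def addL {α : Type} (add : α → α → α) : List α → List α → List α
  | [], l => l
  | a :: l, [] => a :: l
  | a :: l, b :: l' => add a b :: addL add l l'

def add1 : List ℤ → List ℤ → List ℤ := addL (fun a b => a + b)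
def add2 : List (List ℤ) → List (List ℤ) → List (List ℤ) := addL add1
def add3 : List (List (List ℤ)) → List (List (List ℤ)) → List (List (List ℤ)) := addL add2
def add4 : List (List (List (List ℤ))) → List (List (List (List ℤ))) →
    List (List (List (List ℤ))) := addL add3
def add5 : List (List (List (List (List ℤ)))) → List (List (List (List (List ℤ)))) →
    List (List (List (List (List ℤ)))) := addL add4

def sc1 (c : ℤ) (l : List ℤ) : List ℤ := l.map (fun a => c * a)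
def sc2 (c : ℤ) (l : List (List ℤ)) : List (List ℤ) := l.map (sc1 c)
def sc3 (c : ℤ) (l : List (List (List ℤ))) : List (List (List ℤ)) := l.map (sc2 c)
def sc4 (c : ℤ) (l : List (List (List (List ℤ)))) : List (List (List (List ℤ))) :=
  l.map (sc3 c)
def sc5 (c : ℤ) (l : List (List (List (List (List ℤ))))) :
    List (List (List (List (List ℤ)))) := l.map (sc4 c)

/-- put `n` zeros in front -/
def pre {α : Type} (e : α) (n : ℕ) (l : List α) : List α :=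
  match l with
  | [] => []
  | a :: l => List.replicate n e ++ a :: l

def sh1 (b : ℕ) (l : List ℤ) : List ℤ := pre 0 b l
def sh2 (a b : ℕ) (l : List (List ℤ)) : List (List ℤ) := pre [] a (l.map (sh1 b))
def sh3 (m a b : ℕ) (l : List (List (List ℤ))) : List (List (List ℤ)) :=
  (pre [] m (l.map (sh2 a b))).take 2
def sh4 (j m a b : ℕ) (l : List (List (List (List ℤ)))) : List (List (List (List ℤ))) :=
  (pre [] j (l.map (sh3 m a b))).take 4
def sh5 (i j m a b : ℕ) (l : List (List (List (List (List ℤ))))) :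
    List (List (List (List (List ℤ)))) :=
  (pre [] i (l.map (sh4 j m a b))).take 4

abbrev D5 := List (List (List (List (List ℤ))))

/-- multiplication with `(1 - t)^n`, `t = y₀^i y₁^j y₂^m z₁^a z₂^b`, when `t^4 = 0` -/
def step (i j m a b n : ℕ) (d : D5) : D5 :=
  let s1 := sh5 i j m a b d
  let s2 := sh5 i j m a b s1
  let s3 := sh5 i j m a b s2
  add5 (add5 d (sc5 (-(n : ℤ)) s1))
    (add5 (sc5 (Nat.choose n 2 : ℤ) s2) (sc5 (-(Nat.choose n 3 : ℤ)) s3))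

/-- the eight weights of the adjoint module and the trivial module -/
def block (i j m : ℕ) (A B : ℕ) (d : D5) : D5 :=
  let n := i + j + m
  let d := step i j m (n+1) n A d
  let d := step i j m n (n+1) A d
  let d := step i j m (n+1) (n+1) A d
  let d := step i j m (n-1) n A d
  let d := step i j m n (n-1) A d
  let d := step i j m (n-1) (n-1) A d
  step i j m n n (2 * A + B) d

/-- the values `(i, j, m, a, b)` -/
def tab : List (ℕ × ℕ × ℕ × ℕ × ℕ) :=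
  [(3, 3, 1, 152, 136), (2, 3, 1, 68, 58), (3, 2, 1, 68, 58), (3, 3, 0, 20, 16),
   (1, 3, 1, 23, 18), (2, 2, 1, 35, 28), (2, 3, 0, 10, 8), (3, 1, 1, 23, 18),
   (3, 2, 0, 10, 8), (0, 3, 1, 4, 3), (1, 2, 1, 14, 10), (1, 3, 0, 4, 3),
   (2, 1, 1, 14, 10), (2, 2, 0, 6, 4), (3, 0, 1, 4, 3), (3, 1, 0, 4, 3),
   (0, 2, 1, 3, 2), (0, 3, 0, 1, 0), (1, 1, 1, 7, 4), (1, 2, 0, 3, 2),
   (2, 0, 1, 3, 2), (2, 1, 0, 3, 2), (3, 0, 0, 1, 0), (0, 1, 1, 2, 1),
   (0, 2, 0, 1, 0), (1, 0, 1, 2, 1), (1, 1, 0, 2, 1), (2, 0, 0, 1, 0),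
   (0, 0, 1, 1, 0), (0, 1, 0, 1, 0), (1, 0, 0, 1, 0)]

def run (d : D5) : List (ℕ × ℕ × ℕ × ℕ × ℕ) → D5
  | [] => d
  | (i, j, m, A, B) :: l => run (block i j m A B d) l

def final : D5 := run [[[[[1]]]]] tab

def ent (d : D5) (i j m a b : ℕ) : ℤ :=
  (((((d.getD i []).getD j []).getD m []).getD a []).getD b 0)

/-- `∑_{α} ± ent` at a given place -/
def mm (d : D5) (i j m n : ℕ) : ℤ :=
  ent d i j m n n - ent d i j m (n+1) n - ent d i j m n (n+1) + ent d i j m (n+2) (n+1)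
   + ent d i j m (n+1) (n+2) - ent d i j m (n+2) (n+2)

def check (d : D5) : Bool :=
  (List.range 4).all fun i => (List.range 4).all fun j => (List.range 2).all fun m =>
    (mm d i j m (i + j + m) == if i + j + m = 0 then 1 else 0) &&
    (mm d i j m (i + j + m + 1) == if i + j + m = 1 then -1 else 0)

set_option maxRecDepth 1000000 in
theorem check_final : check final = true := by decide +kernel

/-! ### its meaning -/

section Sem

variable {R : Type*} [CommRing R]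

/-- Horner evaluation -/
def hn {α : Type} (f : α → R) (y : R) : List α → R
  | [] => 0
  | a :: l => f a + y * hn f y l

theorem hn_addL {α : Type} (f : α → R) (y : R) (add : α → α → α)
    (h : ∀ a b, f (add a b) = f a + f b) :
    ∀ l l' : List α, hn f y (addL add l l') = hn f y l + hn f y l'
  | [], l => by simp [addL, hn]
  | a :: l, [] => by simp [addL, hn]
  | a :: l, b :: l' => by
      simp only [addL, hn, h, hn_addL f y add h l l']
      ring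

theorem hn_map {α β : Type} (f : α → R) (f' : β → R) (y c : R) (g : β → α)
    (h : ∀ a, f (g a) = c * f' a) : ∀ l : List β, hn f y (l.map g) = c * hn f' y l
  | [] => by simp [hn]
  | a :: l => by
      simp only [List.map_cons, hn, h, hn_map f f' y c g h l]
      ring

theorem hn_replicate {α : Type} (f : α → R) (y : R) (e : α) (he : f e = 0) (l : List α) :
    ∀ n : ℕ, hn f y (List.replicate n e ++ l) = y ^ n * hn f y l
  | 0 => by simp
  | n + 1 => by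
      simp only [List.replicate_succ, List.cons_append, hn, he,
        hn_replicate f y e he l n]
      ring

theorem hn_pre {α : Type} (f : α → R) (y : R) (e : α) (he : f e = 0) (n : ℕ) (l : List α) :
    hn f y (pre e n l) = y ^ n * hn f y l := by
  cases l with
  | nil => simp [pre, hn]
  | cons a l => simp only [pre]; exact hn_replicate f y e he _ n

theorem hn_take {α : Type} (f : α → R) (y : R) :
    ∀ (n : ℕ) (l : List α), hn f y l = hn f y (l.take n) + y ^ n * hn f y (l.drop n)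
  | 0, l => by simp [hn]
  | n + 1, [] => by simp [hn]
  | n + 1, a :: l => by
      simp only [List.take_succ_cons, List.drop_succ_cons, hn]
      rw [hn_take f y n l]
      ring

theorem hn_take' {α : Type} (f : α → R) (y : R) (n : ℕ) (hy : y ^ n = 0) (l : List α) :
    hn f y (l.take n) = hn f y l := by
  rw [hn_take f y n l, hy, zero_mul, add_zero]

def ev1 (z2 : R) (l : List ℤ) : R := hn (fun c : ℤ => (c : R)) z2 l
def ev2 (z1 z2 : R) (l : List (List ℤ)) : R := hn (ev1 z2) z1 l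
def ev3 (y2 z1 z2 : R) (l : List (List (List ℤ))) : R := hn (ev2 z1 z2) y2 l
def ev4 (y1 y2 z1 z2 : R) (l : List (List (List (List ℤ)))) : R := hn (ev3 y2 z1 z2) y1 l
def ev5 (y0 y1 y2 z1 z2 : R) (l : D5) : R := hn (ev4 y1 y2 z1 z2) y0 l

variable (y0 y1 y2 z1 z2 : R)

theorem ev1_add (l l' : List ℤ) : ev1 z2 (add1 l l') = ev1 z2 l + ev1 z2 l' :=
  hn_addL _ _ _ (fun a b => by push_cast; rfl) l l'
theorem ev2_add (l l') : ev2 z1 z2 (add2 l l') = ev2 z1 z2 l + ev2 z1 z2 l' :=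
  hn_addL _ _ _ (ev1_add z2) l l'
theorem ev3_add (l l') : ev3 y2 z1 z2 (add3 l l') = ev3 y2 z1 z2 l + ev3 y2 z1 z2 l' :=
  hn_addL _ _ _ (ev2_add z1 z2) l l'
theorem ev4_add (l l') : ev4 y1 y2 z1 z2 (add4 l l') = ev4 y1 y2 z1 z2 l + ev4 y1 y2 z1 z2 l' :=
  hn_addL _ _ _ (ev3_add y2 z1 z2) l l'
theorem ev5_add (l l') :
    ev5 y0 y1 y2 z1 z2 (add5 l l') = ev5 y0 y1 y2 z1 z2 l + ev5 y0 y1 y2 z1 z2 l' :=
  hn_addL _ _ _ (ev4_add y1 y2 z1 z2) l l'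

theorem ev1_sc (c : ℤ) (l : List ℤ) : ev1 z2 (sc1 c l) = (c : R) * ev1 z2 l :=
  hn_map _ _ _ _ _ (fun a => by push_cast; rfl) l
theorem ev2_sc (c : ℤ) (l) : ev2 z1 z2 (sc2 c l) = (c : R) * ev2 z1 z2 l :=
  hn_map _ _ _ _ _ (ev1_sc z2 c) l
theorem ev3_sc (c : ℤ) (l) : ev3 y2 z1 z2 (sc3 c l) = (c : R) * ev3 y2 z1 z2 l :=
  hn_map _ _ _ _ _ (ev2_sc z1 z2 c) l
theorem ev4_sc (c : ℤ) (l) : ev4 y1 y2 z1 z2 (sc4 c l) = (c : R) * ev4 y1 y2 z1 z2 l :=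
  hn_map _ _ _ _ _ (ev3_sc y2 z1 z2 c) l
theorem ev5_sc (c : ℤ) (l) : ev5 y0 y1 y2 z1 z2 (sc5 c l) = (c : R) * ev5 y0 y1 y2 z1 z2 l :=
  hn_map _ _ _ _ _ (ev4_sc y1 y2 z1 z2 c) l

theorem ev1_sh (b : ℕ) (l : List ℤ) : ev1 z2 (sh1 b l) = z2 ^ b * ev1 z2 l :=
  hn_pre _ _ _ (by simp) b l
theorem ev2_sh (a b : ℕ) (l) : ev2 z1 z2 (sh2 a b l) = (z1 ^ a * z2 ^ b) * ev2 z1 z2 l := by
  rw [ev2, sh2, hn_pre _ _ _ (by simp [ev1, hn]), hn_map _ (ev1 z2) z1 (z2 ^ b) (sh1 b) (ev1_sh z2 b), ev2]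
  ring
theorem ev3_sh (h2 : y2 ^ 2 = 0) (m a b : ℕ) (l) :
    ev3 y2 z1 z2 (sh3 m a b l) = (y2 ^ m * (z1 ^ a * z2 ^ b)) * ev3 y2 z1 z2 l := by
  rw [ev3, sh3, hn_take' _ _ _ h2, hn_pre _ _ _ (by simp [ev2, hn]),
    hn_map _ (ev2 z1 z2) y2 (z1 ^ a * z2 ^ b) (sh2 a b) (ev2_sh z1 z2 a b), ev3]
  ring
theorem ev4_sh (h1 : y1 ^ 4 = 0) (h2 : y2 ^ 2 = 0) (j m a b : ℕ) (l) :
    ev4 y1 y2 z1 z2 (sh4 j m a b l) =
      (y1 ^ j * (y2 ^ m * (z1 ^ a * z2 ^ b))) * ev4 y1 y2 z1 z2 l := by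
  rw [ev4, sh4, hn_take' _ _ _ h1, hn_pre _ _ _ (by simp [ev3, hn]),
    hn_map _ (ev3 y2 z1 z2) y1 (y2 ^ m * (z1 ^ a * z2 ^ b)) (sh3 m a b)
      (ev3_sh y2 z1 z2 h2 m a b), ev4]
  ring
theorem ev5_sh (h0 : y0 ^ 4 = 0) (h1 : y1 ^ 4 = 0) (h2 : y2 ^ 2 = 0) (i j m a b : ℕ) (l) :
    ev5 y0 y1 y2 z1 z2 (sh5 i j m a b l) =
      (y0 ^ i * (y1 ^ j * (y2 ^ m * (z1 ^ a * z2 ^ b)))) * ev5 y0 y1 y2 z1 z2 l := by
  rw [ev5, sh5, hn_take' _ _ _ h0, hn_pre _ _ _ (by simp [ev4, hn]),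
    hn_map _ (ev4 y1 y2 z1 z2) y0 (y1 ^ j * (y2 ^ m * (z1 ^ a * z2 ^ b))) (sh4 j m a b)
      (ev4_sh y1 y2 z1 z2 h1 h2 j m a b), ev5]
  ring

theorem one_sub_pow_trunc (t : R) (ht : t ^ 4 = 0) (n : ℕ) :
    (1 - t) ^ n = 1 + (((-(n : ℤ) : ℤ)) : R) * t + ((Nat.choose n 2 : ℤ) : R) * t ^ 2
      + ((-(Nat.choose n 3 : ℤ) : ℤ) : R) * t ^ 3 := by
  induction n with
  | zero => simp
  | succ n ih =>
      rw [pow_succ, ih, Nat.choose_succ_succ' n 1, Nat.choose_succ_succ' n 2, Nat.choose_one_right]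
      push_cast
      linear_combination ((Nat.choose n 3 : ℕ) : R) * ht

/-- the monomial -/
def mono (y0 y1 y2 z1 z2 : R) (i j m a b : ℕ) : R :=
  y0 ^ i * (y1 ^ j * (y2 ^ m * (z1 ^ a * z2 ^ b)))

theorem mono_pow_four (h0 : y0 ^ 4 = 0) (h1 : y1 ^ 4 = 0) (h2 : y2 ^ 2 = 0) (i j m a b : ℕ)
    (hp : 0 < i + j + m) : mono y0 y1 y2 z1 z2 i j m a b ^ 4 = 0 := by
  rcases Nat.eq_zero_or_pos i with hi | hi
  · rcases Nat.eq_zero_or_pos j with hj | hj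
    · have hm : 0 < m := by omega
      obtain ⟨m', rfl⟩ := Nat.exists_eq_add_of_lt hm
      have : mono y0 y1 y2 z1 z2 i j (0 + m' + 1) a b ^ 4 =
        (y0 ^ i * (y1 ^ j * (y2 ^ m' * (z1 ^ a * z2 ^ b)))) ^ 4 * y2 ^ 2 * y2 ^ 2 := by
        unfold mono; ring
      rw [this, h2, mul_zero]
    · obtain ⟨j', rfl⟩ := Nat.exists_eq_add_of_lt hj
      have : mono y0 y1 y2 z1 z2 i (0 + j' + 1) m a b ^ 4 =
        (y0 ^ i * (y1 ^ j' * (y2 ^ m * (z1 ^ a * z2 ^ b)))) ^ 4 * y1 ^ 4 := by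
        unfold mono; ring
      rw [this, h1, mul_zero]
  · obtain ⟨i', rfl⟩ := Nat.exists_eq_add_of_lt hi
    have : mono y0 y1 y2 z1 z2 (0 + i' + 1) j m a b ^ 4 =
        (y0 ^ i' * (y1 ^ j * (y2 ^ m * (z1 ^ a * z2 ^ b)))) ^ 4 * y0 ^ 4 := by
      unfold mono; ring
    rw [this, h0, mul_zero]

theorem ev5_step (h0 : y0 ^ 4 = 0) (h1 : y1 ^ 4 = 0) (h2 : y2 ^ 2 = 0) (i j m a b n : ℕ)
    (hp : 0 < i + j + m) (d : D5) :
    ev5 y0 y1 y2 z1 z2 (step i j m a b n d) =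
      (1 - mono y0 y1 y2 z1 z2 i j m a b) ^ n * ev5 y0 y1 y2 z1 z2 d := by
  rw [one_sub_pow_trunc _ (mono_pow_four y0 y1 y2 z1 z2 h0 h1 h2 i j m a b hp)]
  simp only [step, ev5_add, ev5_sc, ev5_sh y0 y1 y2 z1 z2 h0 h1 h2, mono]
  ring

/-- the meaning of `block` -/
def blk (y0 y1 y2 z1 z2 : R) (i j m A B : ℕ) : R :=
  (1 - mono y0 y1 y2 z1 z2 i j m (i+j+m+1) (i+j+m)) ^ A *
  (1 - mono y0 y1 y2 z1 z2 i j m (i+j+m) (i+j+m+1)) ^ A *
  (1 - mono y0 y1 y2 z1 z2 i j m (i+j+m+1) (i+j+m+1)) ^ A *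
  (1 - mono y0 y1 y2 z1 z2 i j m (i+j+m-1) (i+j+m)) ^ A *
  (1 - mono y0 y1 y2 z1 z2 i j m (i+j+m) (i+j+m-1)) ^ A *
  (1 - mono y0 y1 y2 z1 z2 i j m (i+j+m-1) (i+j+m-1)) ^ A *
  (1 - mono y0 y1 y2 z1 z2 i j m (i+j+m) (i+j+m)) ^ (2 * A + B)

theorem ev5_block (h0 : y0 ^ 4 = 0) (h1 : y1 ^ 4 = 0) (h2 : y2 ^ 2 = 0) (i j m A B : ℕ)
    (hp : 0 < i + j + m) (d : D5) :
    ev5 y0 y1 y2 z1 z2 (block i j m A B d) =
      blk y0 y1 y2 z1 z2 i j m A B * ev5 y0 y1 y2 z1 z2 d := by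
  simp only [block, ev5_step y0 y1 y2 z1 z2 h0 h1 h2 _ _ _ _ _ _ hp, blk]
  ring

theorem ev5_run (h0 : y0 ^ 4 = 0) (h1 : y1 ^ 4 = 0) (h2 : y2 ^ 2 = 0) :
    ∀ (l : List (ℕ × ℕ × ℕ × ℕ × ℕ)) (_ : ∀ e ∈ l, 0 < e.1 + e.2.1 + e.2.2.1) (d : D5),
    ev5 y0 y1 y2 z1 z2 (run d l) =
      (l.map fun e => blk y0 y1 y2 z1 z2 e.1 e.2.1 e.2.2.1 e.2.2.2.1 e.2.2.2.2).prod *
        ev5 y0 y1 y2 z1 z2 d
  | [], _, d => by simp [run]
  | (i, j, m, A, B) :: l, hl, d => by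
      rw [run, ev5_run h0 h1 h2 l (fun e he => hl e (List.mem_cons_of_mem _ he)),
        ev5_block y0 y1 y2 z1 z2 h0 h1 h2 i j m A B (hl _ List.mem_cons_self)]
      simp only [List.map_cons, List.prod_cons]
      ring

theorem ev5_final (h0 : y0 ^ 4 = 0) (h1 : y1 ^ 4 = 0) (h2 : y2 ^ 2 = 0) :
    ev5 y0 y1 y2 z1 z2 final =
      (tab.map fun e => blk y0 y1 y2 z1 z2 e.1 e.2.1 e.2.2.1 e.2.2.2.1 e.2.2.2.2).prod := by
  rw [final, ev5_run y0 y1 y2 z1 z2 h0 h1 h2 tab (by decide)]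
  simp [ev5, ev4, ev3, ev2, ev1, hn]

end Sem

/-! evaluation commutes with ring homomorphisms -/

section Map

variable {R S : Type*} [CommRing R] [CommRing S] (φ : R →+* S)

theorem map_hn {α : Type} (f : α → R) (y : R) :
    ∀ l : List α, φ (hn f y l) = hn (fun a => φ (f a)) (φ y) l
  | [] => by simp [hn]
  | a :: l => by simp [hn, map_hn f y l]

theorem map_ev5 (y0 y1 y2 z1 z2 : R) (l : D5) :
    φ (ev5 y0 y1 y2 z1 z2 l) = ev5 (φ y0) (φ y1) (φ y2) (φ z1) (φ z2) l := by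
  have e1 : ∀ l, φ (ev1 z2 l) = ev1 (φ z2) l := fun l => by
    rw [ev1, map_hn, ev1]; congr 1; funext c; simp
  have e2 : ∀ l, φ (ev2 z1 z2 l) = ev2 (φ z1) (φ z2) l := fun l => by
    rw [ev2, map_hn, ev2]; congr 1; funext c; exact e1 c
  have e3 : ∀ l, φ (ev3 y2 z1 z2 l) = ev3 (φ y2) (φ z1) (φ z2) l := fun l => by
    rw [ev3, map_hn, ev3]; congr 1; funext c; exact e2 c
  have e4 : ∀ l, φ (ev4 y1 y2 z1 z2 l) = ev4 (φ y1) (φ y2) (φ z1) (φ z2) l := fun l => by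
    rw [ev4, map_hn, ev4]; congr 1; funext c; exact e3 c
  rw [ev5, map_hn, ev5]; congr 1; funext c; exact e4 c

end Map

end Run7.h187.Sh
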