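import Pool.Agent.Run7.h187.ShChar
import Pool.Agent.Run7.h187.ShList

/-!
The value at `(3, 3, 1)` of the solution of Shang's equations.
-/

set_option autoImplicit false

namespace Run7.h187.Sh

open MvPowerSeries

@[simp] theorem deg_zero' (i j l : ℕ) : deg i j l 0 = i := rfl
@[simp] theorem deg_one' (i j l : ℕ) : deg i j l 1 = j := rfl
@[simp] theorem deg_two' (i j l : ℕ) : deg i j l 2 = l := rfl

theorem deg_ext (m : Deg) : m = deg (m 0) (m 1) (m 2) := by
  ext x
  fin_cases x <;> rfl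

theorem deg_inj {i j l i' j' l' : ℕ} : deg i j l = deg i' j' l' ↔ i = i' ∧ j = j' ∧ l = l' := by
  constructor
  · intro h
    exact ⟨by simpa using DFunLike.congr_fun h 0, by simpa using DFunLike.congr_fun h 1,
      by simpa using DFunLike.congr_fun h 2⟩
  · rintro ⟨rfl, rfl, rfl⟩
    rfl

theorem zero_eq_deg : (0 : Deg) = deg 0 0 0 := by
  ext x
  fin_cases x <;> rfl

theorem single0_eq_deg : (Finsupp.single 0 1 : Deg) = deg 1 0 0 := by
  ext x
  fin_cases x <;> simp

theorem single1_eq_deg : (Finsupp.single 1 1 : Deg) = deg 0 1 0 := by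
  ext x
  fin_cases x <;> simp

theorem single2_eq_deg : (Finsupp.single 2 1 : Deg) = deg 0 0 1 := by
  ext x
  fin_cases x <;> simp

theorem le_deg_iff (m : Deg) (i j l : ℕ) : m ≤ deg i j l ↔ m 0 ≤ i ∧ m 1 ≤ j ∧ m 2 ≤ l := by
  constructor
  · intro h
    exact ⟨h 0, h 1, h 2⟩
  · rintro ⟨h0, h1, h2⟩ x
    fin_cases x
    · exact h0
    · exact h1
    · exact h2

/-! ### the monomials -/

noncomputable def Y0 : Ser := monomial (Finsupp.single 0 1) (zz (-1, -1))
noncomputable def Y1 : Ser := monomial (Finsupp.single 1 1) (zz (-1, -1))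
noncomputable def Y2 : Ser := monomial (Finsupp.single 2 1) (zz (-1, -1))
noncomputable def Z1 : Ser := monomial 0 (zz (1, 0))
noncomputable def Z2 : Ser := monomial 0 (zz (0, 1))

theorem mono_eq (i j l a b : ℕ) : mono Y0 Y1 Y2 Z1 Z2 i j l a b =
    monomial (deg i j l) (zz ((a : ℤ) - (i + j + l), (b : ℤ) - (i + j + l))) := by
  rw [mono, Y0, Y1, Y2, Z1, Z2]
  simp only [monomial_pow, monomial_mul_monomial, zz_pow, zz_mul]
  have e1 : i • Finsupp.single 0 1 + (j • Finsupp.single 1 1 + (l • Finsupp.single 2 1 +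
      (a • (0 : Deg) + b • (0 : Deg)))) = deg i j l := by
    ext x
    fin_cases x <;> simp
  have e2 : i • ((-1 : ℤ), (-1 : ℤ)) + (j • (-1, -1) + (l • (-1, -1) + (a • (1, 0) + b • (0, 1))))
      = ((a : ℤ) - (i + j + l), (b : ℤ) - (i + j + l)) := by
    ext <;> simp <;> ring
  rw [e1, e2]

theorem pw_natCast (f : Ser) (n : ℕ) : pw f (n : ℤ) = f ^ n := by
  rw [pw]
  simp

theorem factor_eq_blk (i j l A B : ℕ) (hp : 0 < i + j + l) :
    factor (deg i j l) A B = blk Y0 Y1 Y2 Z1 Z2 i j l A B := by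
  rw [factor, blk, roots]
  rw [Finset.prod_insert (by decide), Finset.prod_insert (by decide),
      Finset.prod_insert (by decide), Finset.prod_insert (by decide),
      Finset.prod_insert (by decide), Finset.prod_singleton]
  have h2 : (2 * (A : ℤ) + (B : ℤ)) = ((2 * A + B : ℕ) : ℤ) := by push_cast; ring
  rw [h2]
  simp only [pw_natCast, mono_eq, bin]
  have c1 : ((i + j + l + 1 : ℕ) : ℤ) - ((i : ℤ) + j + l) = 1 := by push_cast; ring
  have c0 : ((i + j + l : ℕ) : ℤ) - ((i : ℤ) + j + l) = 0 := by push_cast; ring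
  have cm : ((i + j + l - 1 : ℕ) : ℤ) - ((i : ℤ) + j + l) = -1 := by omega
  rw [c1, c0, cm]
  rw [show ((0 : ℤ × ℤ)) = (0, 0) from rfl]
  ring

/-! ### truncation -/

/-- power series without terms of degree `≤ (3, 3, 1)` -/
def trI : Ideal Ser where
  carrier := {f | ∀ m ≤ deg 3 3 1, coeff m f = 0}
  add_mem' := by
    intro f g hf hg m hm
    rw [map_add, hf m hm, hg m hm, add_zero]
  zero_mem' := by
    intro m _
    simp
  smul_mem' := by
    intro c f hf m hm
    rw [smul_eq_mul, coeff_mul]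
    apply Finset.sum_eq_zero
    intro x hx
    have hx' := Finset.HasAntidiagonal.mem_antidiagonal.1 hx
    have : x.2 ≤ m := by rw [← hx']; exact le_add_self
    rw [hf x.2 (this.trans hm), mul_zero]

theorem mem_trI {f : Ser} : f ∈ trI ↔ ∀ m ≤ deg 3 3 1, coeff m f = 0 := Iff.rfl

/-- the quotient map -/
noncomputable abbrev q : Ser →+* Ser ⧸ trI := Ideal.Quotient.mk trI

theorem monomial_mem_trI {p : Deg} (hp : ¬ p ≤ deg 3 3 1) (c : Lam) : (monomial p c : Ser) ∈ trI := by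
  intro m hm
  rw [coeff_monomial, if_neg]
  rintro rfl
  exact hp hm

theorem q_Y0 : q Y0 ^ 4 = 0 := by
  rw [← map_pow, Y0, monomial_pow]
  apply Ideal.Quotient.eq_zero_iff_mem.2
  apply monomial_mem_trI
  rw [le_deg_iff]
  simp

theorem q_Y1 : q Y1 ^ 4 = 0 := by
  rw [← map_pow, Y1, monomial_pow]
  apply Ideal.Quotient.eq_zero_iff_mem.2
  apply monomial_mem_trI
  rw [le_deg_iff]
  simp

theorem q_Y2 : q Y2 ^ 2 = 0 := by
  rw [← map_pow, Y2, monomial_pow]
  apply Ideal.Quotient.eq_zero_iff_mem.2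
  apply monomial_mem_trI
  rw [le_deg_iff]
  simp

theorem map_blk {R S : Type*} [CommRing R] [CommRing S] (φ : R →+* S) (y0 y1 y2 z1 z2 : R)
    (i j l A B : ℕ) :
    φ (blk y0 y1 y2 z1 z2 i j l A B) = blk (φ y0) (φ y1) (φ y2) (φ z1) (φ z2) i j l A B := by
  simp only [blk, mono, map_mul, map_pow, map_sub, map_one]

/-! ### the table as functions -/

/-- table lookup -/
def look (i j l : ℕ) : ℕ × ℕ :=
  match tab.find? (fun e => e.1 == i && e.2.1 == j && e.2.2.1 == l) with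
  | some e => (e.2.2.2.1, e.2.2.2.2)
  | none => (0, 0)

noncomputable def tA (m : Deg) : ℤ := ((look (m 0) (m 1) (m 2)).1 : ℤ)
noncomputable def tB (m : Deg) : ℤ := ((look (m 0) (m 1) (m 2)).2 : ℤ)

theorem look_tab : ∀ e ∈ tab, look e.1 e.2.1 e.2.2.1 = (e.2.2.2.1, e.2.2.2.2) := by decide

theorem tab_bd : ∀ e ∈ tab, e.1 ≤ 3 ∧ e.2.1 ≤ 3 ∧ e.2.2.1 ≤ 1 ∧ 0 < e.1 + e.2.1 + e.2.2.1 := by
  decide

theorem tab_full' : ∀ i ∈ List.range 4, ∀ j ∈ List.range 4, ∀ l ∈ List.range 2, 0 < i + j + l →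
    ∃ e ∈ tab, e.1 = i ∧ e.2.1 = j ∧ e.2.2.1 = l := by decide

theorem tab_full (i j l : ℕ) (hi : i < 4) (hj : j < 4) (hl : l < 2) (h : 0 < i + j + l) :
    ∃ e ∈ tab, e.1 = i ∧ e.2.1 = j ∧ e.2.2.1 = l :=
  tab_full' i (List.mem_range.2 hi) j (List.mem_range.2 hj) l (List.mem_range.2 hl) h

theorem tab_nodup : (tab.map fun e => (e.1, e.2.1, e.2.2.1)).Nodup := by decide

theorem box_eq : (Finset.Iic (deg 3 3 1)).erase 0 =
    (tab.map fun e => deg e.1 e.2.1 e.2.2.1).toFinset := by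
  ext p
  rw [Finset.mem_erase, Finset.mem_Iic, List.mem_toFinset, List.mem_map, le_deg_iff]
  constructor
  · rintro ⟨h0, h1, h2, h3⟩
    have hpos : 0 < p 0 + p 1 + p 2 := by
      by_contra hc
      apply h0
      rw [zero_eq_deg, deg_ext p, deg_inj]
      omega
    obtain ⟨e, he, e1, e2, e3⟩ := tab_full (p 0) (p 1) (p 2) (by omega) (by omega) (by omega) hpos
    refine ⟨e, he, ?_⟩
    rw [e1, e2, e3]
    exact (deg_ext p).symm
  · rintro ⟨e, he, rfl⟩
    obtain ⟨h1, h2, h3, h4⟩ := tab_bd e he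
    refine ⟨?_, by simpa using h1, by simpa using h2, by simpa using h3⟩
    rw [zero_eq_deg, Ne, deg_inj]
    omega

theorem box_nodup : (tab.map fun e => deg e.1 e.2.1 e.2.2.1).Nodup := by
  have h := tab_nodup.map (f := fun t : ℕ × ℕ × ℕ => deg t.1 t.2.1 t.2.2) (by
    rintro ⟨i, j, l⟩ ⟨i', j', l'⟩ h
    have := deg_inj.1 h
    simp only [Prod.mk.injEq]
    exact this)
  rw [List.map_map] at h
  exact h

theorem prod_box : ∏ p ∈ (Finset.Iic (deg 3 3 1)).erase 0, factor p (tA p) (tB p) =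
    (tab.map fun e => blk Y0 Y1 Y2 Z1 Z2 e.1 e.2.1 e.2.2.1 e.2.2.2.1 e.2.2.2.2).prod := by
  rw [box_eq, List.prod_toFinset _ box_nodup, List.map_map]
  refine congrArg List.prod (List.map_congr_left ?_)
  intro e he
  have h := look_tab e he
  have hb := tab_bd e he
  rw [Function.comp_apply, tA, tB, deg_zero', deg_one', deg_two', h,
    factor_eq_blk _ _ _ _ _ hb.2.2.2]

theorem q_prod_box : q (∏ p ∈ (Finset.Iic (deg 3 3 1)).erase 0, factor p (tA p) (tB p)) =
    q (ev5 Y0 Y1 Y2 Z1 Z2 final) := by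
  rw [prod_box, map_list_prod, List.map_map, map_ev5, ev5_final _ _ _ _ _ q_Y0 q_Y1 q_Y2]
  refine congrArg List.prod (List.map_congr_left ?_)
  intro e _
  rw [Function.comp_apply, map_blk]

theorem coeff_prod_box {m : Deg} (hm : m ≤ deg 3 3 1) :
    coeff m (∏ p ∈ (Finset.Iic (deg 3 3 1)).erase 0, factor p (tA p) (tB p)) =
    coeff m (ev5 Y0 Y1 Y2 Z1 Z2 final) := by
  have h := Ideal.Quotient.eq.1 q_prod_box
  have := mem_trI.1 h m hm
  rw [map_sub, sub_eq_zero] at this
  exact this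

/-! ### extraction of coefficients -/

/-- coefficient of `y₀^i y₁^j y₂^l z₁^a z₂^b` -/
noncomputable def cc (i j l : ℕ) (a b : ℤ) (f : Ser) : ℤ :=
  (coeff (deg i j l) f).coeff (a - (i + j + l), b - (i + j + l))

theorem cc_add (i j l : ℕ) (a b : ℤ) (f g : Ser) :
    cc i j l a b (f + g) = cc i j l a b f + cc i j l a b g := by
  simp [cc, AddMonoidAlgebra.coeff_add]

theorem cc_zero (i j l : ℕ) (a b : ℤ) : cc i j l a b 0 = 0 := by simp [cc]

theorem coeff_zz_mul (X : Lam) (g w : ℤ × ℤ) : (zz g * X).coeff w = X.coeff (w - g) := by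
  rw [mul_comm, coeff_mul_zz]

theorem cc_Y0 (i j l : ℕ) (a b : ℤ) (f : Ser) :
    cc i j l a b (Y0 * f) = if i = 0 then 0 else cc (i - 1) j l a b f := by
  rw [cc, Y0, coeff_monomial_mul]
  by_cases hi : i = 0
  · rw [if_pos hi, if_neg]
    · simp
    · rw [le_deg_iff]
      simp [hi]
  · obtain ⟨i', rfl⟩ := Nat.exists_eq_succ_of_ne_zero hi
    rw [if_neg hi, if_pos, coeff_zz_mul, cc]
    · congr 1
      · congr 1
        have : deg (Nat.succ i') j l - Finsupp.single 0 1 = deg (Nat.succ i' - 1) j l := by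
          ext x
          fin_cases x <;> simp
        rw [this]
      · ext <;> simp <;> ring
    · rw [le_deg_iff]
      simp

theorem cc_Y1 (i j l : ℕ) (a b : ℤ) (f : Ser) :
    cc i j l a b (Y1 * f) = if j = 0 then 0 else cc i (j - 1) l a b f := by
  rw [cc, Y1, coeff_monomial_mul]
  by_cases hi : j = 0
  · rw [if_pos hi, if_neg]
    · simp
    · rw [le_deg_iff]
      simp [hi]
  · obtain ⟨i', rfl⟩ := Nat.exists_eq_succ_of_ne_zero hi
    rw [if_neg hi, if_pos, coeff_zz_mul, cc]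
    · congr 1
      · congr 1
        have : deg i (Nat.succ i') l - Finsupp.single 1 1 = deg i (Nat.succ i' - 1) l := by
          ext x
          fin_cases x <;> simp
        rw [this]
      · ext <;> simp <;> ring
    · rw [le_deg_iff]
      simp

theorem cc_Y2 (i j l : ℕ) (a b : ℤ) (f : Ser) :
    cc i j l a b (Y2 * f) = if l = 0 then 0 else cc i j (l - 1) a b f := by
  rw [cc, Y2, coeff_monomial_mul]
  by_cases hi : l = 0
  · rw [if_pos hi, if_neg]
    · simp
    · rw [le_deg_iff]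
      simp [hi]
  · obtain ⟨i', rfl⟩ := Nat.exists_eq_succ_of_ne_zero hi
    rw [if_neg hi, if_pos, coeff_zz_mul, cc]
    · congr 1
      · congr 1
        have : deg i j (Nat.succ i') - Finsupp.single 2 1 = deg i j (Nat.succ i' - 1) := by
          ext x
          fin_cases x <;> simp
        rw [this]
      · ext <;> simp <;> ring
    · rw [le_deg_iff]
      simp

theorem cc_Z1 (i j l : ℕ) (a b : ℤ) (f : Ser) :
    cc i j l a b (Z1 * f) = cc i j l (a - 1) b f := by
  rw [cc, Z1, coeff_monomial_mul, if_pos (zero_le), coeff_zz_mul, cc, tsub_zero]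
  congr 1
  ext
  · simp; ring
  · simp

theorem cc_Z2 (i j l : ℕ) (a b : ℤ) (f : Ser) :
    cc i j l a b (Z2 * f) = cc i j l a (b - 1) f := by
  rw [cc, Z2, coeff_monomial_mul, if_pos (zero_le), coeff_zz_mul, cc, tsub_zero]
  congr 1
  ext
  · simp
  · simp; ring

theorem cc_int (i j l : ℕ) (a b : ℤ) (c : ℤ) :
    cc i j l a b (c : Ser) = if i = 0 ∧ j = 0 ∧ l = 0 ∧ a = 0 ∧ b = 0 then c else 0 := by
  have h : (c : Ser) = C ((c : ℤ) : Lam) := by simp
  rw [cc, h, coeff_C]
  have h0 : (deg i j l = 0) ↔ (i = 0 ∧ j = 0 ∧ l = 0) := by rw [zero_eq_deg, deg_inj]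
  by_cases hd : deg i j l = 0
  · obtain ⟨rfl, rfl, rfl⟩ := h0.1 hd
    rw [if_pos hd]
    rw [AddMonoidAlgebra.intCast_def, AddMonoidAlgebra.coeff_single, Finsupp.single_apply]
    simp only [Int.cast_id, Nat.cast_zero, add_zero, sub_zero, true_and]
    congr 1
    rw [eq_iff_iff]
    constructor
    · intro h
      exact ⟨(congrArg Prod.fst h).symm, (congrArg Prod.snd h).symm⟩
    · rintro ⟨rfl, rfl⟩
      rfl
  · rw [if_neg hd, if_neg]
    · simp
    · rintro ⟨h1, h2, h3, _⟩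
      exact hd (h0.2 ⟨h1, h2, h3⟩)

theorem genZ {α : Type} (f : α → Ser) (y : Ser) (c : ℤ → Ser → ℤ) (e : α) (G : α → ℤ)
    (hadd : ∀ n x y, c n (x + y) = c n x + c n y) (h0 : ∀ n, c n 0 = 0)
    (hsh : ∀ n x, c n (y * x) = c (n - 1) x) (hb : ∀ n a, c n (f a) = if n = 0 then G a else 0)
    (hG : G e = 0) :
    ∀ (l : List α) (n : ℤ), c n (hn f y l) = if 0 ≤ n then G (l.getD n.toNat e) else 0
  | [], n => by simp [hn, h0, hG]
  | a :: l, n => by
      rw [hn, hadd, hb, hsh, genZ f y c e G hadd h0 hsh hb hG l (n - 1)]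
      rcases lt_trichotomy n 0 with h | h | h
      · rw [if_neg (by omega), if_neg (by omega), if_neg (by omega), add_zero]
      · subst h
        simp
      · rw [if_neg (by omega), if_pos (by omega), if_pos (by omega), zero_add]
        obtain ⟨k, rfl⟩ : ∃ k : ℕ, n = (k : ℤ) + 1 := ⟨(n - 1).toNat, by omega⟩
        rw [show ((k : ℤ) + 1 - 1).toNat = k by omega, show ((k : ℤ) + 1).toNat = k + 1 by omega]
        rfl

theorem genY {α : Type} (f : α → Ser) (y : Ser) (c : ℕ → Ser → ℤ) (e : α) (G : α → ℤ)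
    (hadd : ∀ n x y, c n (x + y) = c n x + c n y) (h0 : ∀ n, c n 0 = 0)
    (hsh : ∀ n x, c n (y * x) = if n = 0 then 0 else c (n - 1) x)
    (hb : ∀ n a, c n (f a) = if n = 0 then G a else 0)
    (hG : G e = 0) :
    ∀ (l : List α) (n : ℕ), c n (hn f y l) = G (l.getD n e)
  | [], n => by simp [hn, h0, hG]
  | a :: l, 0 => by
      rw [hn, hadd, hb, hsh, if_pos rfl, if_pos rfl, add_zero]
      rfl
  | a :: l, n + 1 => by
      rw [hn, hadd, hb, hsh, if_neg (by omega), if_neg (by omega), zero_add,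
        genY f y c e G hadd h0 hsh hb hG l (n + 1 - 1)]
      rfl

/-- value at `z₁^a z₂^b` -/
def G1 (b : ℤ) (x : List ℤ) : ℤ := if 0 ≤ b then x.getD b.toNat 0 else 0
def G2 (a b : ℤ) (x : List (List ℤ)) : ℤ := if 0 ≤ a then G1 b (x.getD a.toNat []) else 0

theorem G1_nil (b : ℤ) : G1 b [] = 0 := by simp [G1]
theorem G2_nil (a b : ℤ) : G2 a b [] = 0 := by simp [G2, G1_nil]

theorem cc_ev1 (i j l : ℕ) (a b : ℤ) (x : List ℤ) :
    cc i j l a b (ev1 Z2 x) = if i = 0 ∧ j = 0 ∧ l = 0 ∧ a = 0 then G1 b x else 0 := by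
  by_cases h : i = 0 ∧ j = 0 ∧ l = 0 ∧ a = 0
  · rw [if_pos h, ev1, G1]
    refine genZ _ Z2 (fun b => cc i j l a b) 0 (fun c => c) (fun n => cc_add i j l a n)
      (fun n => cc_zero i j l a n) (fun n x => cc_Z2 i j l a n x) ?_ rfl x b
    intro n c
    obtain ⟨rfl, rfl, rfl, rfl⟩ := h
    rw [cc_int]
    simp
  · rw [if_neg h, ev1]
    have := genZ (fun c : ℤ => (c : Ser)) Z2 (fun b => cc i j l a b) 0 (fun _ => 0)
      (fun n => cc_add i j l a n)
      (fun n => cc_zero i j l a n) (fun n x => cc_Z2 i j l a n x) (by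
        intro n c
        rw [cc_int, if_neg]
        · simp
        · rintro ⟨h1, h2, h3, h4, _⟩
          exact h ⟨h1, h2, h3, h4⟩) rfl x b
    rw [this]
    simp

theorem cc_ev2 (i j l : ℕ) (a b : ℤ) (x : List (List ℤ)) :
    cc i j l a b (ev2 Z1 Z2 x) = if i = 0 ∧ j = 0 ∧ l = 0 then G2 a b x else 0 := by
  by_cases h : i = 0 ∧ j = 0 ∧ l = 0
  · rw [if_pos h, ev2, G2]
    refine genZ _ Z1 (fun a => cc i j l a b) [] (fun c => G1 b c) (fun n => cc_add i j l n b)
      (fun n => cc_zero i j l n b) (fun n x => cc_Z1 i j l n b x) ?_ (G1_nil b) x a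
    intro n c
    obtain ⟨rfl, rfl, rfl⟩ := h
    rw [cc_ev1]
    simp
  · rw [if_neg h, ev2]
    have := genZ (ev1 Z2) Z1 (fun a => cc i j l a b) [] (fun _ => 0)
      (fun n => cc_add i j l n b)
      (fun n => cc_zero i j l n b) (fun n x => cc_Z1 i j l n b x) (by
        intro n c
        rw [cc_ev1, if_neg]
        · simp
        · rintro ⟨h1, h2, h3, _⟩
          exact h ⟨h1, h2, h3⟩) rfl x a
    rw [this]
    simp

theorem cc_ev3 (i j l : ℕ) (a b : ℤ) (x : List (List (List ℤ))) :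
    cc i j l a b (ev3 Y2 Z1 Z2 x) = if i = 0 ∧ j = 0 then G2 a b (x.getD l []) else 0 := by
  by_cases h : i = 0 ∧ j = 0
  · rw [if_pos h, ev3]
    refine genY _ Y2 (fun l => cc i j l a b) [] (fun c => G2 a b c) (fun n => cc_add i j n a b)
      (fun n => cc_zero i j n a b) (fun n x => cc_Y2 i j n a b x) ?_ (G2_nil a b) x l
    intro n c
    obtain ⟨rfl, rfl⟩ := h
    rw [cc_ev2]
    simp
  · rw [if_neg h, ev3]
    exact genY (ev2 Z1 Z2) Y2 (fun l => cc i j l a b) [] (fun _ => 0)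
      (fun n => cc_add i j n a b)
      (fun n => cc_zero i j n a b) (fun n x => cc_Y2 i j n a b x) (by
        intro n c
        rw [cc_ev2, if_neg]
        · simp
        · rintro ⟨h1, h2, _⟩
          exact h ⟨h1, h2⟩) rfl x l

theorem cc_ev4 (i j l : ℕ) (a b : ℤ) (x : List (List (List (List ℤ)))) :
    cc i j l a b (ev4 Y1 Y2 Z1 Z2 x) =
      if i = 0 then G2 a b ((x.getD j []).getD l []) else 0 := by
  by_cases h : i = 0
  · rw [if_pos h, ev4]
    refine genY _ Y1 (fun j => cc i j l a b) [] (fun c => G2 a b (c.getD l []))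
      (fun n => cc_add i n l a b)
      (fun n => cc_zero i n l a b) (fun n x => cc_Y1 i n l a b x) ?_ (by simp [G2_nil]) x j
    intro n c
    subst h
    rw [cc_ev3]
    simp
  · rw [if_neg h, ev4]
    exact genY (ev3 Y2 Z1 Z2) Y1 (fun j => cc i j l a b) [] (fun _ => 0)
      (fun n => cc_add i n l a b)
      (fun n => cc_zero i n l a b) (fun n x => cc_Y1 i n l a b x) (by
        intro n c
        rw [cc_ev3, if_neg]
        · simp
        · rintro ⟨h1, _⟩
          exact h h1) rfl x j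

theorem cc_ev5 (i j l : ℕ) (a b : ℤ) (x : D5) :
    cc i j l a b (ev5 Y0 Y1 Y2 Z1 Z2 x) = G2 a b (((x.getD i []).getD j []).getD l []) := by
  rw [ev5]
  refine genY _ Y0 (fun i => cc i j l a b) [] (fun c => G2 a b ((c.getD j []).getD l []))
      (fun n => cc_add n j l a b)
      (fun n => cc_zero n j l a b) (fun n x => cc_Y0 n j l a b x) ?_ (by simp [G2_nil]) x i
  intro n c
  rw [cc_ev4]

theorem coeff_coeff_ev5 (i j l : ℕ) (u v : ℕ) (x : D5) :
    (coeff (deg i j l) (ev5 Y0 Y1 Y2 Z1 Z2 x)).coeff ((u : ℤ), (v : ℤ)) =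
      ent x i j l (i + j + l + u) (i + j + l + v) := by
  have h := cc_ev5 i j l ((i + j + l + u : ℕ) : ℤ) ((i + j + l + v : ℕ) : ℤ) x
  rw [cc, G2, G1, if_pos (by positivity), if_pos (by positivity), Int.toNat_natCast,
    Int.toNat_natCast] at h
  rw [ent, ← h]
  congr 1
  ext <;> simp

theorem mult_zero_coeff (i j l : ℕ) (x : D5) :
    mult (0, 0) (coeff (deg i j l) (ev5 Y0 Y1 Y2 Z1 Z2 x)) = mm x i j l (i + j + l) := by
  rw [mult_eq, mm]
  have h := coeff_coeff_ev5 i j l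
  have e0 := h 0 0 x
  have e1 := h 1 0 x
  have e2 := h 0 1 x
  have e3 := h 2 1 x
  have e4 := h 1 2 x
  have e5 := h 2 2 x
  simp only [Nat.cast_zero, Nat.cast_one, Nat.cast_ofNat, add_zero] at e0 e1 e2 e3 e4 e5
  simp only [Prod.mk_add_mk, zero_add, add_zero]
  rw [e0, e1, e2, e3, e4, e5]

theorem mult_one_coeff (i j l : ℕ) (x : D5) :
    mult (1, 1) (coeff (deg i j l) (ev5 Y0 Y1 Y2 Z1 Z2 x)) = mm x i j l (i + j + l + 1) := by
  rw [mult_eq, mm]
  have h := coeff_coeff_ev5 i j l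
  have e0 := h 1 1 x
  have e1 := h 2 1 x
  have e2 := h 1 2 x
  have e3 := h 3 2 x
  have e4 := h 2 3 x
  have e5 := h 3 3 x
  simp only [Nat.cast_one, Nat.cast_ofNat] at e0 e1 e2 e3 e4 e5
  simp only [Prod.mk_add_mk, add_zero]
  norm_num
  rw [e0, e1, e2, e3, e4, e5]

theorem lamCoeff_tab {m : Deg} (hm : m ≤ deg 3 3 1) :
    lamCoeff tA tB m = coeff m (ev5 Y0 Y1 Y2 Z1 Z2 final) := by
  rw [← coeff_prod_box hm]
  apply lamCoeff_eq_of_subset
  · apply Finset.erase_subset_erase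
    exact Finset.Iic_subset_Iic.2 hm
  · simp

theorem sum_zero_iff (m : Deg) : (m 0 + m 1 + m 2 = 0) = (m = 0) := by
  rw [eq_iff_iff]
  constructor
  · intro h
    rw [deg_ext m, zero_eq_deg, deg_inj]
    omega
  · intro h
    rw [h]
    rfl

theorem sum_one_iff (m : Deg) : (m 0 + m 1 + m 2 = 1) =
    (m = Finsupp.single 0 1 ∨ m = Finsupp.single 1 1 ∨ m = Finsupp.single 2 1) := by
  rw [eq_iff_iff, single0_eq_deg, single1_eq_deg, single2_eq_deg]
  constructor
  · intro h
    rw [deg_ext m, deg_inj, deg_inj, deg_inj]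
    omega
  · rintro (h | h | h) <;> rw [h] <;> rfl

theorem ite_congr_prop {P Q : Prop} [Decidable P] [Decidable Q] (h : P = Q) (a b : ℤ) :
    (if P then a else b) = (if Q then a else b) := by
  subst h
  congr

theorem satAt_tab {m : Deg} (hm : m ≤ deg 3 3 1) : SatAt tA tB m := by
  have hc := check_final
  simp only [check, List.all_eq_true, List.mem_range, Bool.and_eq_true, beq_iff_eq] at hc
  have hle := (le_deg_iff m 3 3 1).1 hm
  have h := hc (m 0) (by omega) (m 1) (by omega) (m 2) (by omega)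
  rw [SatAt, lamCoeff_tab hm]
  have e := deg_ext m
  have h1 := mult_zero_coeff (m 0) (m 1) (m 2) final
  have h2 := mult_one_coeff (m 0) (m 1) (m 2) final
  rw [← e] at h1 h2
  rw [h1, h2, h.1, h.2]
  exact ⟨ite_congr_prop (sum_zero_iff m) 1 0, ite_congr_prop (sum_one_iff m) (-1) 0⟩

theorem tA_zero : tA 0 = 0 := by
  rw [zero_eq_deg, tA]
  simp only [deg_zero', deg_one', deg_two']
  decide

theorem tB_zero : tB 0 = 0 := by
  rw [zero_eq_deg, tB]
  simp only [deg_zero', deg_one', deg_two']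
  decide

theorem tA_val : tA (deg 3 3 1) = 152 := by
  rw [tA]
  simp only [deg_zero', deg_one', deg_two']
  decide

/-- every solution of Shang's equations has `a_{(3,3,1)} = 152` -/
theorem isShang_val {a b : Deg → ℤ} (h : IsShang a b) : a (deg 3 3 1) = 152 := by
  have := (uniq (h.1.trans tA_zero.symm) (h.2.1.trans tB_zero.symm) (deg 3 3 1)
    (fun p _ => h.2.2 p) (fun p hp => satAt_tab hp)).1
  rw [this, tA_val]

end Run7.h187.Sh
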