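import Mathlib

/-!
Definitions for Shang's conjecture on the character of the free alternative algebra `Alt(V)`,
for `V = k³`.
-/

set_option autoImplicit false

namespace Run7.h187.Sh

/-- Multidegrees: exponent vectors of monomials in the torus variables `x₀, x₁, x₂`. -/
abbrev Deg := Fin 3 →₀ ℕ

/-- The multidegree `(i, j, l)`. -/
noncomputable def deg (i j l : ℕ) : Deg := Finsupp.equivFunOnFinite.symm ![i, j, l]

/-! ### The free alternative algebra on three generators and its multigraded dimensions -/

section Alt

variable (k : Type*) [Field k]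

/-- A submodule of the free (non-unital) nonassociative algebra on three generators which is a
two-sided ideal and contains the left and right alternators of all pairs of elements. -/
structure IsAltIdeal (J : Submodule k (FreeNonUnitalNonAssocAlgebra k (Fin 3))) : Prop where
  mul_left : ∀ a x, x ∈ J → a * x ∈ J
  mul_right : ∀ a x, x ∈ J → x * a ∈ J
  left_alt : ∀ a b, (a * a) * b - a * (a * b) ∈ J
  right_alt : ∀ a b, (b * a) * a - b * (a * a) ∈ J

/-- The smallest two-sided ideal of the free nonassociative algebra containing all left and right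
alternators. -/
noncomputable def altIdeal : Submodule k (FreeNonUnitalNonAssocAlgebra k (Fin 3)) :=
  sInf {J | IsAltIdeal k J}

/-- (The underlying space of) the free alternative algebra on three generators,
`Alt(V)` for `V = k³`. -/
abbrev Alt := FreeNonUnitalNonAssocAlgebra k (Fin 3) ⧸ altIdeal k

/-- The multidegree of a nonassociative monomial. -/
noncomputable def mdeg : FreeMagma (Fin 3) → Deg
  | .of i => Finsupp.single i 1
  | .mul u v => mdeg u + mdeg v

/-- The class in `Alt(V)` of a nonassociative monomial. -/
noncomputable def cls (w : FreeMagma (Fin 3)) : Alt k :=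
  (altIdeal k).mkQ (MonoidAlgebra.single w 1)

/-- The component of multidegree `m` of `Alt(V)`: the span of the classes of all nonassociative
monomials of multidegree `m`.  For the diagonal torus of `GL(V)` this is the weight space of
weight `m`. -/
noncomputable def altPiece (m : Deg) : Submodule k (Alt k) :=
  Submodule.span k {x | ∃ w, mdeg w = m ∧ x = cls k w}

/-- The coefficient at `x^m` of the character of `Alt(V)`. -/
noncomputable def charAlt (m : Deg) : ℕ := Module.finrank k (altPiece k m)

end Alt

/-! ### Characters of `PSL₃` and the operation `λ` -/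

/-- The group ring of the root lattice of `sl₃`; `(i, j)` stands for `i α₁ + j α₂`.  Characters
of (virtual) `PSL₃`-modules are elements of it. -/
abbrev Lam := AddMonoidAlgebra ℤ (ℤ × ℤ)

/-- The element `z^w` of the group ring. -/
noncomputable def zz (w : ℤ × ℤ) : Lam := AddMonoidAlgebra.single w 1

/-- The six roots. -/
def roots : Finset (ℤ × ℤ) := {(1, 0), (0, 1), (1, 1), (-1, 0), (0, -1), (-1, -1)}

/-- The multiplicity of the irreducible module of highest weight `w` in the virtual module with
character `X` (Weyl's character formula): the coefficient of `z^w` in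
`X ∏_{α > 0} (1 - z^{-α})`. -/
noncomputable def mult (w : ℤ × ℤ) (X : Lam) : ℤ :=
  (X * ((1 - zz (-1, 0)) * (1 - zz (0, -1)) * (1 - zz (-1, -1)))).coeff w

/-- Formal power series in `x₀, x₁, x₂` over characters of `PSL₃`; it contains the completed
ring `R ⊗ K(PSL₃)` for `V = k³`. -/
abbrev Ser := MvPowerSeries (Fin 3) Lam

/-- `1 - x^p z^w`, i.e. `λ` of a one-dimensional torus module of weight `(p, w)`. -/
noncomputable def bin (p : Deg) (w : ℤ × ℤ) : Ser := 1 - MvPowerSeries.monomial p (zz w)

/-- Integer powers of a power series (used for invertible ones). -/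
noncomputable def pw (f : Ser) (n : ℤ) : Ser := f ^ n.toNat * (Ring.inverse f) ^ (-n).toNat

/-- `λ(a x^p [L(α₁+α₂)] + b x^p [L(0)])`: the adjoint module has the six roots and twice the
weight zero as its weights. -/
noncomputable def factor (p : Deg) (a b : ℤ) : Ser :=
  (∏ w ∈ roots, pw (bin p w) a) * pw (bin p 0) (2 * a + b)

/-- The coefficient at `x^m` of `λ(a [L(α₁+α₂)] + b [L(0)])`, where `a = ∑ a_p x^p` and
`b = ∑ b_p x^p` have no constant term.  Only the factors with `p ≤ m` matter. -/
noncomputable def lamCoeff (a b : Deg → ℤ) (m : Deg) : Lam :=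
  MvPowerSeries.coeff m (∏ p ∈ (Finset.Iic m).erase 0, factor p (a p) (b p))

/-- The pair `(a, b)` of power series (with zero constant term) satisfies Shang's equations
`[λ(a[L(α₁+α₂)] + b[L(0)]) : [L(0)]] = 1` and
`[λ(a[L(α₁+α₂)] + b[L(0)]) : [L(α₁+α₂)]] = -[V] = -(x₀ + x₁ + x₂)`. -/
def IsShang (a b : Deg → ℤ) : Prop :=
  a 0 = 0 ∧ b 0 = 0 ∧
    ∀ m : Deg, mult (0, 0) (lamCoeff a b m) = (if m = 0 then 1 else 0) ∧
      mult (1, 1) (lamCoeff a b m) =
        (if m = Finsupp.single 0 1 ∨ m = Finsupp.single 1 1 ∨ m = Finsupp.single 2 1
          then -1 else 0)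

end Run7.h187.Sh
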