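import Pool.Agent.Run7.h187.ShDefs
import Pool.Agent.Run7.h187.ShTab

/-!
A lower bound for the dimension of the component of multidegree `(3, 3, 1)` of the free
alternative algebra.
-/

set_option autoImplicit false

namespace Run7.h187.Sh

/-! ### words -/

/-- the letters of a nonassociative word -/
def toL : FreeMagma (Fin 3) → List (Fin 3)
  | .of i => [i]
  | .mul u v => toL u ++ toL v

/-- right-normed words -/
def rn : List (Fin 3) → FreeMagma (Fin 3)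
  | [] => .of 0
  | [a] => .of a
  | a :: b :: l => .mul (.of a) (rn (b :: l))

theorem toL_rn : ∀ l : List (Fin 3), l ≠ [] → toL (rn l) = l
  | [], h => absurd rfl h
  | [a], _ => rfl
  | a :: b :: l, _ => by
      rw [rn, toL, toL_rn (b :: l) (List.cons_ne_nil _ _), toL]
      rfl

theorem toL_ne_nil : ∀ w : FreeMagma (Fin 3), toL w ≠ []
  | .of i => by simp [toL]
  | .mul u v => by simp [toL, toL_ne_nil u]

theorem mdeg_eq : ∀ w : FreeMagma (Fin 3),
    mdeg w = deg ((toL w).count 0) ((toL w).count 1) ((toL w).count 2)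
  | .of i => by
      rw [mdeg, toL]
      ext x
      fin_cases i <;> fin_cases x <;> simp
  | .mul u v => by
      rw [mdeg, toL, mdeg_eq u, mdeg_eq v, List.count_append, List.count_append,
        List.count_append]
      ext x
      fin_cases x <;> simp

/-! ### finiteness -/

theorem finite_words (n : ℕ) : {w : FreeMagma (Fin 3) | (toL w).length ≤ n}.Finite := by
  induction n with
  | zero =>
      apply Set.Finite.subset (Set.finite_empty)
      intro w hw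
      exact absurd (List.length_eq_zero_iff.1 (Nat.le_zero.1 hw)) (toL_ne_nil w)
  | succ n ih =>
      apply Set.Finite.subset ((Set.finite_range (fun i : Fin 3 => FreeMagma.of i)).union
        (Set.Finite.image2 FreeMagma.mul ih ih))
      intro w hw
      cases w with
      | of i => exact Or.inl ⟨i, rfl⟩
      | mul u v =>
          right
          have hu := List.length_pos_iff.2 (toL_ne_nil u)
          have hv := List.length_pos_iff.2 (toL_ne_nil v)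
          have hw' : (toL u ++ toL v).length ≤ n + 1 := hw
          rw [List.length_append] at hw'
          refine ⟨u, ?_, v, ?_, rfl⟩
          · change (toL u).length ≤ n
            omega
          · change (toL v).length ≤ n
            omega

theorem length_eq_count (l : List (Fin 3)) : l.length = l.count 0 + l.count 1 + l.count 2 := by
  induction l with
  | nil => rfl
  | cons a l ih =>
      rw [List.length_cons, List.count_cons, List.count_cons, List.count_cons, ih]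
      fin_cases a <;> simp <;> omega

theorem finite_mdeg (m : Deg) : {w : FreeMagma (Fin 3) | mdeg w = m}.Finite := by
  apply (finite_words (m 0 + m 1 + m 2)).subset
  intro w hw
  have hw' : mdeg w = m := hw
  rw [mdeg_eq] at hw'
  change (toL w).length ≤ m 0 + m 1 + m 2
  rw [length_eq_count, ← hw']
  exact le_rfl

section Field

variable (k : Type*) [Field k]

theorem finiteDimensional_altPiece (m : Deg) : FiniteDimensional k (altPiece k m) := by
  apply FiniteDimensional.span_of_finite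
  have : {x | ∃ w, mdeg w = m ∧ x = cls k w} = (cls k) '' {w | mdeg w = m} := by
    ext x
    constructor
    · rintro ⟨w, hw, rfl⟩
      exact ⟨w, hw, rfl⟩
    · rintro ⟨w, hw, rfl⟩
      exact ⟨w, hw, rfl⟩
  rw [this]
  exact (finite_mdeg m).image _

/-! ### homomorphisms to alternative algebras -/

section Hom

variable {k}
variable {A : Type*} [NonUnitalNonAssocRing A] [Module k A] [IsScalarTower k A A]
  [SMulCommClass k A A]

/-- evaluation of nonassociative words -/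
def evw (g : Fin 3 → A) : FreeMagma (Fin 3) → A
  | .of i => g i
  | .mul u v => evw g u * evw g v

theorem lift_single (g : Fin 3 → A) : ∀ w : FreeMagma (Fin 3),
    FreeNonUnitalNonAssocAlgebra.lift k g (MonoidAlgebra.single w 1) = evw g w
  | .of i => FreeNonUnitalNonAssocAlgebra.lift_of_apply k g i
  | .mul u v => by
      have h : (MonoidAlgebra.single (FreeMagma.mul u v) 1 : FreeNonUnitalNonAssocAlgebra k (Fin 3))
          = MonoidAlgebra.single u 1 * MonoidAlgebra.single v 1 := by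
        rw [MonoidAlgebra.single_mul_single, mul_one]
        rfl
      rw [h, map_mul, evw, lift_single g u, lift_single g v]

theorem altIdeal_le (hl : ∀ a b : A, (a * a) * b = a * (a * b))
    (hr : ∀ a b : A, (b * a) * a = b * (a * a)) (g : Fin 3 → A) :
    altIdeal k ≤ LinearMap.ker (FreeNonUnitalNonAssocAlgebra.lift k g :
      FreeNonUnitalNonAssocAlgebra k (Fin 3) →ₗ[k] A) := by
  apply sInf_le
  constructor
  · intro a x hx
    rw [LinearMap.mem_ker] at hx ⊢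
    change FreeNonUnitalNonAssocAlgebra.lift k g (a * x) = 0
    change FreeNonUnitalNonAssocAlgebra.lift k g x = 0 at hx
    rw [map_mul, hx, mul_zero]
  · intro a x hx
    rw [LinearMap.mem_ker] at hx ⊢
    change FreeNonUnitalNonAssocAlgebra.lift k g (x * a) = 0
    change FreeNonUnitalNonAssocAlgebra.lift k g x = 0 at hx
    rw [map_mul, hx, zero_mul]
  · intro a b
    rw [LinearMap.mem_ker]
    change FreeNonUnitalNonAssocAlgebra.lift k g ((a * a) * b - a * (a * b)) = 0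
    rw [map_sub, map_mul, map_mul, map_mul, map_mul, hl, sub_self]
  · intro a b
    rw [LinearMap.mem_ker]
    change FreeNonUnitalNonAssocAlgebra.lift k g ((b * a) * a - b * (a * a)) = 0
    rw [map_sub, map_mul, map_mul, map_mul, map_mul, hr, sub_self]

/-- the linear map from the free alternative algebra to an alternative algebra given by images
of the generators -/
noncomputable def toAlt (hl : ∀ a b : A, (a * a) * b = a * (a * b))
    (hr : ∀ a b : A, (b * a) * a = b * (a * a)) (g : Fin 3 → A) : Alt k →ₗ[k] A :=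
  (altIdeal k).liftQ _ (altIdeal_le hl hr g)

theorem toAlt_cls (hl : ∀ a b : A, (a * a) * b = a * (a * b))
    (hr : ∀ a b : A, (b * a) * a = b * (a * a)) (g : Fin 3 → A) (w : FreeMagma (Fin 3)) :
    toAlt hl hr g (cls k w) = evw g w := by
  rw [toAlt, cls, Submodule.mkQ_apply, Submodule.liftQ_apply]
  exact lift_single g w

end Hom

/-! ### the free associative algebra -/

abbrev FA := MonoidAlgebra k (FreeMonoid (Fin 3))

noncomputable def gA (i : Fin 3) : FA k := MonoidAlgebra.single (FreeMonoid.of i) 1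

theorem evw_gA : ∀ w : FreeMagma (Fin 3),
    evw (gA k) w = MonoidAlgebra.single (FreeMonoid.ofList (toL w)) 1
  | .of i => rfl
  | .mul u v => by
      rw [evw, evw_gA u, evw_gA v, MonoidAlgebra.single_mul_single, mul_one, toL,
        FreeMonoid.ofList_append]

noncomputable def asc : Alt k →ₗ[k] FA k :=
  toAlt (fun a b => mul_assoc a a b) (fun a b => mul_assoc b a a) (gA k)

theorem asc_cls (w : FreeMagma (Fin 3)) :
    asc k (cls k w) = MonoidAlgebra.single (FreeMonoid.ofList (toL w)) 1 := by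
  rw [asc, toAlt_cls, evw_gA]

end Field

/-! ### octonions -/

/-- (split or non-split, this does not matter) octonions with eight coordinates -/
def Oct (R : Type*) := Fin 8 → R

namespace Oct

variable {R : Type*} [CommRing R]

instance : AddCommGroup (Oct R) := inferInstanceAs (AddCommGroup (Fin 8 → R))
instance : Module R (Oct R) := inferInstanceAs (Module R (Fin 8 → R))

instance : Mul (Oct R) := ⟨fun x y => ![
  x 0 * y 0 - x 1 * y 1 - x 2 * y 2 - x 3 * y 3 - x 4 * y 4 - x 5 * y 5 - x 6 * y 6 - x 7 * y 7,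
  x 0 * y 1 + x 1 * y 0 + x 2 * y 3 - x 3 * y 2 + x 4 * y 5 - x 5 * y 4 - x 6 * y 7 + x 7 * y 6,
  x 0 * y 2 - x 1 * y 3 + x 2 * y 0 + x 3 * y 1 + x 4 * y 6 + x 5 * y 7 - x 6 * y 4 - x 7 * y 5,
  x 0 * y 3 + x 1 * y 2 - x 2 * y 1 + x 3 * y 0 + x 4 * y 7 - x 5 * y 6 + x 6 * y 5 - x 7 * y 4,
  x 0 * y 4 - x 1 * y 5 - x 2 * y 6 - x 3 * y 7 + x 4 * y 0 + x 5 * y 1 + x 6 * y 2 + x 7 * y 3,
  x 0 * y 5 + x 1 * y 4 - x 2 * y 7 + x 3 * y 6 - x 4 * y 1 + x 5 * y 0 - x 6 * y 3 + x 7 * y 2,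
  x 0 * y 6 + x 1 * y 7 + x 2 * y 4 - x 3 * y 5 - x 4 * y 2 + x 5 * y 3 + x 6 * y 0 - x 7 * y 1,
  x 0 * y 7 - x 1 * y 6 + x 2 * y 5 + x 3 * y 4 - x 4 * y 3 - x 5 * y 2 + x 6 * y 1 + x 7 * y 0]⟩

theorem mul0 (x y : Oct R) : (x * y) 0 =
  x 0 * y 0 - x 1 * y 1 - x 2 * y 2 - x 3 * y 3 - x 4 * y 4 - x 5 * y 5 - x 6 * y 6 - x 7 * y 7 :=
  rfl
theorem mul1 (x y : Oct R) : (x * y) 1 =
  x 0 * y 1 + x 1 * y 0 + x 2 * y 3 - x 3 * y 2 + x 4 * y 5 - x 5 * y 4 - x 6 * y 7 + x 7 * y 6 :=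
  rfl
theorem mul2 (x y : Oct R) : (x * y) 2 =
  x 0 * y 2 - x 1 * y 3 + x 2 * y 0 + x 3 * y 1 + x 4 * y 6 + x 5 * y 7 - x 6 * y 4 - x 7 * y 5 :=
  rfl
theorem mul3 (x y : Oct R) : (x * y) 3 =
  x 0 * y 3 + x 1 * y 2 - x 2 * y 1 + x 3 * y 0 + x 4 * y 7 - x 5 * y 6 + x 6 * y 5 - x 7 * y 4 :=
  rfl
theorem mul4 (x y : Oct R) : (x * y) 4 =
  x 0 * y 4 - x 1 * y 5 - x 2 * y 6 - x 3 * y 7 + x 4 * y 0 + x 5 * y 1 + x 6 * y 2 + x 7 * y 3 :=
  rfl
theorem mul5 (x y : Oct R) : (x * y) 5 =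
  x 0 * y 5 + x 1 * y 4 - x 2 * y 7 + x 3 * y 6 - x 4 * y 1 + x 5 * y 0 - x 6 * y 3 + x 7 * y 2 :=
  rfl
theorem mul6 (x y : Oct R) : (x * y) 6 =
  x 0 * y 6 + x 1 * y 7 + x 2 * y 4 - x 3 * y 5 - x 4 * y 2 + x 5 * y 3 + x 6 * y 0 - x 7 * y 1 :=
  rfl
theorem mul7 (x y : Oct R) : (x * y) 7 =
  x 0 * y 7 - x 1 * y 6 + x 2 * y 5 + x 3 * y 4 - x 4 * y 3 - x 5 * y 2 + x 6 * y 1 + x 7 * y 0 :=
  rfl

omit [CommRing R] in
theorem ext8 {x y : Oct R} (h0 : x 0 = y 0) (h1 : x 1 = y 1) (h2 : x 2 = y 2) (h3 : x 3 = y 3)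
    (h4 : x 4 = y 4) (h5 : x 5 = y 5) (h6 : x 6 = y 6) (h7 : x 7 = y 7) : x = y := by
  funext i
  fin_cases i
  exacts [h0, h1, h2, h3, h4, h5, h6, h7]

theorem add_ap (x y : Oct R) (i : Fin 8) : (x + y) i = x i + y i := rfl
theorem zero_ap (i : Fin 8) : (0 : Oct R) i = 0 := rfl
theorem smul_ap (c : R) (x : Oct R) (i : Fin 8) : (c • x) i = c * x i := rfl

instance : NonUnitalNonAssocRing (Oct R) :=
  { (inferInstance : AddCommGroup (Oct R)) with
    mul := fun x y => x * y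
    left_distrib := by
      intro x y z
      change x * (y + z) = x * y + x * z
      apply ext8 <;>
        simp only [mul0, mul1, mul2, mul3, mul4, mul5, mul6, mul7, add_ap] <;> ring
    right_distrib := by
      intro x y z
      change (x + y) * z = x * z + y * z
      apply ext8 <;>
        simp only [mul0, mul1, mul2, mul3, mul4, mul5, mul6, mul7, add_ap] <;> ring
    zero_mul := by
      intro x
      change (0 : Oct R) * x = 0
      apply ext8 <;>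
        simp only [mul0, mul1, mul2, mul3, mul4, mul5, mul6, mul7, zero_ap] <;> ring
    mul_zero := by
      intro x
      change x * (0 : Oct R) = 0
      apply ext8 <;>
        simp only [mul0, mul1, mul2, mul3, mul4, mul5, mul6, mul7, zero_ap] <;> ring }

instance : IsScalarTower R (Oct R) (Oct R) := ⟨by
  intro c x y
  change (c • x) * y = c • (x * y)
  apply ext8 <;>
    simp only [smul_ap, mul0, mul1, mul2, mul3, mul4, mul5, mul6, mul7] <;> ring⟩

instance : SMulCommClass R (Oct R) (Oct R) := ⟨by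
  intro c x y
  change c • (x * y) = x * (c • y)
  apply ext8 <;>
    simp only [smul_ap, mul0, mul1, mul2, mul3, mul4, mul5, mul6, mul7] <;> ring⟩

theorem left_alt (a b : Oct R) : (a * a) * b = a * (a * b) := by
  apply ext8 <;>
    simp only [mul0, mul1, mul2, mul3, mul4, mul5, mul6, mul7] <;> ring

theorem right_alt (a b : Oct R) : (b * a) * a = b * (a * a) := by
  apply ext8 <;>
    simp only [mul0, mul1, mul2, mul3, mul4, mul5, mul6, mul7] <;> ring

/-- coordinates as linear maps -/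
def coord (i : Fin 8) : Oct R →ₗ[R] R where
  toFun x := x i
  map_add' _ _ := rfl
  map_smul' _ _ := rfl

end Oct

/-! ### integer computations -/

/-- integral octonions, for computations -/
structure Z8 where
  c0 : ℤ
  c1 : ℤ
  c2 : ℤ
  c3 : ℤ
  c4 : ℤ
  c5 : ℤ
  c6 : ℤ
  c7 : ℤ
  deriving DecidableEq

def Z8.mul (x y : Z8) : Z8 := ⟨
  x.c0 * y.c0 - x.c1 * y.c1 - x.c2 * y.c2 - x.c3 * y.c3 - x.c4 * y.c4 - x.c5 * y.c5 - x.c6 * y.c6 - x.c7 * y.c7,
  x.c0 * y.c1 + x.c1 * y.c0 + x.c2 * y.c3 - x.c3 * y.c2 + x.c4 * y.c5 - x.c5 * y.c4 - x.c6 * y.c7 + x.c7 * y.c6,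
  x.c0 * y.c2 - x.c1 * y.c3 + x.c2 * y.c0 + x.c3 * y.c1 + x.c4 * y.c6 + x.c5 * y.c7 - x.c6 * y.c4 - x.c7 * y.c5,
  x.c0 * y.c3 + x.c1 * y.c2 - x.c2 * y.c1 + x.c3 * y.c0 + x.c4 * y.c7 - x.c5 * y.c6 + x.c6 * y.c5 - x.c7 * y.c4,
  x.c0 * y.c4 - x.c1 * y.c5 - x.c2 * y.c6 - x.c3 * y.c7 + x.c4 * y.c0 + x.c5 * y.c1 + x.c6 * y.c2 + x.c7 * y.c3,
  x.c0 * y.c5 + x.c1 * y.c4 - x.c2 * y.c7 + x.c3 * y.c6 - x.c4 * y.c1 + x.c5 * y.c0 - x.c6 * y.c3 + x.c7 * y.c2,
  x.c0 * y.c6 + x.c1 * y.c7 + x.c2 * y.c4 - x.c3 * y.c5 - x.c4 * y.c2 + x.c5 * y.c3 + x.c6 * y.c0 - x.c7 * y.c1,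
  x.c0 * y.c7 - x.c1 * y.c6 + x.c2 * y.c5 + x.c3 * y.c4 - x.c4 * y.c3 - x.c5 * y.c2 + x.c6 * y.c1 + x.c7 * y.c0⟩

/-- coordinates by number -/
def Z8.at (x : Z8) : ℕ → ℤ
  | 0 => x.c0
  | 1 => x.c1
  | 2 => x.c2
  | 3 => x.c3
  | 4 => x.c4
  | 5 => x.c5
  | 6 => x.c6
  | _ => x.c7

/-- the octonion with given integer coordinates -/
def Z8.oct (R : Type*) [CommRing R] (x : Z8) : Oct R :=
  ![(x.c0 : R), (x.c1 : R), (x.c2 : R), (x.c3 : R), (x.c4 : R), (x.c5 : R), (x.c6 : R), (x.c7 : R)]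

theorem Z8.oct_mul (R : Type*) [CommRing R] (x y : Z8) :
    (x.mul y).oct R = x.oct R * y.oct R := by
  apply Oct.ext8
  · rw [Oct.mul0]
    change ((x.mul y).c0 : R) = x.c0 * y.c0 - x.c1 * y.c1 - x.c2 * y.c2 - x.c3 * y.c3 - x.c4 * y.c4 - x.c5 * y.c5 - x.c6 * y.c6 - x.c7 * y.c7
    rw [Z8.mul]
    push_cast
    ring
  · rw [Oct.mul1]
    change ((x.mul y).c1 : R) = x.c0 * y.c1 + x.c1 * y.c0 + x.c2 * y.c3 - x.c3 * y.c2 + x.c4 * y.c5 - x.c5 * y.c4 - x.c6 * y.c7 + x.c7 * y.c6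
    rw [Z8.mul]
    push_cast
    ring
  · rw [Oct.mul2]
    change ((x.mul y).c2 : R) = x.c0 * y.c2 - x.c1 * y.c3 + x.c2 * y.c0 + x.c3 * y.c1 + x.c4 * y.c6 + x.c5 * y.c7 - x.c6 * y.c4 - x.c7 * y.c5
    rw [Z8.mul]
    push_cast
    ring
  · rw [Oct.mul3]
    change ((x.mul y).c3 : R) = x.c0 * y.c3 + x.c1 * y.c2 - x.c2 * y.c1 + x.c3 * y.c0 + x.c4 * y.c7 - x.c5 * y.c6 + x.c6 * y.c5 - x.c7 * y.c4
    rw [Z8.mul]
    push_cast
    ring
  · rw [Oct.mul4]
    change ((x.mul y).c4 : R) = x.c0 * y.c4 - x.c1 * y.c5 - x.c2 * y.c6 - x.c3 * y.c7 + x.c4 * y.c0 + x.c5 * y.c1 + x.c6 * y.c2 + x.c7 * y.c3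
    rw [Z8.mul]
    push_cast
    ring
  · rw [Oct.mul5]
    change ((x.mul y).c5 : R) = x.c0 * y.c5 + x.c1 * y.c4 - x.c2 * y.c7 + x.c3 * y.c6 - x.c4 * y.c1 + x.c5 * y.c0 - x.c6 * y.c3 + x.c7 * y.c2
    rw [Z8.mul]
    push_cast
    ring
  · rw [Oct.mul6]
    change ((x.mul y).c6 : R) = x.c0 * y.c6 + x.c1 * y.c7 + x.c2 * y.c4 - x.c3 * y.c5 - x.c4 * y.c2 + x.c5 * y.c3 + x.c6 * y.c0 - x.c7 * y.c1
    rw [Z8.mul]
    push_cast
    ring
  · rw [Oct.mul7]
    change ((x.mul y).c7 : R) = x.c0 * y.c7 - x.c1 * y.c6 + x.c2 * y.c5 + x.c3 * y.c4 - x.c4 * y.c3 - x.c5 * y.c2 + x.c6 * y.c1 + x.c7 * y.c0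
    rw [Z8.mul]
    push_cast
    ring

/-- evaluation of words at integral points -/
def evZ (p : Z8 × Z8 × Z8) : FreeMagma (Fin 3) → Z8
  | .of i => match i with
    | 0 => p.1
    | 1 => p.2.1
    | 2 => p.2.2
  | .mul u v => (evZ p u).mul (evZ p v)

def genO (R : Type*) [CommRing R] (p : Z8 × Z8 × Z8) : Fin 3 → Oct R
  | 0 => p.1.oct R
  | 1 => p.2.1.oct R
  | 2 => p.2.2.oct R

theorem evw_genO (R : Type*) [CommRing R] (p : Z8 × Z8 × Z8) :
    ∀ w : FreeMagma (Fin 3), evw (genO R p) w = (evZ p w).oct R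
  | .of i => by
      fin_cases i <;> rfl
  | .mul u v => by
      rw [evw, evZ, Z8.oct_mul, evw_genO R p u, evw_genO R p v]

/-! ### data -/

def o (i : Fin 3) : FreeMagma (Fin 3) := FreeMagma.of i
def m (u v : FreeMagma (Fin 3)) : FreeMagma (Fin 3) := FreeMagma.mul u v

/-- the thirteen trees -/
def trL : List (FreeMagma (Fin 3)) :=
  [(m (m (m (o 0) (m (m (o 2) (m (o 1) (o 1))) (o 1))) (o 0)) (o 0)),
   (m (m (o 0) (m (o 2) (m (o 1) (m (o 1) (m (o 0) (o 0)))))) (o 1)),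
   (m (o 1) (m (m (m (o 0) (o 1)) (o 0)) (m (m (o 1) (o 2)) (o 0)))),
   (m (o 1) (m (m (m (o 0) (m (m (o 0) (o 1)) (o 0))) (o 2)) (o 1))),
   (m (m (o 0) (m (o 1) (m (o 0) (m (m (o 2) (o 1)) (o 1))))) (o 0)),
   (m (m (m (o 0) (m (o 2) (m (o 1) (o 0)))) (o 1)) (m (o 0) (o 1))),
   (m (m (o 1) (o 0)) (m (o 0) (m (m (o 0) (m (o 1) (o 2))) (o 1)))),
   (m (o 0) (m (m (m (o 1) (o 0)) (o 2)) (m (m (o 1) (o 0)) (o 1)))),
   (m (m (o 1) (m (m (o 0) (m (o 0) (o 1))) (o 0))) (m (o 1) (o 2))),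
   (m (o 1) (m (m (m (m (o 1) (m (o 1) (o 0))) (o 0)) (o 2)) (o 0))),
   (m (m (m (o 0) (o 1)) (m (o 1) (o 0))) (m (m (o 2) (o 0)) (o 1))),
   (m (m (m (o 0) (m (o 0) (m (o 2) (o 1)))) (m (o 1) (o 0))) (o 1)),
   (m (o 0) (m (m (m (o 2) (m (m (o 0) (o 1)) (o 1))) (o 1)) (o 0)))]

/-- their words -/
def lwL : List (List (Fin 3)) :=
  [[0, 2, 1, 1, 1, 0, 0],
   [0, 2, 1, 1, 0, 0, 1],
   [1, 0, 1, 0, 1, 2, 0],
   [1, 0, 0, 1, 0, 2, 1],
   [0, 1, 0, 2, 1, 1, 0],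
   [0, 2, 1, 0, 1, 0, 1],
   [1, 0, 0, 0, 1, 2, 1],
   [0, 1, 0, 2, 1, 0, 1],
   [1, 0, 0, 1, 0, 1, 2],
   [1, 1, 1, 0, 0, 2, 0],
   [0, 1, 1, 0, 2, 0, 1],
   [0, 0, 2, 1, 1, 0, 1],
   [0, 2, 0, 1, 1, 1, 0]]

/-- the five points -/
def ptL : List (Z8 × Z8 × Z8) :=
  [(⟨1, 0, 0, 0, 0, 0, 0, -1⟩, ⟨-1, 0, 0, 0, 0, 0, -1, 0⟩, ⟨0, 1, 0, 1, 0, 0, 0, 0⟩),
   (⟨0, 1, 1, 0, 0, 0, 0, 0⟩, ⟨1, 1, 0, 0, 0, 0, 0, 0⟩, ⟨-1, 0, 0, 0, -1, 0, 0, 0⟩),
   (⟨-1, 0, -1, 0, 0, 0, 0, 0⟩, ⟨0, 1, -1, 0, 0, 0, 0, 0⟩, ⟨0, 0, 0, -1, 0, 1, 0, 0⟩),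
   (⟨0, 0, 0, 0, -1, 0, -1, 0⟩, ⟨0, -1, 0, 0, -1, 0, 0, 0⟩, ⟨0, 0, 0, 0, -1, 0, 0, -1⟩),
   (⟨-1, 0, 0, 1, 0, 0, 0, 0⟩, ⟨0, 0, 0, 0, 0, 0, 1, 0⟩, ⟨0, 0, 0, 0, 0, 0, 0, 1⟩)]

/-- the thirteen functionals: point and coordinate -/
def coL : List (ℕ × ℕ) :=
  [(4, 1), (4, 2), (0, 2), (1, 6), (0, 4), (0, 3), (2, 6), (0, 5), (1, 7), (1, 5), (2, 4), (3, 2), (1, 4)]

def matL : List (List ℤ) :=
  [[4, 4, 8, 0, 0, 0, -8, -8, 0, 0, 8, 0, 0],
   [0, -4, 0, 8, 8, 0, 8, 0, 0, 0, 0, -8, 0],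
   [0, -4, 4, -4, -4, 4, 4, 4, -4, 4, -4, -8, -4],
   [0, 0, 0, 8, 0, 0, 0, 0, 8, 0, 8, 0, 0],
   [0, -4, 0, 8, 0, 0, 8, -8, 8, -8, 0, -8, 0],
   [0, 0, 4, -4, 12, -4, 4, -4, -4, 4, 4, -8, -4],
   [4, -4, 4, -4, 4, -4, 4, 4, 12, -4, 4, 8, 4],
   [4, 4, 0, 8, 0, 0, -8, 0, 0, -8, 8, 0, 0],
   [0, 0, 0, -8, 0, 0, 0, 0, 8, 0, -8, 0, 0],
   [0, 0, 8, -8, 8, 0, 0, 0, -8, 0, 0, 0, 0],
   [-4, 0, 0, 0, -8, 0, 0, 0, 0, 8, -8, 8, 0],
   [0, 0, 8, 0, 8, 8, 0, -8, 0, 0, 0, 0, 0],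
   [0, 0, 8, 8, -8, 0, 0, 0, -8, 0, 0, 0, 0]]

def invL : List (List ℤ) :=
  [[0, 0, 0, -4, -2, 2, 2, 0, 0, -6, -2, 2, 2],
   [-4, -4, -4, 0, -4, 4, 0, -4, 4, -8, -8, 4, 8],
   [0, 0, 0, 1, 0, 0, 0, 0, 1, 1, 0, 0, 1],
   [0, 1, 0, 0, 0, 0, 0, 1, 0, 0, 1, 0, 0],
   [0, 1, 0, 0, 0, 0, 0, 1, 0, 1, 1, 0, -1],
   [-1, -1, 0, 0, -1, 0, 0, -1, 0, -2, -2, 2, 1],
   [-3, -3, -2, -1, -2, 3, 1, -3, 1, -6, -5, 3, 5],
   [-1, 0, 0, 1, -1, 0, 0, 0, 1, 0, -1, 0, 1],
   [0, 0, 0, 1, 0, 0, 0, 0, 1, 0, 0, 0, 0],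
   [1, 1, 0, 0, -1, 0, 0, -1, 0, -1, 0, 0, 0],
   [0, -1, 0, 1, 0, 0, 0, -1, -1, 0, -1, 0, 0],
   [-1, -1, 0, -1, 0, 1, 1, 1, -1, -1, 1, 1, 0],
   [2, 2, -2, 1, -1, -3, -1, -4, 1, 1, -3, -1, 1]]

def tr (j : Fin 13) : FreeMagma (Fin 3) := trL.getD j.1 (o 0)
def lw (j : Fin 13) : List (Fin 3) := lwL.getD j.1 []
def pt (i : Fin 13) : Z8 × Z8 × Z8 :=
  ptL.getD (coL.getD i.1 (0, 0)).1 (⟨0, 0, 0, 0, 0, 0, 0, 0⟩, ⟨0, 0, 0, 0, 0, 0, 0, 0⟩,
    ⟨0, 0, 0, 0, 0, 0, 0, 0⟩)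
def co (i : Fin 13) : ℕ := (coL.getD i.1 (0, 0)).2
def mat (j i : Fin 13) : ℤ := (matL.getD j.1 []).getD i.1 0
def inv' (i l : Fin 13) : ℤ := (invL.getD i.1 []).getD l.1 0

theorem co_lt : ∀ i, co i < 8 := by decide

theorem toL_tr : ∀ j, toL (tr j) = lw j := by decide

theorem lw_ne : ∀ j, lw j ≠ [] := by decide

theorem lw_count : ∀ j, (lw j).count 0 = 3 ∧ (lw j).count 1 = 3 ∧ (lw j).count 2 = 1 := by decide

set_option maxRecDepth 100000 in
theorem mat_eq : ∀ j i, (evZ (pt i) (tr j)).at (co i) - (evZ (pt i) (rn (lw j))).at (co i)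
    = mat j i := by decide +kernel

theorem mat_inv : ∀ j l, ∑ i, mat j i * inv' i l = if j = l then 16 else 0 := by decide +kernel

/-- all associative words with prescribed numbers of letters -/
def wds : ℕ → ℕ → ℕ → ℕ → List (List (Fin 3))
  | 0, _, _, _ => [[]]
  | n + 1, a, b, c =>
      (if a = 0 then [] else (wds n (a - 1) b c).map (fun l => 0 :: l)) ++
      (if b = 0 then [] else (wds n a (b - 1) c).map (fun l => 1 :: l)) ++
      (if c = 0 then [] else (wds n a b (c - 1)).map (fun l => 2 :: l))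

def W : List (List (Fin 3)) := wds 7 3 3 1

theorem W_length : W.length = 140 := by decide +kernel
theorem W_nodup : W.Nodup := by decide +kernel
theorem W_ne : ∀ l ∈ W, l ≠ [] := by decide +kernel
theorem W_count : ∀ l ∈ W, l.count 0 = 3 ∧ l.count 1 = 3 ∧ l.count 2 = 1 := by decide +kernel

/-! ### the bound -/

section Bound

variable (k : Type*) [Field k]

/-- the linear functional `α_i` -/
noncomputable def fnl (i : Fin 13) : Alt k →ₗ[k] k :=
  (Oct.coord (R := k) ⟨co i, co_lt i⟩).comp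
    (toAlt (A := Oct k) Oct.left_alt Oct.right_alt (genO k (pt i)))

theorem oct_apply (x : Z8) (i : ℕ) (hi : i < 8) : (x.oct k) ⟨i, hi⟩ = ((x.at i : ℤ) : k) := by
  interval_cases i <;> rfl

theorem fnl_cls (i : Fin 13) (w : FreeMagma (Fin 3)) :
    fnl k i (cls k w) = (((evZ (pt i) w).at (co i) : ℤ) : k) := by
  rw [fnl, LinearMap.comp_apply, toAlt_cls, evw_genO]
  exact oct_apply k _ _ _

/-- the thirteen elements of the associator ideal -/
noncomputable def dd (j : Fin 13) : Alt k := cls k (tr j) - cls k (rn (lw j))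

theorem fnl_dd (i j : Fin 13) : fnl k i (dd k j) = ((mat j i : ℤ) : k) := by
  rw [dd, map_sub, fnl_cls, fnl_cls, ← mat_eq j i]
  push_cast
  rfl

theorem linearIndependent_dd [CharZero k] : LinearIndependent k (dd k) := by
  rw [Fintype.linearIndependent_iff]
  intro g hg l
  have h1 : ∀ i, ∑ j, g j * ((mat j i : ℤ) : k) = 0 := by
    intro i
    have := congrArg (fnl k i) hg
    rw [map_sum, map_zero] at this
    rw [← this]
    apply Finset.sum_congr rfl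
    intro j _
    rw [map_smul, fnl_dd, smul_eq_mul]
  have h2 : ∑ i, (∑ j, g j * ((mat j i : ℤ) : k)) * ((inv' i l : ℤ) : k) = 0 := by
    apply Finset.sum_eq_zero
    intro i _
    rw [h1 i, zero_mul]
  have h3 : ∑ i, (∑ j, g j * ((mat j i : ℤ) : k)) * ((inv' i l : ℤ) : k) =
      ∑ j, g j * ((∑ i, mat j i * inv' i l : ℤ) : k) := by
    simp_rw [Finset.sum_mul]
    rw [Finset.sum_comm]
    apply Finset.sum_congr rfl
    intro j _
    push_cast
    rw [Finset.mul_sum]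
    apply Finset.sum_congr rfl
    intro i _
    ring
  rw [h3] at h2
  have h4 : ∑ j, g j * ((∑ i, mat j i * inv' i l : ℤ) : k) = g l * 16 := by
    rw [Finset.sum_eq_single l]
    · rw [mat_inv l l, if_pos rfl]
      push_cast
      rfl
    · intro j _ hj
      rw [mat_inv j l, if_neg hj]
      simp
    · intro h
      exact absurd (Finset.mem_univ l) h
  rw [h4] at h2
  exact (mul_eq_zero.1 h2).resolve_right (by norm_num)

theorem cls_mem {w : FreeMagma (Fin 3)} {μ : Deg} (h : mdeg w = μ) : cls k w ∈ altPiece k μ :=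
  Submodule.subset_span ⟨w, h, rfl⟩

theorem mdeg_of_count {w : FreeMagma (Fin 3)} {l : List (Fin 3)} (hw : toL w = l)
    (hl : l.count 0 = 3 ∧ l.count 1 = 3 ∧ l.count 2 = 1) : mdeg w = deg 3 3 1 := by
  rw [mdeg_eq, hw, hl.1, hl.2.1, hl.2.2]

theorem dd_mem (j : Fin 13) : dd k j ∈ altPiece k (deg 3 3 1) := by
  apply Submodule.sub_mem
  · exact cls_mem k (mdeg_of_count (toL_tr j) (lw_count j))
  · exact cls_mem k (mdeg_of_count (toL_rn _ (lw_ne j)) (lw_count j))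

theorem asc_dd (j : Fin 13) : asc k (dd k j) = 0 := by
  rw [dd, map_sub, asc_cls, asc_cls, toL_tr, toL_rn _ (lw_ne j), sub_self]

/-- the map to the free associative algebra on the component -/
noncomputable def ascP : altPiece k (deg 3 3 1) →ₗ[k] FA k :=
  (asc k).comp (altPiece k (deg 3 3 1)).subtype

theorem ker_ge [CharZero k] : 13 ≤ Module.finrank k (LinearMap.ker (ascP k)) := by
  have := finiteDimensional_altPiece k (deg 3 3 1)
  let v : Fin 13 → LinearMap.ker (ascP k) := fun j => ⟨⟨dd k j, dd_mem k j⟩, by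
    rw [LinearMap.mem_ker, ascP, LinearMap.comp_apply]
    exact asc_dd k j⟩
  have hv : LinearIndependent k v := by
    apply LinearIndependent.of_comp
      ((altPiece k (deg 3 3 1)).subtype.comp (LinearMap.ker (ascP k)).subtype)
    exact linearIndependent_dd k
  have := hv.fintype_card_le_finrank
  rwa [Fintype.card_fin] at this

theorem range_ge : 140 ≤ Module.finrank k (LinearMap.range (ascP k)) := by
  have := finiteDimensional_altPiece k (deg 3 3 1)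
  have hmem : ∀ i : Fin W.length,
      (MonoidAlgebra.single (FreeMonoid.ofList (W.get i)) 1 : FA k) ∈
        LinearMap.range (ascP k) := by
    intro i
    have hi : W.get i ∈ W := List.get_mem W i
    refine ⟨⟨cls k (rn (W.get i)), cls_mem k (mdeg_of_count (toL_rn _ (W_ne _ hi))
      (W_count _ hi))⟩, ?_⟩
    rw [ascP, LinearMap.comp_apply]
    change asc k (cls k (rn (W.get i))) = _
    rw [asc_cls, toL_rn _ (W_ne _ hi)]
  let v : Fin W.length → LinearMap.range (ascP k) := fun i => ⟨_, hmem i⟩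
  have hv : LinearIndependent k v := by
    classical
    apply LinearIndependent.of_comp (LinearMap.range (ascP k)).subtype
    rw [Fintype.linearIndependent_iff]
    intro g hg j
    have h1 := congrArg (fun x : FA k => x.coeff (FreeMonoid.ofList (W.get j))) hg
    simp only [Function.comp_apply, Submodule.subtype_apply, v, MonoidAlgebra.smul_single,
      MonoidAlgebra.coeff_sum, MonoidAlgebra.coeff_single, Finsupp.finsetSum_apply,
      Finsupp.single_apply, smul_eq_mul, mul_one, MonoidAlgebra.coeff_zero,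
      Finsupp.coe_zero, Pi.zero_apply] at h1
    rw [Finset.sum_eq_single j] at h1
    · simpa using h1
    · intro i _ hij
      rw [if_neg]
      intro h
      apply hij
      have h' : W.get i = W.get j := FreeMonoid.ofList.injective h
      exact (List.nodup_iff_injective_get.1 W_nodup) h'
    · intro h
      exact absurd (Finset.mem_univ j) h
  have := hv.fintype_card_le_finrank
  rwa [Fintype.card_fin, W_length] at this

theorem charAlt_ge [CharZero k] : 153 ≤ charAlt k (deg 3 3 1) := by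
  have := finiteDimensional_altPiece k (deg 3 3 1)
  have h := LinearMap.finrank_range_add_finrank_ker (ascP k)
  have h1 := range_ge k
  have h2 := ker_ge k
  rw [charAlt, ← h]
  omega

end Bound

end Run7.h187.Sh
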