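import Mathlib

set_option autoImplicit false

/-!
Algebraic entropy of endomorphisms of abelian groups (Weiss), and the proof that a continuous
endomorphism of a compact Hausdorff torsion abelian group has algebraic entropy zero or infinity.
-/

namespace Run7.h187.Ent

open Filter Topology

variable {G : Type*} [AddCommGroup G]

/-- The iterates `φ^n` of an endomorphism. -/
def it (φ : G →+ G) : ℕ → (G →+ G)
  | 0 => AddMonoidHom.id G
  | n + 1 => (it φ n).comp φ

lemma it_add (φ : G →+ G) (m n : ℕ) : it φ (m + n) = (it φ m).comp (it φ n) := by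
  induction n with
  | zero => rfl
  | succ n ih =>
    show (it φ (m + n)).comp φ = (it φ m).comp ((it φ n).comp φ)
    rw [ih]; rfl

lemma it_succ' (φ : G →+ G) (n : ℕ) (x : G) : φ (it φ n x) = it φ (n + 1) x := by
  have h := it_add φ 1 n
  rw [add_comm] at h
  rw [h]; rfl

/-- The `n`-th partial trajectory `F + φ(F) + ... + φ^(n-1)(F)`. -/
def T (φ : G →+ G) (F : AddSubgroup G) (n : ℕ) : AddSubgroup G :=
  ⨆ i : Fin n, F.map (it φ (i : ℕ))

/-- `H(φ, F) = lim log |T_n(φ, F)| / n` (as a limsup; see `tendsto_H`). -/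
noncomputable def H (φ : G →+ G) (F : AddSubgroup G) : ℝ :=
  limsup (fun n : ℕ => Real.log (Nat.card (T φ F n)) / n) atTop

/-- The algebraic entropy: the supremum of `H(φ, F)` over the finite subgroups `F`. -/
noncomputable def ent (φ : G →+ G) : ENNReal :=
  ⨆ F : {F : AddSubgroup G // Finite F}, ENNReal.ofReal (H φ F.1)

lemma T_succ (φ : G →+ G) (F : AddSubgroup G) (n : ℕ) :
    T φ F (n + 1) = T φ F n ⊔ F.map (it φ n) := by
  unfold T
  apply le_antisymm
  · refine iSup_le fun i => ?_
    rcases Nat.lt_succ_iff_lt_or_eq.mp i.2 with h | h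
    · exact le_trans (le_iSup (fun i : Fin n => F.map (it φ (i : ℕ))) ⟨i, h⟩) le_sup_left
    · rw [h]; exact le_sup_right
  · refine sup_le (iSup_le fun i => ?_) ?_
    · exact le_iSup (fun i : Fin (n + 1) => F.map (it φ (i : ℕ))) ⟨i, by omega⟩
    · exact le_iSup (fun i : Fin (n + 1) => F.map (it φ (i : ℕ))) ⟨n, by omega⟩

lemma T_zero (φ : G →+ G) (F : AddSubgroup G) : T φ F 0 = ⊥ := by
  unfold T; simp

lemma T_mono (φ : G →+ G) (F : AddSubgroup G) : Monotone (T φ F) :=
  monotone_nat_of_le_succ fun n => by rw [T_succ]; exact le_sup_left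

lemma T_mono_left (φ : G →+ G) {F F' : AddSubgroup G} (h : F ≤ F') (n : ℕ) :
    T φ F n ≤ T φ F' n := by
  unfold T
  exact iSup_mono fun i => AddSubgroup.map_mono h

lemma map_le_T (φ : G →+ G) (F : AddSubgroup G) {i n : ℕ} (h : i < n) :
    F.map (it φ i) ≤ T φ F n :=
  le_iSup (fun i : Fin n => F.map (it φ (i : ℕ))) ⟨i, h⟩

lemma finite_sup {A B : AddSubgroup G} (hA : Finite A) (hB : Finite B) :
    Finite (A ⊔ B : AddSubgroup G) := by
  have h : ((A ⊔ B : AddSubgroup G) : Set G) ⊆ Set.image2 (· + ·) (A : Set G) (B : Set G) := by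
    intro x hx
    rcases AddSubgroup.mem_sup.mp hx with ⟨a, ha, b, hb, rfl⟩
    exact ⟨a, ha, b, hb, rfl⟩
  exact ((Set.Finite.image2 _ (Set.toFinite _) (Set.toFinite _)).subset h).to_subtype

lemma finite_map {A : AddSubgroup G} (hA : Finite A) (f : G →+ G) : Finite (A.map f) := by
  have : Finite ((A.map f : AddSubgroup G) : Set G) := by
    rw [AddSubgroup.coe_map]
    exact (Set.Finite.image _ (Set.toFinite _)).to_subtype
  exact this

lemma finite_T (φ : G →+ G) {F : AddSubgroup G} (hF : Finite F) (n : ℕ) :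
    Finite (T φ F n) := by
  induction n with
  | zero => rw [T_zero]; infer_instance
  | succ n ih => rw [T_succ]; exact finite_sup ih (finite_map hF _)

lemma card_sup_le {A B : AddSubgroup G} (hA : Finite A) (hB : Finite B) :
    Nat.card (A ⊔ B : AddSubgroup G) ≤ Nat.card A * Nat.card B := by
  rw [← Nat.card_prod]
  refine Nat.card_le_card_of_surjective
    (fun p : A × B => (⟨p.1.1 + p.2.1, AddSubgroup.add_mem_sup p.1.2 p.2.2⟩ :
      (A ⊔ B : AddSubgroup G))) ?_
  rintro ⟨x, hx⟩
  rcases AddSubgroup.mem_sup.mp hx with ⟨a, ha, b, hb, rfl⟩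
  exact ⟨(⟨a, ha⟩, ⟨b, hb⟩), rfl⟩

lemma card_map_le {A : AddSubgroup G} (hA : Finite A) (f : G →+ G) :
    Nat.card (A.map f) ≤ Nat.card A := by
  refine Nat.card_le_card_of_surjective
    (fun a : A => (⟨f a.1, AddSubgroup.mem_map_of_mem f a.2⟩ : A.map f)) ?_
  rintro ⟨x, hx⟩
  rcases hx with ⟨a, ha, rfl⟩
  exact ⟨⟨a, ha⟩, rfl⟩

lemma T_add (φ : G →+ G) (F : AddSubgroup G) (m n : ℕ) :
    T φ F (m + n) ≤ T φ F m ⊔ (T φ F n).map (it φ m) := by
  unfold T
  refine iSup_le fun i => ?_
  by_cases h : (i : ℕ) < m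
  · exact le_trans (le_iSup (fun i : Fin m => F.map (it φ (i : ℕ))) ⟨i, h⟩) le_sup_left
  · refine le_trans ?_ le_sup_right
    have h2 : F.map (it φ (i : ℕ)) = (F.map (it φ ((i : ℕ) - m))).map (it φ m) := by
      rw [AddSubgroup.map_map, ← it_add]
      congr 2
      omega
    rw [h2]
    apply AddSubgroup.map_mono
    exact le_iSup (fun i : Fin n => F.map (it φ (i : ℕ))) ⟨(i : ℕ) - m, by omega⟩

lemma one_le_card {A : AddSubgroup G} (hA : Finite A) : 1 ≤ Nat.card A :=
  Nat.card_pos

lemma card_mono {A B : AddSubgroup G} (hB : Finite B) (h : A ≤ B) :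
    Nat.card A ≤ Nat.card B :=
  Nat.card_le_card_of_injective (AddSubgroup.inclusion h) (AddSubgroup.inclusion_injective h)

lemma subadd (φ : G →+ G) {F : AddSubgroup G} (hF : Finite F) :
    Subadditive (fun n : ℕ => Real.log (Nat.card (T φ F n))) := by
  intro m n
  have h1 := finite_T φ hF m
  have h2 := finite_T φ hF n
  have h3 := finite_T φ hF (m + n)
  have h4 : Nat.card (T φ F (m + n)) ≤ Nat.card (T φ F m) * Nat.card (T φ F n) := by
    calc Nat.card (T φ F (m + n)) ≤
          Nat.card (T φ F m ⊔ (T φ F n).map (it φ m) : AddSubgroup G) :=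
          card_mono (finite_sup h1 (finite_map h2 _)) (T_add φ F m n)
      _ ≤ Nat.card (T φ F m) * Nat.card ((T φ F n).map (it φ m)) :=
          card_sup_le h1 (finite_map h2 _)
      _ ≤ _ := Nat.mul_le_mul_left _ (card_map_le h2 _)
  have p1 : (0 : ℝ) < Nat.card (T φ F m) := by exact_mod_cast one_le_card h1
  have p2 : (0 : ℝ) < Nat.card (T φ F n) := by exact_mod_cast one_le_card h2
  have p3 : (0 : ℝ) < Nat.card (T φ F (m + n)) := by exact_mod_cast one_le_card h3
  rw [← Real.log_mul p1.ne' p2.ne']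
  apply Real.log_le_log p3
  exact_mod_cast h4

lemma bdd (φ : G →+ G) {F : AddSubgroup G} (hF : Finite F) :
    BddBelow (Set.range fun n : ℕ => Real.log (Nat.card (T φ F n)) / n) := by
  refine ⟨0, ?_⟩
  rintro _ ⟨n, rfl⟩
  have := one_le_card (finite_T φ hF n)
  apply div_nonneg _ (Nat.cast_nonneg n)
  apply Real.log_nonneg
  exact_mod_cast this

/-- The limit in the definition of `H` exists. -/
theorem tendsto_H (φ : G →+ G) {F : AddSubgroup G} (hF : Finite F) :
    Tendsto (fun n : ℕ => Real.log (Nat.card (T φ F n)) / n) atTop (𝓝 (H φ F)) := by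
  have h := (subadd φ hF).tendsto_lim (bdd φ hF)
  have : H φ F = (subadd φ hF).lim := h.limsup_eq
  rw [this]
  exact h

lemma H_nonneg (φ : G →+ G) {F : AddSubgroup G} (hF : Finite F) : 0 ≤ H φ F := by
  refine ge_of_tendsto' (tendsto_H φ hF) fun n => ?_
  have := one_le_card (finite_T φ hF n)
  apply div_nonneg _ (Nat.cast_nonneg n)
  apply Real.log_nonneg
  exact_mod_cast this

/-- If all trajectories of `F` stay in a finite subgroup then `H = 0`. -/
lemma H_eq_zero (φ : G →+ G) {F S : AddSubgroup G} (hF : Finite F) (hS : Finite S)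
    (h : ∀ n, T φ F n ≤ S) : H φ F = 0 := by
  refine tendsto_nhds_unique (tendsto_H φ hF) ?_
  have h1 : Tendsto (fun n : ℕ => Real.log (Nat.card S) / n) atTop (𝓝 0) :=
    tendsto_const_div_atTop_nhds_zero_nat _
  refine tendsto_of_tendsto_of_tendsto_of_le_of_le tendsto_const_nhds h1 (fun n => ?_)
    (fun n => ?_)
  · have := one_le_card (finite_T φ hF n)
    apply div_nonneg _ (Nat.cast_nonneg n)
    apply Real.log_nonneg
    exact_mod_cast this
  · have := one_le_card (finite_T φ hF n)
    have h2 : Nat.card (T φ F n) ≤ Nat.card S := card_mono hS (h n)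
    simp only
    gcongr

/-- the full trajectory -/
def W (φ : G →+ G) (F : AddSubgroup G) : AddSubgroup G := ⨆ n, T φ F n

lemma mem_W {φ : G →+ G} {F : AddSubgroup G} {x : G} :
    x ∈ W φ F ↔ ∃ n, x ∈ T φ F n := by
  unfold W
  exact AddSubgroup.mem_iSup_of_directed (T_mono φ F).directed_le

lemma countable_W (φ : G →+ G) {F : AddSubgroup G} (hF : Finite F) :
    Countable (W φ F) := by
  have h : ((W φ F : AddSubgroup G) : Set G) = ⋃ n, (T φ F n : Set G) := by
    ext x; simp [mem_W]
  have h2 : ((W φ F : AddSubgroup G) : Set G).Countable := by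
    rw [h]
    refine Set.countable_iUnion fun n => ?_
    have := finite_T φ hF n
    exact (Set.toFinite (T φ F n : Set G)).countable
  exact h2.to_subtype

/-- the span of `v, φ v, ..., φ^(n-1) v`, as a range. -/
lemma mem_T_zmultiples {φ : G →+ G} {v x : G} {n : ℕ}
    (h : x ∈ T φ (AddSubgroup.zmultiples v) n) :
    ∃ c : Fin n → ℤ, x = ∑ i, c i • it φ (i : ℕ) v := by
  induction n generalizing x with
  | zero =>
    rw [T_zero] at h
    exact ⟨Fin.elim0, by simpa using h⟩
  | succ n ih =>
    rw [T_succ] at h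
    rcases AddSubgroup.mem_sup.mp h with ⟨a, ha, b, hb, rfl⟩
    obtain ⟨c, hc⟩ := ih ha
    obtain ⟨z, hz, rfl⟩ := hb
    obtain ⟨k, rfl⟩ := AddSubgroup.mem_zmultiples_iff.mp hz
    refine ⟨Fin.snoc c k, ?_⟩
    rw [Fin.sum_univ_castSucc]
    simp [hc]

lemma it_mem_T {φ : G →+ G} {F : AddSubgroup G} {v : G} (hv : v ∈ F) {i n : ℕ}
    (h : i < n) : it φ i v ∈ T φ F n :=
  map_le_T φ F h (AddSubgroup.mem_map_of_mem _ hv)

/-- If `v` does not satisfy a monic relation modulo `W`, the trajectory grows by a factor `2` in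
each step. -/
lemma card_growth {φ : G →+ G} {F : AddSubgroup G} (hF : Finite F) {v : G}
    (hv : Finite (AddSubgroup.zmultiples v))
    (h : ∀ n, it φ n v ∉ W φ F ⊔ T φ (AddSubgroup.zmultiples v) n) (n : ℕ) :
    2 ^ n * Nat.card (T φ F n) ≤ Nat.card (T φ (F ⊔ AddSubgroup.zmultiples v) n) := by
  have hvF : v ∈ F ⊔ AddSubgroup.zmultiples v :=
    AddSubgroup.mem_sup_right (AddSubgroup.mem_zmultiples v)
  have hfin := finite_T φ (finite_sup hF hv) n
  have hfin2 := finite_T φ hF n
  have e : 2 ^ n * Nat.card (T φ F n) = Nat.card ((Fin n → Bool) × T φ F n) := by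
    rw [Nat.card_prod]; simp
  rw [e]
  let s : (Fin n → Bool) → G := fun ε => ∑ i, (if ε i then (1 : ℤ) else 0) • it φ (i : ℕ) v
  have hs : ∀ ε, s ε ∈ T φ (F ⊔ AddSubgroup.zmultiples v) n := by
    intro ε
    refine AddSubgroup.sum_mem _ fun i _ => AddSubgroup.zsmul_mem _ (it_mem_T hvF i.2) _
  refine Nat.card_le_card_of_injective
    (fun p : (Fin n → Bool) × T φ F n => (⟨s p.1 + p.2.1, AddSubgroup.add_mem _ (hs p.1)
      (T_mono_left φ le_sup_left n p.2.2)⟩ : T φ (F ⊔ AddSubgroup.zmultiples v) n)) ?_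
  rintro ⟨ε, w⟩ ⟨ε', w'⟩ heq
  have heq' : s ε + w.1 = s ε' + w'.1 := congrArg Subtype.val heq
  have key : ε = ε' := by
    by_contra hne
    have hex : (Finset.univ.filter fun i => ε i ≠ ε' i).Nonempty := by
      by_contra hem
      rw [Finset.not_nonempty_iff_eq_empty, Finset.filter_eq_empty_iff] at hem
      exact hne (funext fun i => by simpa using hem (Finset.mem_univ i))
    set j := (Finset.univ.filter fun i => ε i ≠ ε' i).max' hex with hj
    have hjne : ε j ≠ ε' j := (Finset.mem_filter.mp (Finset.max'_mem _ hex)).2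
    have hjmax : ∀ i, j < i → ε i = ε' i := by
      intro i hi
      by_contra hc
      have := Finset.le_max' (Finset.univ.filter fun i => ε i ≠ ε' i) i
        (Finset.mem_filter.mpr ⟨Finset.mem_univ _, hc⟩)
      exact absurd (lt_of_lt_of_le hi this) (lt_irrefl _)
    let d : Fin n → ℤ := fun i => (if ε i then (1 : ℤ) else 0) - (if ε' i then (1 : ℤ) else 0)
    have hsum : ∑ i, d i • it φ (i : ℕ) v = w'.1 - w.1 := by
      have : s ε - s ε' = w'.1 - w.1 := by
        rw [sub_eq_sub_iff_add_eq_add, add_comm (w'.1)]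
        exact heq'
      rw [← this]
      simp only [s, d, sub_smul, Finset.sum_sub_distrib]
    have hdj : d j = 1 ∨ d j = -1 := by
      simp only [d]
      cases h1 : ε j <;> cases h2 : ε' j <;> simp_all
    have hd0 : ∀ i, j < i → d i = 0 := by
      intro i hi
      simp only [d, hjmax i hi, sub_self]
    have hmem : d j • it φ (j : ℕ) v ∈ W φ F ⊔ T φ (AddSubgroup.zmultiples v) j := by
      have h3 : d j • it φ (j : ℕ) v = (w'.1 - w.1) -
          ∑ i ∈ Finset.univ.erase j, d i • it φ (i : ℕ) v := by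
        rw [← hsum, ← Finset.add_sum_erase Finset.univ _ (Finset.mem_univ j)]
        abel
      rw [h3]
      refine AddSubgroup.sub_mem _ (AddSubgroup.mem_sup_left ?_) (AddSubgroup.mem_sup_right ?_)
      · exact AddSubgroup.sub_mem _ (mem_W.mpr ⟨n, w'.2⟩) (mem_W.mpr ⟨n, w.2⟩)
      · refine AddSubgroup.sum_mem _ fun i hi => ?_
        rcases lt_trichotomy i j with hlt | heq | hgt
        · exact AddSubgroup.zsmul_mem _
            (it_mem_T (AddSubgroup.mem_zmultiples v) (by exact_mod_cast hlt)) _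
        · exact absurd heq (Finset.ne_of_mem_erase hi)
        · rw [hd0 i hgt, zero_smul]; exact AddSubgroup.zero_mem _
    refine h j ?_
    rcases hdj with h1 | h1
    · rwa [h1, one_smul] at hmem
    · rw [h1, neg_smul, one_smul] at hmem
      simpa using AddSubgroup.neg_mem _ hmem
  subst key
  have : w.1 = w'.1 := by simpa using heq'
  simp [Subtype.ext_iff, this]

/-- If adding `v` to `F` increases `H` by less than `log 2` then `v` satisfies a monic relation
modulo the full trajectory of `F`. -/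
lemma exists_relation {φ : G →+ G} {F : AddSubgroup G} (hF : Finite F) {v : G}
    (hv : Finite (AddSubgroup.zmultiples v))
    (h : H φ (F ⊔ AddSubgroup.zmultiples v) < H φ F + Real.log 2) :
    ∃ n, ∃ c : Fin n → ℤ, ∃ w ∈ W φ F, it φ n v - ∑ i, c i • it φ (i : ℕ) v = w := by
  by_contra hcon
  push Not at hcon
  have h0 : ∀ n, it φ n v ∉ W φ F ⊔ T φ (AddSubgroup.zmultiples v) n := by
    intro n hn
    rcases AddSubgroup.mem_sup.mp hn with ⟨w, hw, b, hb, hwb⟩
    obtain ⟨c, hc⟩ := mem_T_zmultiples hb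
    exact hcon n c w hw (by rw [← hc, ← hwb]; abel)
  have h1 := card_growth hF hv h0
  have hfin := finite_sup hF hv
  have h2 : Tendsto (fun n : ℕ => Real.log (Nat.card (T φ F n)) / n + Real.log 2) atTop
      (𝓝 (H φ F + Real.log 2)) := (tendsto_H φ hF).add tendsto_const_nhds
  have h3 := tendsto_H φ hfin
  have h4 : H φ F + Real.log 2 ≤ H φ (F ⊔ AddSubgroup.zmultiples v) := by
    refine le_of_tendsto_of_tendsto h2 h3 ?_
    filter_upwards [eventually_gt_atTop 0] with n hn
    have hn' : (0 : ℝ) < n := by exact_mod_cast hn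
    have p1 : (0 : ℝ) < Nat.card (T φ F n) := by
      exact_mod_cast one_le_card (finite_T φ hF n)
    have h5 : ((2 : ℝ) ^ n * Nat.card (T φ F n)) ≤
        Nat.card (T φ (F ⊔ AddSubgroup.zmultiples v) n) := by exact_mod_cast h1 n
    have h6 := Real.log_le_log (by positivity) h5
    rw [Real.log_mul (by positivity) p1.ne', Real.log_pow] at h6
    rw [div_add' _ _ _ hn'.ne', div_le_div_iff_of_pos_right hn']
    linarith
  linarith

/-- A continuous endomorphism of a compact Hausdorff torsion abelian group has algebraic entropy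
zero or infinity. -/
theorem zero_or_top [TopologicalSpace G] [IsTopologicalAddGroup G] [CompactSpace G] [T2Space G]
    (ht : ∀ g : G, IsOfFinAddOrder g) (φ : G →+ G) (hφ : Continuous φ) :
    ent φ = 0 ∨ ent φ = ⊤ := by
  by_cases htop : ent φ = ⊤
  · exact Or.inr htop
  left
  -- cyclic subgroups are finite
  have hz : ∀ v : G, Finite (AddSubgroup.zmultiples v) := fun v =>
    finite_zmultiples.mpr (ht v)
  have hlog : (0 : ℝ) < Real.log 2 := Real.log_pos (by norm_num)
  -- choose a nearly optimal finite subgroup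
  obtain ⟨F, hF, hopt⟩ : ∃ F : AddSubgroup G, Finite F ∧
      ∀ F' : AddSubgroup G, Finite F' → H φ F' < H φ F + Real.log 2 := by
    by_contra hcon
    push Not at hcon
    apply htop
    -- otherwise one can increase by `log 2` infinitely often
    have hex : ∀ k : ℕ, ∃ F : AddSubgroup G, Finite F ∧ k * Real.log 2 ≤ H φ F := by
      intro k
      induction k with
      | zero => exact ⟨⊥, inferInstance, by simpa using H_nonneg φ (inferInstance : Finite (⊥ : AddSubgroup G))⟩
      | succ k ih =>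
        obtain ⟨F, hF, hk⟩ := ih
        obtain ⟨F', hF', h'⟩ := hcon F hF
        exact ⟨F', hF', by push_cast; linarith⟩
    refine ENNReal.eq_top_of_forall_nnreal_le ?_
    intro r
    obtain ⟨k, hk⟩ := exists_nat_ge ((r : ℝ) / Real.log 2)
    obtain ⟨F, hF, hkF⟩ := hex k
    have h1 : (r : ℝ) ≤ H φ F := le_trans ((div_le_iff₀ hlog).mp hk) hkF
    refine le_trans ?_
      (le_iSup (fun F : {F : AddSubgroup G // Finite F} => ENNReal.ofReal (H φ F.1)) ⟨F, hF⟩)
    rw [← ENNReal.ofReal_coe_nnreal]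
    exact ENNReal.ofReal_le_ofReal h1
  -- countably many closed sets cover `G`
  have hW := countable_W φ hF
  have hpow : ∀ n : ℕ, Continuous (it φ n) := by
    intro n
    induction n with
    | zero => exact continuous_id
    | succ n ih => exact ih.comp hφ
  let P : (Σ n : ℕ, (Fin n → ℤ)) → (G →+ G) := fun p =>
    it φ p.1 - ∑ i, p.2 i • it φ (i : ℕ)
  have hP : ∀ p v, P p v = it φ p.1 v - ∑ i, p.2 i • it φ (i : ℕ) v := by
    intro p v
    simp [P]
  have hPc : ∀ p, Continuous (P p) := by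
    intro p
    have : (P p : G → G) = fun v => it φ p.1 v - ∑ i, p.2 i • it φ (i : ℕ) v :=
      funext (hP p)
    rw [this]
    exact (hpow _).sub (continuous_finsetSum _ fun i _ => (hpow i).zsmul _)
  have hcov : (⋃ q : (Σ n : ℕ, (Fin n → ℤ)) × W φ F, (P q.1) ⁻¹' {q.2.1}) = Set.univ := by
    ext v
    simp only [Set.mem_iUnion, Set.mem_preimage, Set.mem_singleton_iff, Set.mem_univ, iff_true]
    obtain ⟨n, c, w, hw, hrel⟩ := exists_relation hF (hz v) (hopt _ (finite_sup hF (hz v)))
    exact ⟨(⟨n, c⟩, ⟨w, hw⟩), by rw [hP]; exact hrel⟩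
  obtain ⟨q, x, hx⟩ := nonempty_interior_of_iUnion_of_closed
    (fun q : (Σ n : ℕ, (Fin n → ℤ)) × W φ F => isClosed_singleton.preimage (hPc q.1)) hcov
  -- the kernel of `P q` is open
  have hker : ((P q.1).ker : Set G) ∈ 𝓝 (0 : G) := by
    have h1 : interior ((P q.1) ⁻¹' {q.2.1}) ∈ 𝓝 (x + 0) := by
      rw [add_zero]; exact isOpen_interior.mem_nhds hx
    have h2 : Tendsto (fun u : G => x + u) (𝓝 0) (𝓝 (x + 0)) :=
      (continuous_const.add continuous_id).tendsto 0
    filter_upwards [h2 h1] with u hu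
    have h3 : P q.1 (x + u) = q.2.1 :=
      Set.mem_singleton_iff.mp (Set.mem_preimage.mp (interior_subset (Set.mem_preimage.mp hu)))
    have h4 : P q.1 x = q.2.1 :=
      Set.mem_singleton_iff.mp (Set.mem_preimage.mp (interior_subset hx))
    have h5 : P q.1 (x + u) = P q.1 x + P q.1 u := map_add _ x u
    show P q.1 u = 0
    rw [h3, h4] at h5
    simpa using h5.symm
  have hopen : IsOpen ((P q.1).ker : Set G) := AddSubgroup.isOpen_of_mem_nhds _ hker
  have hfq : Finite (G ⧸ (P q.1).ker) := AddSubgroup.quotient_finite_of_isOpen _ hopen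
  have hR : Finite (P q.1).range :=
    Finite.of_equiv _ (QuotientAddGroup.quotientKerEquivRange (P q.1)).toEquiv
  -- the range is invariant
  have hcomm : ∀ y, φ (P q.1 y) = P q.1 (φ y) := by
    intro y
    rw [hP, hP, map_sub, map_sum, it_succ']
    simp only [map_zsmul, it_succ']
    rfl
  have hinv : ∀ y ∈ (P q.1).range, φ y ∈ (P q.1).range := by
    rintro _ ⟨y, rfl⟩
    exact ⟨φ y, (hcomm y).symm⟩
  -- all entropies vanish
  unfold ent
  refine ENNReal.iSup_eq_zero.mpr fun F' => ?_
  have hF' := F'.2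
  set n := q.1.1 with hn
  set S := T φ F'.1 n ⊔ (P q.1).range with hS
  have hSfin : Finite S := finite_sup (finite_T φ hF' n) hR
  have hitn : ∀ v ∈ F'.1, it φ n v ∈ S := by
    intro v hv
    have h1 : it φ n v = ∑ i, q.1.2 i • it φ (i : ℕ) v + P q.1 v := by
      rw [hP]; abel
    rw [h1]
    refine AddSubgroup.add_mem _ (AddSubgroup.mem_sup_left ?_)
      (AddSubgroup.mem_sup_right ⟨v, rfl⟩)
    exact AddSubgroup.sum_mem _ fun i _ => AddSubgroup.zsmul_mem _ (it_mem_T hv i.2) _
  have hSinv : ∀ y ∈ S, φ y ∈ S := by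
    intro y hy
    rcases AddSubgroup.mem_sup.mp hy with ⟨a, ha, b, hb, rfl⟩
    rw [map_add]
    refine AddSubgroup.add_mem _ ?_ (AddSubgroup.mem_sup_right (hinv b hb))
    have h1 : T φ F'.1 n ≤ S.comap φ := by
      unfold T
      refine iSup_le fun i => ?_
      rintro _ ⟨v, hv, rfl⟩
      show φ (it φ (i : ℕ) v) ∈ S
      rw [it_succ']
      rcases Nat.lt_or_ge (i + 1) n with h | h
      · exact AddSubgroup.mem_sup_left (it_mem_T hv h)
      · have : (i : ℕ) + 1 = n := by have := i.2; omega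
        rw [this]
        exact hitn v hv
    exact h1 ha
  have hall : ∀ m, T φ F'.1 m ≤ S := by
    intro m
    unfold T
    refine iSup_le fun i => ?_
    have h2 : ∀ (i : ℕ), ∀ v ∈ F'.1, it φ i v ∈ S := by
      intro i
      induction i with
      | zero =>
        intro v hv
        rcases Nat.eq_zero_or_pos n with h | h
        · have := hitn v hv
          rwa [h] at this
        · exact AddSubgroup.mem_sup_left (it_mem_T hv h)
      | succ i ih =>
        intro v hv
        rw [← it_succ']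
        exact hSinv _ (ih v hv)
    rintro _ ⟨v, hv, rfl⟩
    exact h2 i v hv
  rw [H_eq_zero φ hF' hSfin hall]
  simp

end Run7.h187.Ent
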