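import Mathlib
import Pool.Agent.Helper259.AbsHt

set_option autoImplicit false

/-!
Solvable polynomial systems over an algebraic closure of the rationals, with parameters, have
solutions whose height is linearly bounded by the height of the parameters.
-/

namespace Run7.h187.Ht

open Pool.Agent.Helper259.AbsHt MvPolynomial

/-- affine height of a number -/
noncomputable abbrev h1 (a : Qbar) : ℝ := absLogHeight ![1, a]

lemma h1_nonneg (a : Qbar) : 0 ≤ h1 a := absLogHeight_nonneg _

/-- a finite subset of a set of polynomials already cuts out the same zero set -/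
theorem finite_sub {σ : Type*} [Finite σ] {k : Type*} [Field k] (S : Set (MvPolynomial σ k)) :
    ∃ T : Finset (MvPolynomial σ k), (T : Set (MvPolynomial σ k)) ⊆ S ∧
      ∀ x : σ → k, (∀ F ∈ T, eval x F = 0) → ∀ F ∈ S, eval x F = 0 := by
  classical
  obtain ⟨T, hT, hspan⟩ := Submodule.fg_span_iff_fg_span_finset_subset (R := MvPolynomial σ k) S |>.mp
    ((isNoetherianRing_iff_ideal_fg (MvPolynomial σ k)).mp inferInstance (Ideal.span S))
  refine ⟨T, hT, fun x hx F hF => ?_⟩
  have h1 : F ∈ Ideal.span (T : Set (MvPolynomial σ k)) := by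
    have : F ∈ Submodule.span (MvPolynomial σ k) S := Submodule.subset_span hF
    rw [hspan] at this
    exact this
  have h2 : Ideal.span (T : Set (MvPolynomial σ k)) ≤ RingHom.ker (eval x) := by
    rw [Ideal.span_le]
    intro G hG
    exact hx G hG
  exact h2 h1


/-! height of the values of inhomogeneous polynomials -/

theorem poly_bound {σ ι' : Type*} [Fintype σ] [Finite ι'] (p : ι' → MvPolynomial σ Qbar) :
    ∃ c C : ℝ, 0 ≤ c ∧ ∀ y : σ → Qbar,
      absLogHeight (fun j => eval y (p j)) ≤ c * ∑ i, h1 (y i) + C := by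
  classical
  have := Fintype.ofFinite ι'
  -- a common degree bound
  obtain ⟨D, hD⟩ : ∃ D : ℕ, ∀ j, ∀ s ∈ (p j).support, s.degree ≤ D := by
    refine ⟨∑ j, ∑ s ∈ (p j).support, s.degree, fun j s hs => ?_⟩
    calc s.degree ≤ ∑ s ∈ (p j).support, s.degree :=
          Finset.single_le_sum (f := fun s : σ →₀ ℕ => s.degree) (fun _ _ => Nat.zero_le _) hs
      _ ≤ _ := Finset.single_le_sum (f := fun j => ∑ s ∈ (p j).support, s.degree)
          (fun _ _ => Nat.zero_le _) (Finset.mem_univ j)
  let q : ι' → MvPolynomial (Option σ) Qbar := fun j =>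
    ∑ s ∈ (p j).support, C (coeff s (p j)) * (X none ^ (D - s.degree) * ∏ i, X (some i) ^ s i)
  have hq : ∀ j, (q j).IsHomogeneous D := by
    intro j
    refine IsHomogeneous.sum _ _ _ fun s hs => ?_
    have h1 : (∏ i, (X (some i) : MvPolynomial (Option σ) Qbar) ^ s i).IsHomogeneous s.degree := by
      have := IsHomogeneous.prod Finset.univ
        (fun i => (X (some i) : MvPolynomial (Option σ) Qbar) ^ s i) (fun i => s i)
        (fun i _ => by simpa using (isHomogeneous_X Qbar (some i)).pow (s i))
      rwa [Finsupp.degree_eq_sum]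
    have h2 := (isHomogeneous_C (Option σ) (coeff s (p j))).mul
      (((isHomogeneous_X Qbar (none : Option σ)).pow (D - s.degree)).mul h1)
    have h3 : 0 + (1 * (D - s.degree) + s.degree) = D := by
      have := hD j s hs
      omega
    rwa [h3] at h2
  have hqe : ∀ (y : σ → Qbar) j, eval (fun o : Option σ => o.elim 1 y) (q j) = eval y (p j) := by
    intro y j
    simp only [q, map_sum, map_mul, eval_C, map_pow, eval_X, map_prod, Option.elim, one_pow, one_mul]
    rw [eval_eq']
  obtain ⟨C0, hC0⟩ := absLogHeight_eval D q hq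
  refine ⟨D, C0 + D * h1 (1 : Qbar), by positivity, fun y => ?_⟩
  have h2 := hC0 (fun o : Option σ => o.elim 1 y)
  simp only [hqe] at h2
  have h3 := absLogHeight_le_sum (fun o : Option σ => o.elim 1 y)
  rw [Fintype.sum_option] at h3
  simp only [Option.elim] at h3
  have h4 : (D : ℝ) * absLogHeight (fun o : Option σ => o.elim 1 y) ≤
      D * (h1 1 + ∑ i, h1 (y i)) := mul_le_mul_of_nonneg_left h3 (by positivity)
  linarith


/-! the ultrapower of the field of algebraic numbers -/

open Filter in
/-- ultrapower of `Qbar` -/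
noncomputable abbrev KK : Type := (Filter.hyperfilter ℕ : Filter ℕ).Germ Qbar

/-- constant germs -/
noncomputable def cst : Qbar →+* KK where
  toFun a := ((fun _ => a : ℕ → Qbar) : KK)
  map_one' := rfl
  map_mul' _ _ := rfl
  map_zero' := rfl
  map_add' _ _ := rfl

noncomputable instance : Algebra Qbar KK := cst.toAlgebra

lemma algebraMap_KK (a : Qbar) : algebraMap Qbar KK a = ((fun _ => a : ℕ → Qbar) : KK) := rfl

/-- a germ from a sequence -/
noncomputable abbrev gm (f : ℕ → Qbar) : KK := (f : KK)

lemma gm_surj (a : KK) : ∃ f : ℕ → Qbar, gm f = a := by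
  induction a using Filter.Germ.inductionOn with
  | _ f => exact ⟨f, rfl⟩

lemma gm_eq {f g : ℕ → Qbar} : gm f = gm g ↔ ∀ᶠ k in (Filter.hyperfilter ℕ : Filter ℕ), f k = g k :=
  Filter.Germ.coe_eq

lemma aeval_gm {ι : Type*} (z : ℕ → ι → Qbar) (p : MvPolynomial ι Qbar) :
    aeval (fun i => gm fun k => z k i) p = gm fun k => eval (z k) p := by
  induction p using MvPolynomial.induction_on with
  | C a =>
    simp only [aeval_C, eval_C]
    rfl
  | add p q hp hq =>
    simp only [map_add, hp, hq]
    rfl
  | mul_X p i hp =>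
    simp only [map_mul, hp, aeval_X, eval_X]
    rfl

lemma gm_sum {α : Type*} (s : Finset α) (f : α → ℕ → Qbar) :
    gm (fun k => ∑ a ∈ s, f a k) = ∑ a ∈ s, gm (f a) := by
  classical
  induction s using Finset.induction_on with
  | empty => simp; rfl
  | insert a s ha ih =>
    rw [Finset.sum_insert ha, ← ih]
    simp only [Finset.sum_insert ha]
    rfl

instance : IsAlgClosed KK := by
  apply IsAlgClosed.of_exists_root
  intro p hm hirr
  have hd : 0 < p.natDegree := hirr.natDegree_pos
  choose f hf using fun i => gm_surj (p.coeff i)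
  -- pointwise polynomials
  let P : ℕ → Polynomial Qbar := fun k =>
    Polynomial.X ^ p.natDegree + ∑ i ∈ Finset.range p.natDegree, Polynomial.C (f i k) * Polynomial.X ^ i
  have hdeg : ∀ k, (∑ i ∈ Finset.range p.natDegree, Polynomial.C (f i k) * Polynomial.X ^ i).degree <
      (p.natDegree : WithBot ℕ) := by
    intro k
    rw [Polynomial.degree_lt_iff_coeff_zero]
    intro m hm
    rw [Polynomial.finsetSum_coeff]
    refine Finset.sum_eq_zero fun i hi => ?_
    rw [Polynomial.coeff_C_mul_X_pow, if_neg]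
    have := Finset.mem_range.mp hi
    omega
  have hroot : ∀ k, ∃ r, (P k).IsRoot r := by
    intro k
    apply IsAlgClosed.exists_root
    have : (P k).degree = p.natDegree := by
      simp only [P]
      rw [Polynomial.degree_add_eq_left_of_degree_lt] <;> rw [Polynomial.degree_X_pow]
      exact hdeg k
    rw [this]
    exact_mod_cast hd.ne'
  choose r hr using hroot
  refine ⟨gm r, ?_⟩
  rw [Polynomial.eval_eq_sum_range, Finset.sum_range_succ, ← Polynomial.leadingCoeff, hm.leadingCoeff,
    one_mul]
  have h1 : ∀ i ∈ Finset.range p.natDegree, p.coeff i * gm r ^ i = gm (fun k => f i k * r k ^ i) := by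
    intro i _
    rw [← hf i]
    rfl
  rw [Finset.sum_congr rfl h1, ← gm_sum]
  have h2 : (gm r) ^ p.natDegree = gm (fun k => r k ^ p.natDegree) := rfl
  rw [h2]
  have h3 : gm (fun k => ∑ i ∈ Finset.range p.natDegree, f i k * r k ^ i) +
      gm (fun k => r k ^ p.natDegree) = gm (fun k => (∑ i ∈ Finset.range p.natDegree,
        f i k * r k ^ i) + r k ^ p.natDegree) := rfl
  rw [h3]
  have h4 : (fun k => (∑ i ∈ Finset.range p.natDegree, f i k * r k ^ i) + r k ^ p.natDegree) =
      fun _ => (0 : Qbar) := by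
    funext k
    have := hr k
    simp only [P, Polynomial.IsRoot, Polynomial.eval_add, Polynomial.eval_pow, Polynomial.eval_X,
      Polynomial.eval_finsetSum, Polynomial.eval_mul, Polynomial.eval_C] at this
    rw [add_comm]
    exact this
  rw [h4]
  rfl


open scoped IntermediateField.algebraAdjoinAdjoin in
/-- a number algebraic over the field generated by the parameters has controlled height -/
lemma alg_bound {σ : Type*} [Fintype σ] (y : ℕ → σ → Qbar) (x : ℕ → Qbar)
    (halg : IsAlgebraic (IntermediateField.adjoin Qbar (Set.range fun i => gm fun k => y k i))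
      (gm x)) :
    ∃ c C : ℝ, ∀ᶠ k in (Filter.hyperfilter ℕ : Filter ℕ), h1 (x k) ≤ c * ∑ i, h1 (y k i) + C := by
  classical
  set ys : σ → KK := fun i => gm fun k => y k i with hys
  have halg2 : IsAlgebraic (Algebra.adjoin Qbar (Set.range ys)) (gm x) :=
    (IsFractionRing.isAlgebraic_iff (Algebra.adjoin Qbar (Set.range ys))
      (IntermediateField.adjoin Qbar (Set.range ys)) KK).mpr halg
  obtain ⟨P, hP0, hP⟩ := halg2
  have hrep : ∀ l, ∃ p : MvPolynomial σ Qbar, aeval ys p = (P.coeff l : KK) := by
    intro l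
    have h : ∀ a ∈ Algebra.adjoin Qbar (Set.range ys), ∃ p : MvPolynomial σ Qbar,
        aeval ys p = a := by
      intro a ha
      rw [Algebra.adjoin_range_eq_range_aeval] at ha
      exact ha
    exact h _ (P.coeff l).2
  choose p hp using hrep
  set n := P.natDegree with hn
  -- pointwise polynomial
  let Q : ℕ → Polynomial Qbar := fun k =>
    ∑ l ∈ Finset.range (n + 1), Polynomial.C (eval (y k) (p l)) * Polynomial.X ^ l
  have hcoef : ∀ k (l : Fin (n + 1)), (Q k).coeff l = eval (y k) (p l) := by
    intro k l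
    simp only [Q]
    rw [Polynomial.finsetSum_coeff]
    simp only [Polynomial.coeff_C_mul_X_pow]
    rw [Finset.sum_eq_single (l : ℕ)]
    · simp
    · intro b _ hb
      rw [if_neg (Ne.symm hb)]
    · intro h
      exact absurd (Finset.mem_range.mpr l.2) h
  have hQdeg : ∀ k, (Q k).natDegree ≤ n := by
    intro k
    refine Polynomial.natDegree_sum_le_of_forall_le _ _ fun l hl => ?_
    refine (Polynomial.natDegree_C_mul_X_pow_le _ _).trans ?_
    have := Finset.mem_range.mp hl
    omega
  have hev1 : ∀ᶠ k in (Filter.hyperfilter ℕ : Filter ℕ), (Q k).eval (x k) = 0 := by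
    have e1 : gm (fun k => (Q k).eval (x k)) = gm (fun _ => 0) := by
      have e2 : (fun k => (Q k).eval (x k)) =
          fun k => ∑ l ∈ Finset.range (n + 1), eval (y k) (p l) * x k ^ l := by
        funext k
        simp only [Q, Polynomial.eval_finsetSum, Polynomial.eval_mul, Polynomial.eval_C,
          Polynomial.eval_pow, Polynomial.eval_X]
      rw [e2, gm_sum]
      have e3 : ∀ l ∈ Finset.range (n + 1), gm (fun k => eval (y k) (p l) * x k ^ l) =
          (P.coeff l : KK) * gm x ^ l := by
        intro l _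
        rw [← hp l, hys, aeval_gm]
        rfl
      rw [Finset.sum_congr rfl e3]
      have e4 := hP
      rw [Polynomial.aeval_eq_sum_range] at e4
      have e5 : gm (fun _ => (0 : Qbar)) = (0 : KK) := rfl
      rw [e5, ← e4]
      refine Finset.sum_congr rfl fun l _ => ?_
      rfl
    exact gm_eq.mp e1
  have hev2 : ∀ᶠ k in (Filter.hyperfilter ℕ : Filter ℕ), Q k ≠ 0 := by
    have hlead : (P.coeff n : KK) ≠ 0 := by
      intro h
      apply hP0
      rw [← Polynomial.leadingCoeff_eq_zero]
      exact_mod_cast h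
    rw [← hp n, hys, aeval_gm] at hlead
    have h2 : ¬ ∀ᶠ k in (Filter.hyperfilter ℕ : Filter ℕ), eval (y k) (p n) = 0 := by
      intro h
      exact hlead (gm_eq.mpr h)
    rw [← Ultrafilter.eventually_not] at h2
    filter_upwards [h2] with k hk hQ
    apply hk
    have := hcoef k ⟨n, by omega⟩
    rw [← this, hQ]
    simp
  obtain ⟨C1, hC1⟩ := absLogHeight_root n
  obtain ⟨c2, C2, _, hC2⟩ := poly_bound (fun l : Fin (n + 1) => p l)
  refine ⟨c2, C1 + C2, ?_⟩
  filter_upwards [hev1, hev2] with k hk1 hk2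
  have h1 := hC1 (Q k) (x k) hk2 (hQdeg k) hk1
  have h2 := hC2 (y k)
  have h3 : Pool.Agent.Helper259.HtPoly.cv n (Q k) = fun l : Fin (n + 1) => eval (y k) (p l) := by
    funext l
    exact hcoef k l
  rw [h3] at h1
  linarith

/-- solvable polynomial systems have solutions of linearly bounded height -/
theorem bsl {σ τ : Type*} [Fintype σ] [Fintype τ] (E : Finset (MvPolynomial (σ ⊕ τ) Qbar)) :
    ∃ c C : ℝ, ∀ y : σ → Qbar, (∃ x : τ → Qbar, ∀ f ∈ E, eval (Sum.elim y x) f = 0) →
      ∃ x : τ → Qbar, (∀ f ∈ E, eval (Sum.elim y x) f = 0) ∧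
        ∑ j, h1 (x j) ≤ c * ∑ i, h1 (y i) + C := by
  classical
  by_contra hcon
  push Not at hcon
  choose y hsol hbad using fun k : ℕ => hcon k k
  choose x0 hx0 using hsol
  set ys : σ → KK := fun i => gm fun k => y k i with hys
  let F := IntermediateField.adjoin Qbar (Set.range ys)
  have hyF : ∀ i, ys i ∈ F := fun i => IntermediateField.subset_adjoin _ _ ⟨i, rfl⟩
  -- the system over `F`
  let Φ : MvPolynomial (σ ⊕ τ) Qbar →ₐ[Qbar] MvPolynomial τ F :=
    aeval (Sum.elim (fun i => C (⟨ys i, hyF i⟩ : F)) X)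
  have hΦ : ∀ (z : τ → KK) (f : MvPolynomial (σ ⊕ τ) Qbar),
      aeval z (Φ f) = aeval (Sum.elim ys z) f := by
    intro z f
    have : ((aeval z : MvPolynomial τ F →ₐ[F] KK).restrictScalars Qbar).comp Φ =
        aeval (Sum.elim ys z) := by
      apply MvPolynomial.algHom_ext
      intro i
      rcases i with i | i
      · simp [Φ]
      · simp [Φ]
    exact congrArg (fun g => g f) this
  let I : Ideal (MvPolynomial τ F) := Ideal.span (Φ '' (E : Set (MvPolynomial (σ ⊕ τ) Qbar)))
  have hI : I ≠ ⊤ := by
    intro htop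
    have h1 : I ≤ RingHom.ker (aeval (fun j => gm fun k => x0 k j) : MvPolynomial τ F →ₐ[F] KK) := by
      rw [Ideal.span_le]
      rintro _ ⟨f, hf, rfl⟩
      show aeval (fun j => gm fun k => x0 k j) (Φ f) = 0
      rw [hΦ]
      have e : (Sum.elim ys fun j => gm fun k => x0 k j) =
          fun i => gm fun k => Sum.elim (y k) (x0 k) i := by
        funext i
        rcases i with i | i <;> rfl
      rw [e, aeval_gm]
      have : (fun k => eval (Sum.elim (y k) (x0 k)) f) = fun _ => 0 := by
        funext k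
        exact hx0 k f hf
      rw [this]
      rfl
    rw [htop] at h1
    have h2 : (1 : MvPolynomial τ F) ∈
        RingHom.ker (aeval (fun j => gm fun k => x0 k j) : MvPolynomial τ F →ₐ[F] KK) :=
      h1 trivial
    rw [RingHom.mem_ker, map_one] at h2
    exact one_ne_zero h2
  obtain ⟨m, hm, hIm⟩ := Ideal.exists_le_maximal I hI
  let _ : Field (MvPolynomial τ F ⧸ m) := Ideal.Quotient.field m
  have hfin : Module.Finite F (MvPolynomial τ F ⧸ m) := finite_of_finite_type_of_isJacobsonRing _ _
  have halg : Algebra.IsAlgebraic F (MvPolynomial τ F ⧸ m) := inferInstance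
  let ψ : (MvPolynomial τ F ⧸ m) →ₐ[F] KK := IsAlgClosed.lift
  let xs : τ → KK := fun j => ψ (Ideal.Quotient.mk m (X j))
  have hxs : ∀ f ∈ E, aeval (Sum.elim ys xs) f = 0 := by
    intro f hf
    rw [← hΦ]
    have e : (aeval xs : MvPolynomial τ F →ₐ[F] KK) = ψ.comp (Ideal.Quotient.mkₐ F m) := by
      apply MvPolynomial.algHom_ext
      intro j
      simp [xs]
    rw [e, AlgHom.comp_apply]
    have : Ideal.Quotient.mkₐ F m (Φ f) = 0 := by
      rw [Ideal.Quotient.mkₐ_eq_mk, Ideal.Quotient.eq_zero_iff_mem]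
      exact hIm (Ideal.subset_span ⟨f, hf, rfl⟩)
    rw [this, map_zero]
  choose x' hx' using fun j => gm_surj (xs j)
  have halgj : ∀ j, IsAlgebraic F (gm (x' j)) := by
    intro j
    rw [hx' j]
    exact (halg.isAlgebraic _).algHom ψ
  choose c C hb using fun j => alg_bound y (x' j) (halgj j)
  have hev1 : ∀ᶠ k in (Filter.hyperfilter ℕ : Filter ℕ), ∀ j, h1 (x' j k) ≤
      c j * ∑ i, h1 (y k i) + C j := Filter.eventually_all.mpr hb
  have hev2 : ∀ᶠ k in (Filter.hyperfilter ℕ : Filter ℕ), ∀ f ∈ E,
      eval (Sum.elim (y k) fun j => x' j k) f = 0 := by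
    rw [Filter.eventually_all_finset]
    intro f hf
    have h1 := hxs f hf
    have e : Sum.elim ys xs = fun i => gm fun k => Sum.elim (y k) (fun j => x' j k) i := by
      funext i
      rcases i with i | i
      · rfl
      · exact (hx' i).symm
    rw [e, aeval_gm] at h1
    exact gm_eq.mp h1
  have hev3 : ∀ᶠ k : ℕ in (Filter.hyperfilter ℕ : Filter ℕ),
      (∑ j, |c j|) + (∑ j, |C j|) ≤ (k : ℝ) :=
    (tendsto_natCast_atTop_atTop.eventually_ge_atTop _).filter_mono Nat.hyperfilter_le_atTop
  obtain ⟨k, hk1, hk2, hk3⟩ := (hev1.and (hev2.and hev3)).exists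
  have hH : 0 ≤ ∑ i, h1 (y k i) := Finset.sum_nonneg fun i _ => h1_nonneg _
  have h4 := hbad k (fun j => x' j k) hk2
  have h5 : ∑ j, h1 (x' j k) ≤ ∑ j, (|c j| * ∑ i, h1 (y k i) + |C j|) := by
    refine Finset.sum_le_sum fun j _ => (hk1 j).trans ?_
    have := mul_le_mul_of_nonneg_right (le_abs_self (c j)) hH
    have := le_abs_self (C j)
    linarith
  rw [Finset.sum_add_distrib, ← Finset.sum_mul] at h5
  have hc : 0 ≤ ∑ j, |c j| := Finset.sum_nonneg fun j _ => abs_nonneg _
  have hC : 0 ≤ ∑ j, |C j| := Finset.sum_nonneg fun j _ => abs_nonneg _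
  have h6 : (∑ j, |c j|) * ∑ i, h1 (y k i) ≤ k * ∑ i, h1 (y k i) :=
    mul_le_mul_of_nonneg_right (by linarith) hH
  linarith

end Run7.h187.Ht
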