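import Mathlib
import Pool.Agent.Helper259.HtDef

set_option autoImplicit false

/-!
Quasi-projective varieties over the field of algebraic numbers, regular maps between them and
heights, in classical language.
-/

namespace Run7.h187.Ht

open Pool.Agent.Helper259.AbsHt MvPolynomial

/-- `N`-dimensional projective space over the field `Qbar` of algebraic numbers
(lines in `Qbar ^ (N + 1)`) -/
abbrev PSp (N : ℕ) : Type := Projectivization Qbar (Fin (N + 1) → Qbar)

/-- the standard absolute logarithmic Weil height on projective space -/
noncomputable def ht {N : ℕ} (x : PSp N) : ℝ := absLogHeight x.rep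

/-- a set of points of projective space is quasi-projective if it is locally closed in the
Zariski topology: it is the set of common zeros of a set `S` of forms, minus the set of common
zeros of a set `T` of forms -/
def IsQuasiProjective {N : ℕ} (X : Set (PSp N)) : Prop :=
  ∃ S T : Set (MvPolynomial (Fin (N + 1)) Qbar),
    (∀ F ∈ S ∪ T, ∃ d : ℕ, F.IsHomogeneous d) ∧
    X = {x | (∀ F ∈ S, eval x.rep F = 0) ∧ ∃ G ∈ T, eval x.rep G ≠ 0}

/-- a map from a set of points of one projective space to another projective space is regular if
it is given, locally in the Zariski topology, by forms of equal degree without common zero -/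
def IsRegularMap {N M : ℕ} {X : Set (PSp N)} (φ : X → PSp M) : Prop :=
  ∀ x : X, ∃ (d : ℕ) (F : Fin (M + 1) → MvPolynomial (Fin (N + 1)) Qbar),
    (∀ j, (F j).IsHomogeneous d) ∧ (fun j => eval x.1.rep (F j)) ≠ 0 ∧
    ∀ (y : X) (hy : (fun j => eval y.1.rep (F j)) ≠ 0),
      φ y = Projectivization.mk Qbar (fun j => eval y.1.rep (F j)) hy

/-- the relation `A ≍ B` between real functions on a set -/
def Comparable {S : Type*} (A B : S → ℝ) : Prop :=
  ∃ c₁ c₂ c₃ c₄ : ℝ, 0 < c₁ ∧ 0 < c₂ ∧ ∀ s, c₁ * A s - c₃ ≤ B s ∧ B s ≤ c₂ * A s + c₄

end Run7.h187.Ht
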