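import Mathlib
import Pool.Agent.Run7.h187.HtDefs
import Pool.Agent.Run7.h187.HtBsl

set_option autoImplicit false

namespace Run7.h187.Ht

open Pool.Agent.Helper259.AbsHt MvPolynomial

lemma eval_smul_hom {σ : Type*} {d : ℕ} {F : MvPolynomial σ Qbar} (hF : F.IsHomogeneous d)
    (c : Qbar) (v : σ → Qbar) : eval (c • v) F = c ^ d * eval v F := by
  classical
  rw [eval_eq, eval_eq, Finset.mul_sum]
  refine Finset.sum_congr rfl fun s hs => ?_
  have hdeg : ∑ i ∈ s.support, s i = d := by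
    have := hF (mem_support_iff.mp hs)
    rw [← this, Finsupp.weight_apply, Finsupp.sum]
    simp
  simp only [Pi.smul_apply, smul_eq_mul, mul_pow]
  rw [Finset.prod_mul_distrib, Finset.prod_pow_eq_pow_sum, hdeg]
  ring

lemma rep_mk {N : ℕ} (v : Fin (N + 1) → Qbar) (hv : v ≠ 0) :
    ∃ a : Qbar, a ≠ 0 ∧ (Projectivization.mk Qbar v hv).rep = a • v := by
  obtain ⟨a, ha⟩ := Projectivization.exists_smul_eq_mk_rep Qbar v hv
  exact ⟨a, a.ne_zero, ha.symm⟩

lemma ht_mk {N : ℕ} (v : Fin (N + 1) → Qbar) (hv : v ≠ 0) :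
    ht (Projectivization.mk Qbar v hv) = absLogHeight v := by
  obtain ⟨a, ha, h⟩ := rep_mk v hv
  rw [ht, h, absLogHeight_smul v ha]

lemma ht_nonneg {N : ℕ} (x : PSp N) : 0 ≤ ht x := absLogHeight_nonneg _

lemma mk_eq_of_smul {N : ℕ} {v w : Fin (N + 1) → Qbar} (hv : v ≠ 0) (hw : w ≠ 0) (c : Qbar)
    (h : v = c • w) : Projectivization.mk Qbar v hv = Projectivization.mk Qbar w hw := by
  rw [Projectivization.mk_eq_mk_iff']
  exact ⟨c, h.symm⟩

/-- a regular map is given by finitely many families of forms -/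
lemma finite_cover {N M : ℕ} {X : Set (PSp N)} {φ : X → PSp M} (hφ : IsRegularMap φ) :
    ∃ (ι : Type) (_ : Fintype ι) (d : ι → ℕ)
      (F : ι → Fin (M + 1) → MvPolynomial (Fin (N + 1)) Qbar),
      (∀ i j, (F i j).IsHomogeneous (d i)) ∧
      (∀ x : X, ∃ i, (fun j => eval x.1.rep (F i j)) ≠ 0) ∧
      (∀ i (y : X) (hy : (fun j => eval y.1.rep (F i j)) ≠ 0),
        φ y = Projectivization.mk Qbar (fun j => eval y.1.rep (F i j)) hy) := by
  classical
  choose d F hF1 hF2 hF3 using hφ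
  obtain ⟨T, hTS, hT⟩ := finite_sub (Set.range fun a : X × Fin (M + 1) => F a.1 a.2)
  have hT' : ∀ t : T, ∃ a : X × Fin (M + 1), F a.1 a.2 = t := by
    intro t
    exact hTS t.2
  choose a ha using hT'
  refine ⟨T, inferInstance, fun t => d (a t).1, fun t => F (a t).1, fun t j => hF1 _ j, ?_,
    fun t y hy => hF3 _ y hy⟩
  intro x
  by_contra hcon
  push Not at hcon
  apply hF2 x
  funext j
  refine hT x.1.rep (fun G hG => ?_) (F x j) ⟨(x, j), rfl⟩
  have h1 := congrFun (hcon ⟨G, hG⟩) (a ⟨G, hG⟩).2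
  rw [ha] at h1
  exact h1

/-- regular maps increase heights at most linearly -/
theorem upper {N M : ℕ} {X : Set (PSp N)} {φ : X → PSp M} (hφ : IsRegularMap φ) :
    ∃ c C : ℝ, 0 < c ∧ ∀ x : X, ht (φ x) ≤ c * ht x.1 + C := by
  classical
  obtain ⟨ι, _, d, F, h1, h2, h3⟩ := finite_cover hφ
  choose C hC using fun i => absLogHeight_eval (d i) (F i) (h1 i)
  refine ⟨1 + ∑ i, (d i : ℝ), ∑ i, |C i|, by positivity, fun x => ?_⟩
  obtain ⟨i, hi⟩ := h2 x
  rw [h3 i x hi, ht_mk]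
  have e1 := hC i x.1.rep
  have e2 : (d i : ℝ) ≤ ∑ i, (d i : ℝ) :=
    Finset.single_le_sum (f := fun i => (d i : ℝ)) (fun _ _ => by positivity) (Finset.mem_univ i)
  have e3 : |C i| ≤ ∑ i, |C i| :=
    Finset.single_le_sum (f := fun i => |C i|) (fun _ _ => abs_nonneg _) (Finset.mem_univ i)
  have e4 := le_abs_self (C i)
  have e5 : 0 ≤ ht x.1 := ht_nonneg _
  have e6 : (d i : ℝ) * ht x.1 ≤ (1 + ∑ i, (d i : ℝ)) * ht x.1 :=
    mul_le_mul_of_nonneg_right (by linarith) e5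
  have e7 : ht x.1 = absLogHeight x.1.rep := rfl
  rw [← e7] at e1
  linarith

/-- points in the image of a regular map have preimages of linearly bounded height -/
theorem lower {N M : ℕ} {X : Set (PSp N)} (hX : IsQuasiProjective X) {φ : X → PSp M}
    (hφ : IsRegularMap φ) :
    ∃ c C : ℝ, 0 < c ∧ ∀ x : X, ∃ x' : X, φ x' = φ x ∧ ht x'.1 ≤ c * ht (φ x) + C := by
  classical
  obtain ⟨ι, _, d, F, hF1, hF2, hF3⟩ := finite_cover hφ
  obtain ⟨S, T, hST, hXeq⟩ := hX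
  obtain ⟨S', hS'S, hS'⟩ := finite_sub S
  obtain ⟨T', hT'T, hT'⟩ := finite_sub T
  -- variables: parameters `Fin (M+1)`, unknowns `Fin (N+1) ⊕ Fin 2`
  let V := MvPolynomial (Fin (M + 1) ⊕ (Fin (N + 1) ⊕ Fin 2)) Qbar
  let up : MvPolynomial (Fin (N + 1)) Qbar → V := fun G => rename (fun i => Sum.inr (Sum.inl i)) G
  let sys : Fin (N + 1) × ι × T' × Fin (M + 1) → Finset V := fun a =>
    {MvPolynomial.X (Sum.inr (Sum.inl a.1)) - 1} ∪ S'.image up ∪
    {up a.2.2.1.1 * MvPolynomial.X (Sum.inr (Sum.inr 0)) - 1} ∪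
    {up (F a.2.1 a.2.2.2) * MvPolynomial.X (Sum.inr (Sum.inr 1)) - 1} ∪
    Finset.univ.image (fun b : Fin (M + 1) =>
      up (F a.2.1 b) - up (F a.2.1 a.2.2.2) * MvPolynomial.X (Sum.inl b))
  have hup : ∀ (y : Fin (M + 1) → Qbar) (x : Fin (N + 1) ⊕ Fin 2 → Qbar)
      (G : MvPolynomial (Fin (N + 1)) Qbar),
      eval (Sum.elim y x) (up G) = eval (fun i => x (Sum.inl i)) G := by
    intro y x G
    simp only [up, eval_rename]
    rfl
  have hsys : ∀ a (y : Fin (M + 1) → Qbar) (x : Fin (N + 1) ⊕ Fin 2 → Qbar),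
      (∀ f ∈ sys a, eval (Sum.elim y x) f = 0) ↔
      (x (Sum.inl a.1) = 1 ∧ (∀ G ∈ S', eval (fun i => x (Sum.inl i)) G = 0) ∧
      eval (fun i => x (Sum.inl i)) a.2.2.1.1 * x (Sum.inr 0) = 1 ∧
      eval (fun i => x (Sum.inl i)) (F a.2.1 a.2.2.2) * x (Sum.inr 1) = 1 ∧
      ∀ b, eval (fun i => x (Sum.inl i)) (F a.2.1 b) =
        eval (fun i => x (Sum.inl i)) (F a.2.1 a.2.2.2) * y b) := by
    intro a y x
    simp only [sys, Finset.mem_union, Finset.mem_singleton, Finset.mem_image, Finset.mem_univ,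
      true_and, or_imp, forall_and, forall_eq, forall_exists_index, and_imp,
      forall_apply_eq_imp_iff₂, forall_apply_eq_imp_iff, map_sub, map_mul, map_one, eval_X,
      Sum.elim_inr, Sum.elim_inl, hup, sub_eq_zero]
    tauto
  choose c C hb using fun a => bsl (sys a)
  refine ⟨1 + (∑ a, |c a|) * (M + 1), ∑ a, |C a|, by positivity, fun x => ?_⟩
  obtain ⟨hx1, G0, hG0, hx2⟩ := (Set.ext_iff.mp hXeq x.1).mp x.2
  -- choose the chart
  obtain ⟨i, hi⟩ : ∃ i, x.1.rep i ≠ 0 := by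
    by_contra h
    push Not at h
    exact x.1.rep_nonzero (funext h)
  obtain ⟨g, hg⟩ : ∃ g : T', eval x.1.rep g.1 ≠ 0 := by
    by_contra h
    push Not at h
    exact hx2 (hT' _ (fun F hF => h ⟨F, hF⟩) G0 hG0)
  obtain ⟨t, ht'⟩ := hF2 x
  obtain ⟨j, hj⟩ : ∃ j, eval x.1.rep (F t j) ≠ 0 := by
    by_contra h
    push Not at h
    exact ht' (funext h)
  let a : Fin (N + 1) × ι × T' × Fin (M + 1) := (i, t, g, j)
  -- normalised vectors
  let v : Fin (N + 1) → Qbar := (x.1.rep i)⁻¹ • x.1.rep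
  have hci : (x.1.rep i)⁻¹ ≠ 0 := inv_ne_zero hi
  have hv0 : v i = 1 := by
    simp [v, hi]
  obtain ⟨dg, hdg⟩ := hST g.1 (Or.inr (hT'T g.2))
  have hvg : eval v g.1 ≠ 0 := by
    rw [eval_smul_hom hdg]
    exact mul_ne_zero (pow_ne_zero _ hci) hg
  have hvS : ∀ G ∈ S', eval v G = 0 := by
    intro G hG
    obtain ⟨dG, hdG⟩ := hST G (Or.inl (hS'S hG))
    rw [eval_smul_hom hdG, hx1 G (hS'S hG), mul_zero]
  have hvj : eval v (F t j) ≠ 0 := by
    rw [eval_smul_hom (hF1 t j)]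
    exact mul_ne_zero (pow_ne_zero _ hci) hj
  let y : Fin (M + 1) → Qbar := fun b => (eval v (F t j))⁻¹ * eval v (F t b)
  have hyj : y j = 1 := by simp [y, hvj]
  have hy0 : y ≠ 0 := by
    intro h
    have := congrFun h j
    rw [hyj] at this
    exact one_ne_zero this
  have hφx : φ x = Projectivization.mk Qbar y hy0 := by
    rw [hF3 t x ht']
    refine mk_eq_of_smul _ _ (((x.1.rep i)⁻¹ ^ d t)⁻¹ * eval v (F t j)) ?_
    funext b
    simp only [Pi.smul_apply, smul_eq_mul, y]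
    have h1 : eval v (F t b) = (x.1.rep i)⁻¹ ^ d t * eval x.1.rep (F t b) :=
      eval_smul_hom (hF1 t b) _ _
    rw [mul_assoc, mul_inv_cancel_left₀ hvj, h1, inv_mul_cancel_left₀ (pow_ne_zero _ hci)]
  have hsol : ∃ z : Fin (N + 1) ⊕ Fin 2 → Qbar, ∀ f ∈ sys a, eval (Sum.elim y z) f = 0 := by
    refine ⟨Sum.elim v ![(eval v g.1)⁻¹, (eval v (F t j))⁻¹], ?_⟩
    rw [hsys]
    refine ⟨hv0, hvS, ?_, ?_, ?_⟩
    · simp only [Sum.elim_inl, Sum.elim_inr, Matrix.cons_val_zero]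
      exact mul_inv_cancel₀ hvg
    · simp only [Sum.elim_inl, Sum.elim_inr, Matrix.cons_val_one]
      exact mul_inv_cancel₀ hvj
    · intro b
      simp only [Sum.elim_inl, y]
      exact (mul_inv_cancel_left₀ hvj _).symm
  obtain ⟨z, hz, hzb⟩ := hb a y hsol
  rw [hsys] at hz
  obtain ⟨hz1, hz2, hz3, hz4, hz5⟩ := hz
  let w : Fin (N + 1) → Qbar := fun i => z (Sum.inl i)
  change w i = 1 at hz1
  change ∀ G ∈ S', eval w G = 0 at hz2
  change eval w g.1 * z (Sum.inr 0) = 1 at hz3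
  change eval w (F t j) * z (Sum.inr 1) = 1 at hz4
  change ∀ b, eval w (F t b) = eval w (F t j) * y b at hz5
  have hw0 : w ≠ 0 := by
    intro h
    have := congrFun h i
    rw [hz1] at this
    exact one_ne_zero this
  have hwg : eval w g.1 ≠ 0 := left_ne_zero_of_mul_eq_one hz3
  have hwj : eval w (F t j) ≠ 0 := left_ne_zero_of_mul_eq_one hz4
  obtain ⟨r, hr0, hr⟩ := rep_mk w hw0
  have hmem : Projectivization.mk Qbar w hw0 ∈ X := by
    apply (Set.ext_iff.mp hXeq _).mpr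
    refine ⟨?_, g.1, hT'T g.2, ?_⟩
    · refine hS' _ ?_
      intro G hG
      obtain ⟨dG, hdG⟩ := hST G (Or.inl (hS'S hG))
      rw [hr, eval_smul_hom hdG, hz2 G hG, mul_zero]
    · rw [hr, eval_smul_hom hdg]
      exact mul_ne_zero (pow_ne_zero _ hr0) hwg
  refine ⟨⟨_, hmem⟩, ?_, ?_⟩
  · have hne : (fun b => eval (Projectivization.mk Qbar w hw0).rep (F t b)) ≠ 0 := by
      intro h
      have := congrFun h j
      simp only [Pi.zero_apply] at this
      rw [hr, eval_smul_hom (hF1 t j)] at this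
      exact mul_ne_zero (pow_ne_zero _ hr0) hwj this
    rw [hF3 t ⟨_, hmem⟩ hne, hφx]
    refine mk_eq_of_smul _ _ (r ^ d t * eval w (F t j)) ?_
    funext b
    simp only [Pi.smul_apply, smul_eq_mul]
    rw [hr, eval_smul_hom (hF1 t b), hz5 b]
    ring
  · show ht (Projectivization.mk Qbar w hw0) ≤ _
    rw [ht_mk]
    have e1 := absLogHeight_le_sum w
    have e2 : ∑ i, absLogHeight ![1, w i] ≤ ∑ j, h1 (z j) := by
      rw [Fintype.sum_sum_type]
      have : 0 ≤ ∑ k : Fin 2, h1 (z (Sum.inr k)) := Finset.sum_nonneg fun _ _ => h1_nonneg _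
      show ∑ i, h1 (z (Sum.inl i)) ≤ _
      linarith
    have e3 : ∑ b, h1 (y b) ≤ (M + 1) * ht (φ x) := by
      rw [hφx, ht_mk]
      calc ∑ b, h1 (y b) ≤ ∑ _b : Fin (M + 1), absLogHeight y :=
            Finset.sum_le_sum fun b _ => aff_le_of_eq_one y j hyj b
        _ = (M + 1) * absLogHeight y := by simp
    have e4 : 0 ≤ ∑ b, h1 (y b) := Finset.sum_nonneg fun _ _ => h1_nonneg _
    have e5 : |c a| ≤ ∑ a, |c a| :=
      Finset.single_le_sum (f := fun a => |c a|) (fun _ _ => abs_nonneg _) (Finset.mem_univ a)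
    have e6 : |C a| ≤ ∑ a, |C a| :=
      Finset.single_le_sum (f := fun a => |C a|) (fun _ _ => abs_nonneg _) (Finset.mem_univ a)
    have e7 : c a * ∑ b, h1 (y b) ≤ (∑ a, |c a|) * ((M + 1) * ht (φ x)) :=
      calc c a * ∑ b, h1 (y b) ≤ |c a| * ∑ b, h1 (y b) :=
            mul_le_mul_of_nonneg_right (le_abs_self _) e4
        _ ≤ (∑ a, |c a|) * ∑ b, h1 (y b) := mul_le_mul_of_nonneg_right e5 e4
        _ ≤ _ := mul_le_mul_of_nonneg_left e3 (Finset.sum_nonneg fun _ _ => abs_nonneg _)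
    have e8 := le_abs_self (C a)
    have e9 : 0 ≤ ht (φ x) := ht_nonneg _
    calc absLogHeight w ≤ c a * ∑ b, h1 (y b) + C a := (e1.trans e2).trans hzb
      _ ≤ (1 + (∑ a, |c a|) * (M + 1)) * ht (φ x) + ∑ a, |C a| := by
        rw [add_mul, one_mul, mul_assoc]
        linarith

/-- moduli height versus minimal height in the orbits -/
theorem main {N M : ℕ} {X : Set (PSp N)} (hX : IsQuasiProjective X) {π : X → PSp M}
    (hπ : IsRegularMap π) (G : Type*) [Group G] [MulAction G X]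
    (horb : ∀ x x' : X, π x = π x' ↔ ∃ g : G, g • x = x') :
    Comparable (fun x : X => ht (π x)) (fun x : X => ⨅ g : G, ht (g • x).1) := by
  obtain ⟨c, C, hc, hupper⟩ := upper hπ
  obtain ⟨c', C', hc', hlower⟩ := lower hX hπ
  refine ⟨c⁻¹, c', c⁻¹ * C, C', inv_pos.mpr hc, hc', fun x => ⟨?_, ?_⟩⟩
  · refine le_ciInf fun g => ?_
    have h1 : π (g • x) = π x := ((horb x (g • x)).mpr ⟨g, rfl⟩).symm
    have h2 := hupper (g • x)
    rw [h1] at h2
    rw [← mul_sub, inv_mul_le_iff₀ hc]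
    linarith
  · obtain ⟨x', hx', hb⟩ := hlower x
    obtain ⟨g, rfl⟩ := (horb x x').mp hx'.symm
    refine (ciInf_le ⟨0, ?_⟩ g).trans hb
    rintro _ ⟨g, rfl⟩
    exact ht_nonneg _

end Run7.h187.Ht
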