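import Pool.Agent.Run7.h187.HyDefs

/-!
Cutting off test functions of finite energy.
-/

set_option autoImplicit false

open MeasureTheory Set Filter Topology Metric
open scoped ContDiff

namespace Run7.h187.Hy

abbrev En (d : ℕ) := EuclideanSpace ℝ (Fin d)

variable {d : ℕ}

/-- the weight -/
noncomputable def wt (x : En d) : ℝ := 1 + ‖x‖ ^ 2

lemma wt_pos (x : En d) : 0 < wt x := by unfold wt; positivity

lemma one_le_wt (x : En d) : 1 ≤ wt x := by
  unfold wt
  have := sq_nonneg ‖x‖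
  linarith

lemma wt_smooth : ContDiff ℝ ∞ (wt : En d → ℝ) := by
  unfold wt
  exact contDiff_const.add (contDiff_norm_sq ℝ)

lemma wtp_smooth (a : ℝ) : ContDiff ℝ ∞ fun x : En d => wt x ^ a :=
  wt_smooth.rpow_const_of_ne fun x => (wt_pos x).ne'

lemma wtp_cont (a : ℝ) : Continuous fun x : En d => wt x ^ a := (wtp_smooth a).continuous

lemma wtp_pos (a : ℝ) (x : En d) : 0 < wt x ^ a := Real.rpow_pos_of_pos (wt_pos x) a

lemma norm_gradient (u : En d → ℝ) (x : En d) : ‖gradient u x‖ = ‖fderiv ℝ u x‖ := by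
  rw [gradient]
  exact LinearIsometryEquiv.norm_map _ _

lemma energy_eq (α : ℝ) (u : En d → ℝ) :
    energy α u = ∫ x, wt x ^ α * ‖fderiv ℝ u x‖ ^ 2 := by
  unfold energy wt
  simp only [norm_gradient]

lemma mass_eq (α : ℝ) (u : En d → ℝ) : mass α u = ∫ x, wt x ^ (α - 1) * u x ^ 2 := rfl

/-- a smooth cutoff function -/
noncomputable def bump : ContDiffBump (0 : En d) := ⟨1, 2, one_pos, one_lt_two⟩

/-- the cutoff at scale `k + 1` -/
noncomputable def cu (k : ℕ) (x : En d) : ℝ := bump ((((k : ℝ) + 1)⁻¹) • x)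

lemma cu_smooth (k : ℕ) : ContDiff ℝ ∞ (cu k : En d → ℝ) := by
  unfold cu
  exact bump.contDiff.comp (contDiff_const_smul _)

lemma cu_nonneg (k : ℕ) (x : En d) : 0 ≤ cu k x := bump.nonneg

lemma cu_le_one (k : ℕ) (x : En d) : cu k x ≤ 1 := bump.le_one

lemma cu_eq_one (k : ℕ) {x : En d} (hx : ‖x‖ ≤ k + 1) : cu k x = 1 := by
  apply bump.one_of_mem_closedBall
  rw [mem_closedBall, dist_zero_right, norm_smul, norm_inv, Real.norm_of_nonneg (by positivity)]
  change _ ≤ (1 : ℝ)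
  rw [inv_mul_le_iff₀ (by positivity)]
  linarith

lemma cu_eq_zero (k : ℕ) {x : En d} (hx : 2 * ((k : ℝ) + 1) ≤ ‖x‖) : cu k x = 0 := by
  apply bump.zero_of_le_dist
  rw [dist_zero_right, norm_smul, norm_inv, Real.norm_of_nonneg (by positivity)]
  change (2 : ℝ) ≤ _
  rw [← div_eq_inv_mul, le_div_iff₀ (by positivity)]
  linarith

lemma cu_supp (k : ℕ) : HasCompactSupport (cu k : En d → ℝ) :=
  HasCompactSupport.intro (isCompact_closedBall (0 : En d) (2 * ((k : ℝ) + 1))) fun x hx => by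
    apply cu_eq_zero
    rw [mem_closedBall, dist_zero_right, not_le] at hx
    exact hx.le

lemma exists_K : ∃ K : ℝ, 0 ≤ K ∧ ∀ (k : ℕ) (x : En d), ‖fderiv ℝ (cu k) x‖ ≤ K / (k + 1) := by
  obtain ⟨K, hK⟩ := (bump.contDiff (n := (⊤ : ℕ∞)) (E := En d) (c := 0)).continuous_fderiv (by simp)
    |>.bounded_above_of_compact_support (bump.hasCompactSupport.fderiv (𝕜 := ℝ))
  refine ⟨K, (norm_nonneg _).trans (hK 0), fun k x => ?_⟩
  have h : HasFDerivAt (cu k) ((fderiv ℝ (bump : ContDiffBump (0 : En d))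
      ((((k : ℝ) + 1)⁻¹) • x)).comp ((((k : ℝ) + 1)⁻¹) • ContinuousLinearMap.id ℝ (En d))) x := by
    have h1 : HasFDerivAt (⇑((((k : ℝ) + 1)⁻¹) • ContinuousLinearMap.id ℝ (En d)))
      ((((k : ℝ) + 1)⁻¹) • ContinuousLinearMap.id ℝ (En d)) x :=
      ContinuousLinearMap.hasFDerivAt _
    have h2 := ((bump.contDiff (n := (⊤ : ℕ∞)) (E := En d) (c := 0)).differentiable (by simp)
      ((((k : ℝ) + 1)⁻¹) • x)).hasFDerivAt
    exact h2.comp x h1
  rw [h.fderiv]
  refine (ContinuousLinearMap.opNorm_comp_le _ _).trans ?_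
  have h3 : ‖(((k : ℝ) + 1)⁻¹) • ContinuousLinearMap.id ℝ (En d)‖ ≤ ((k : ℝ) + 1)⁻¹ := by
    rw [norm_smul, norm_inv, Real.norm_of_nonneg (by positivity)]
    have := ContinuousLinearMap.norm_id_le (𝕜 := ℝ) (E := En d)
    calc ((k : ℝ) + 1)⁻¹ * ‖ContinuousLinearMap.id ℝ (En d)‖ ≤ ((k : ℝ) + 1)⁻¹ * 1 := by gcongr
      _ = _ := mul_one _
  calc _ ≤ K * ((k : ℝ) + 1)⁻¹ := mul_le_mul (hK _) h3 (norm_nonneg _)
        ((norm_nonneg _).trans (hK 0))
    _ = _ := rfl

/-- The derivative of the cutoff vanishes near a given point for large `k`. -/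
lemma cu_eventually (x : En d) : ∀ᶠ k : ℕ in atTop, cu k =ᶠ[𝓝 x] fun _ => 1 := by
  obtain ⟨N, hN⟩ := exists_nat_gt ‖x‖
  filter_upwards [eventually_ge_atTop N] with k hk
  have h1 : ‖x‖ < k + 1 := by
    have : (N : ℝ) ≤ k := by exact_mod_cast hk
    linarith
  have h2 : ∀ᶠ y in 𝓝 x, ‖y‖ < k + 1 := (continuous_norm.tendsto x).eventually_lt_const h1
  filter_upwards [h2] with y hy
  exact cu_eq_one k hy.le

lemma cu_fderiv_zero (k : ℕ) {x : En d} (hx : 2 * ((k : ℝ) + 1) < ‖x‖) : fderiv ℝ (cu k) x = 0 := by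
  have h2 : ∀ᶠ y in 𝓝 x, 2 * ((k : ℝ) + 1) < ‖y‖ :=
    (continuous_norm.tendsto x).eventually_const_lt hx
  have : cu k =ᶠ[𝓝 x] fun _ => (0 : ℝ) := by
    filter_upwards [h2] with y hy
    exact cu_eq_zero k hy.le
  rw [this.fderiv_eq]
  simp

/-- the square of the derivative of the cutoff is at most `5 K² / w` -/
lemma cu_sq {K : ℝ} (hK : ∀ (k : ℕ) (x : En d), ‖fderiv ℝ (cu k) x‖ ≤ K / (k + 1)) (k : ℕ)
    (x : En d) : ‖fderiv ℝ (cu k) x‖ ^ 2 ≤ 5 * K ^ 2 / wt x := by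
  by_cases hx : 2 * ((k : ℝ) + 1) < ‖x‖
  · rw [cu_fderiv_zero k hx]
    have := wt_pos x
    simp
    positivity
  · rw [not_lt] at hx
    have h1 : ‖fderiv ℝ (cu k) x‖ ^ 2 ≤ (K / (k + 1)) ^ 2 :=
      pow_le_pow_left₀ (norm_nonneg _) (hK k x) 2
    refine h1.trans ?_
    rw [div_pow, div_le_div_iff₀ (by positivity) (wt_pos x)]
    have h2 : wt x ≤ 5 * ((k : ℝ) + 1) ^ 2 := by
      unfold wt
      have h3 : ‖x‖ ^ 2 ≤ (2 * ((k : ℝ) + 1)) ^ 2 := pow_le_pow_left₀ (norm_nonneg _) hx 2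
      have h4 : (1 : ℝ) ≤ (k : ℝ) + 1 := by
        have : (0 : ℝ) ≤ k := Nat.cast_nonneg k
        linarith
      nlinarith
    calc K ^ 2 * wt x ≤ K ^ 2 * (5 * ((k : ℝ) + 1) ^ 2) := by gcongr
      _ = _ := by ring

section conv

variable {α : ℝ} {v η : En d → ℝ} {c : ℕ → ℝ}

/-- the approximating functions -/
noncomputable def ap (v η : En d → ℝ) (c : ℕ → ℝ) (k : ℕ) (x : En d) : ℝ := cu k x * v x - c k * η x

lemma ap_smooth (hv : ContDiff ℝ ∞ v) (hη : ContDiff ℝ ∞ η) (k : ℕ) :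
    ContDiff ℝ ∞ (ap v η c k) := by
  unfold ap
  exact ((cu_smooth k).mul hv).sub (contDiff_const.mul hη)

lemma ap_supp (hη : HasCompactSupport η) (k : ℕ) : HasCompactSupport (ap v η c k) := by
  unfold ap
  exact ((cu_supp k).mul_right).sub (hη.mul_left)

lemma ap_tendsto (hc : Tendsto c atTop (𝓝 0)) (x : En d) :
    Tendsto (fun k => ap v η c k x) atTop (𝓝 (v x)) := by
  have h1 : Tendsto (fun k => cu k x * v x) atTop (𝓝 (v x)) := by
    refine tendsto_const_nhds.congr' ?_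
    filter_upwards [cu_eventually x] with k hk
    rw [hk.self_of_nhds, one_mul]
  have h2 : Tendsto (fun k => c k * η x) atTop (𝓝 0) := by
    simpa using hc.mul_const (η x)
  simpa [ap] using h1.sub h2

lemma ap_fderiv_tendsto (hv : ContDiff ℝ ∞ v) (hη : ContDiff ℝ ∞ η) (hc : Tendsto c atTop (𝓝 0))
    (x : En d) : Tendsto (fun k => fderiv ℝ (ap v η c k) x) atTop (𝓝 (fderiv ℝ v x)) := by
  have h2 : Tendsto (fun k => c k • fderiv ℝ η x) atTop (𝓝 0) := by
    simpa using hc.smul_const (fderiv ℝ η x)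
  have h3 : Tendsto (fun k => fderiv ℝ v x - c k • fderiv ℝ η x) atTop (𝓝 (fderiv ℝ v x)) := by
    simpa using (tendsto_const_nhds (x := fderiv ℝ v x)).sub h2
  refine h3.congr' ?_
  filter_upwards [cu_eventually x] with k hk
  have e : ap v η c k =ᶠ[𝓝 x] fun y => v y - c k * η y := by
    filter_upwards [hk] with y hy
    simp [ap, hy]
  have d1 : DifferentiableAt ℝ v x := hv.differentiable (by simp) x
  have d2 : DifferentiableAt ℝ η x := hη.differentiable (by simp) x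
  rw [e.fderiv_eq]
  have := (d1.hasFDerivAt.sub (d2.hasFDerivAt.const_mul (c k))).fderiv
  exact this.symm

lemma ap_bound {M : ℝ} (hM : ∀ k, |c k| ≤ M) (k : ℕ) (x : En d) :
    ap v η c k x ^ 2 ≤ 2 * v x ^ 2 + 2 * M ^ 2 * η x ^ 2 := by
  have h1 : (cu k x * v x) ^ 2 ≤ v x ^ 2 := by
    rw [mul_pow]
    have : cu k x ^ 2 ≤ 1 := pow_le_one₀ (cu_nonneg k x) (cu_le_one k x)
    nlinarith [sq_nonneg (v x)]
  have h2 : (c k * η x) ^ 2 ≤ M ^ 2 * η x ^ 2 := by
    rw [mul_pow]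
    have : c k ^ 2 ≤ M ^ 2 := by
      rw [← sq_abs]
      exact pow_le_pow_left₀ (abs_nonneg _) (hM k) 2
    nlinarith [sq_nonneg (η x)]
  unfold ap
  nlinarith [sq_nonneg (cu k x * v x + c k * η x)]

lemma ap_fderiv_bound (hv : ContDiff ℝ ∞ v) (hη : ContDiff ℝ ∞ η) {M K : ℝ}
    (hM : ∀ k, |c k| ≤ M)
    (hK : ∀ (k : ℕ) (x : En d), ‖fderiv ℝ (cu k) x‖ ≤ K / (k + 1)) (k : ℕ) (x : En d) :
    ‖fderiv ℝ (ap v η c k) x‖ ^ 2 ≤ 3 * ‖fderiv ℝ v x‖ ^ 2 + 15 * K ^ 2 * (v x ^ 2 / wt x) +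
      3 * M ^ 2 * ‖fderiv ℝ η x‖ ^ 2 := by
  have d1 : DifferentiableAt ℝ v x := hv.differentiable (by simp) x
  have d2 : DifferentiableAt ℝ η x := hη.differentiable (by simp) x
  have d3 : DifferentiableAt ℝ (cu k : En d → ℝ) x := (cu_smooth k).differentiable (by simp) x
  have e : fderiv ℝ (ap v η c k) x = cu k x • fderiv ℝ v x + v x • fderiv ℝ (cu k) x -
      c k • fderiv ℝ η x :=
    ((d3.hasFDerivAt.mul d1.hasFDerivAt).sub (d2.hasFDerivAt.const_mul (c k))).fderiv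
  have n1 : ‖cu k x • fderiv ℝ v x‖ ≤ ‖fderiv ℝ v x‖ := by
    rw [norm_smul, Real.norm_of_nonneg (cu_nonneg k x)]
    exact mul_le_of_le_one_left (norm_nonneg _) (cu_le_one k x)
  have n2 : ‖v x • fderiv ℝ (cu k) x‖ ^ 2 ≤ 5 * K ^ 2 * (v x ^ 2 / wt x) := by
    rw [norm_smul, mul_pow, Real.norm_eq_abs, sq_abs]
    calc v x ^ 2 * ‖fderiv ℝ (cu k) x‖ ^ 2 ≤ v x ^ 2 * (5 * K ^ 2 / wt x) :=
          mul_le_mul_of_nonneg_left (cu_sq hK k x) (sq_nonneg _)
      _ = _ := by ring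
  have n3 : ‖c k • fderiv ℝ η x‖ ≤ M * ‖fderiv ℝ η x‖ := by
    rw [norm_smul, Real.norm_eq_abs]
    exact mul_le_mul_of_nonneg_right (hM k) (norm_nonneg _)
  rw [e]
  have n4 : ‖cu k x • fderiv ℝ v x + v x • fderiv ℝ (cu k) x - c k • fderiv ℝ η x‖ ≤
      ‖fderiv ℝ v x‖ + ‖v x • fderiv ℝ (cu k) x‖ + M * ‖fderiv ℝ η x‖ :=
    (norm_sub_le _ _).trans (add_le_add ((norm_add_le _ _).trans (add_le_add n1 le_rfl)) n3)
  have n5 := pow_le_pow_left₀ (norm_nonneg _) n4 2
  have g : ∀ a b c : ℝ, (a + b + c) ^ 2 ≤ 3 * a ^ 2 + 3 * b ^ 2 + 3 * c ^ 2 := fun a b c => by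
    nlinarith [sq_nonneg (a - b), sq_nonneg (a - c), sq_nonneg (b - c)]
  have n6 := g ‖fderiv ℝ v x‖ ‖v x • fderiv ℝ (cu k) x‖ (M * ‖fderiv ℝ η x‖)
  calc _ ≤ _ := n5
    _ ≤ _ := n6
    _ ≤ _ := by
      rw [mul_pow]
      nlinarith

lemma compact_int {f : En d → ℝ} (hf : Continuous f) (hc : HasCompactSupport f) (a : ℝ) :
    Integrable fun x => wt x ^ a * f x :=
  ((wtp_cont a).mul hf).integrable_of_hasCompactSupport hc.mul_left

lemma exists_bd (hc : Tendsto c atTop (𝓝 0)) : ∃ M, ∀ k, |c k| ≤ M := by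
  obtain ⟨M, hM⟩ := (Metric.isBounded_range_of_tendsto c hc).exists_norm_le
  exact ⟨M, fun k => hM _ ⟨k, rfl⟩⟩

lemma mass_tendsto (hv : ContDiff ℝ ∞ v) (hη : ContDiff ℝ ∞ η) (hηc : HasCompactSupport η)
    (hc : Tendsto c atTop (𝓝 0)) (hD : Integrable fun x => wt x ^ (α - 1) * v x ^ 2) :
    Tendsto (fun k => mass α (ap v η c k)) atTop (𝓝 (mass α v)) := by
  obtain ⟨M, hM⟩ := exists_bd hc
  simp only [mass_eq]
  refine tendsto_integral_of_dominated_convergence
    (fun x => 2 * (wt x ^ (α - 1) * v x ^ 2) + 2 * M ^ 2 * (wt x ^ (α - 1) * η x ^ 2)) ?_ ?_ ?_ ?_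
  · intro k
    exact ((wtp_cont _).mul ((ap_smooth hv hη k).continuous.pow 2)).aestronglyMeasurable
  · have hη2 : HasCompactSupport fun x => η x ^ 2 := by
      refine hηc.comp_left (g := fun t : ℝ => t ^ 2) (by simp)
    exact (hD.const_mul 2).add ((compact_int (hη.continuous.pow 2) hη2 _).const_mul _)
  · intro k
    refine Eventually.of_forall fun x => ?_
    rw [Real.norm_of_nonneg (mul_nonneg (wtp_pos _ _).le (sq_nonneg _))]
    have := mul_le_mul_of_nonneg_left (ap_bound (v := v) (η := η) hM k x) (wtp_pos (α - 1) x).le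
    linarith
  · refine Eventually.of_forall fun x => ?_
    exact ((ap_tendsto hc x).pow 2).const_mul _

lemma energy_tendsto (hv : ContDiff ℝ ∞ v) (hη : ContDiff ℝ ∞ η) (hηc : HasCompactSupport η)
    (hc : Tendsto c atTop (𝓝 0)) (hD : Integrable fun x => wt x ^ (α - 1) * v x ^ 2)
    (hN : Integrable fun x => wt x ^ α * ‖fderiv ℝ v x‖ ^ 2) :
    Tendsto (fun k => energy α (ap v η c k)) atTop (𝓝 (energy α v)) := by
  obtain ⟨M, hM⟩ := exists_bd hc
  obtain ⟨K, hK0, hK⟩ := exists_K (d := d)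
  simp only [energy_eq]
  have cf : ∀ {f : En d → ℝ}, ContDiff ℝ ∞ f → Continuous fun x => ‖fderiv ℝ f x‖ ^ 2 :=
    fun hf => (hf.continuous_fderiv (by simp)).norm.pow 2
  refine tendsto_integral_of_dominated_convergence
    (fun x => 3 * (wt x ^ α * ‖fderiv ℝ v x‖ ^ 2) +
      15 * K ^ 2 * (wt x ^ (α - 1) * v x ^ 2) +
      3 * M ^ 2 * (wt x ^ α * ‖fderiv ℝ η x‖ ^ 2)) ?_ ?_ ?_ ?_
  · intro k
    exact ((wtp_cont _).mul (cf (ap_smooth hv hη k))).aestronglyMeasurable
  · have hη2 : HasCompactSupport fun x => ‖fderiv ℝ η x‖ ^ 2 := by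
      refine (hηc.fderiv (𝕜 := ℝ)).comp_left (g := fun t => ‖t‖ ^ 2) (by simp)
    exact ((hN.const_mul 3).add (hD.const_mul _)).add ((compact_int (cf hη) hη2 _).const_mul _)
  · intro k
    refine Eventually.of_forall fun x => ?_
    rw [Real.norm_of_nonneg (mul_nonneg (wtp_pos _ _).le (sq_nonneg _))]
    have h := mul_le_mul_of_nonneg_left (ap_fderiv_bound hv hη hM hK k x) (wtp_pos α x).le
    have e : wt x ^ (α - 1) = wt x ^ α / wt x := Real.rpow_sub_one (wt_pos x).ne' α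
    rw [e]
    calc _ ≤ _ := h
      _ = _ := by ring
  · refine Eventually.of_forall fun x => ?_
    exact ((ap_fderiv_tendsto hv hη hc x).norm.pow 2).const_mul _

/-- the mean of the cut off function -/
lemma mean_tendsto (hv : ContDiff ℝ ∞ v) (hI : Integrable fun x => wt x ^ (α - 1) * v x) :
    Tendsto (fun k => ∫ x, wt x ^ (α - 1) * (cu k x * v x)) atTop
      (𝓝 (∫ x, wt x ^ (α - 1) * v x)) := by
  refine tendsto_integral_of_dominated_convergence (fun x => ‖wt x ^ (α - 1) * v x‖) ?_ hI.norm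
    ?_ ?_
  · intro k
    exact ((wtp_cont _).mul ((cu_smooth k).continuous.mul hv.continuous)).aestronglyMeasurable
  · intro k
    refine Eventually.of_forall fun x => ?_
    have e : wt x ^ (α - 1) * (cu k x * v x) = cu k x * (wt x ^ (α - 1) * v x) := by ring
    rw [e, norm_mul, Real.norm_of_nonneg (cu_nonneg k x)]
    exact mul_le_of_le_one_left (norm_nonneg _) (cu_le_one k x)
  · refine Eventually.of_forall fun x => ?_
    refine tendsto_const_nhds.congr' ?_
    filter_upwards [cu_eventually x] with k hk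
    rw [hk.self_of_nhds, one_mul]

/-- Functions of finite energy and mass (and of mean zero in the constrained case) give upper
bounds: there are admissible functions whose quotients converge to the quotient of `v`. -/
theorem exists_seq (hv : ContDiff ℝ ∞ v) (hD : Integrable fun x => wt x ^ (α - 1) * v x ^ 2)
    (hN : Integrable fun x => wt x ^ α * ‖fderiv ℝ v x‖ ^ 2) (hpos : 0 < mass α v)
    (hmean : α < -((d : ℝ) - 2) / 2 → (Integrable fun x => wt x ^ (α - 1) * v x) ∧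
      ∫ x, wt x ^ (α - 1) * v x = 0) :
    ∃ u : ℕ → En d → ℝ, (∀ᶠ k in atTop, u k ∈ admissible d α) ∧
      Tendsto (fun k => energy α (u k) / mass α (u k)) atTop (𝓝 (energy α v / mass α v)) := by
  set η : En d → ℝ := fun x => (bump : ContDiffBump (0 : En d)) x with hη
  have ηs : ContDiff ℝ ∞ η := bump.contDiff
  have ηc : HasCompactSupport η := bump.hasCompactSupport
  set b : ℝ := ∫ x, wt x ^ (α - 1) * η x with hb
  have hbpos : 0 < b := by
    have hc1 : Continuous fun x : En d => wt x ^ (α - 1) * η x :=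
      (wtp_cont _).mul ηs.continuous
    refine hc1.integral_pos_of_hasCompactSupport_nonneg_nonzero ηc.mul_left
      (fun x => mul_nonneg (wtp_pos _ _).le bump.nonneg) (x := 0) ?_
    have : η 0 = 1 := bump.one_of_mem_closedBall (by simp [bump])
    rw [this]
    have := wtp_pos (α - 1) (0 : En d)
    simpa using this.ne'
  -- the correction
  set c : ℕ → ℝ := fun k => if α < -((d : ℝ) - 2) / 2 then
    (∫ x, wt x ^ (α - 1) * (cu k x * v x)) / b else 0 with hcdef
  have hc : Tendsto c atTop (𝓝 0) := by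
    by_cases h : α < -((d : ℝ) - 2) / 2
    · simp only [hcdef, if_pos h]
      have := (mean_tendsto hv (hmean h).1).div_const b
      rwa [(hmean h).2, zero_div] at this
    · simp only [hcdef, if_neg h]
      exact tendsto_const_nhds
  refine ⟨ap v η c, ?_, (energy_tendsto hv ηs ηc hc hD hN).div (mass_tendsto hv ηs ηc hc hD)
    hpos.ne'⟩
  have hm := mass_tendsto (α := α) hv ηs ηc hc hD
  filter_upwards [hm.eventually_const_lt hpos] with k hk
  refine ⟨?_, ap_smooth hv ηs k, ap_supp ηc k, ?_⟩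
  · rintro h
    rw [h, mass_eq] at hk
    simp at hk
  · intro h
    change ∫ x, wt x ^ (α - 1) * (cu k x * v x - c k * η x) = 0
    have i1 : Integrable fun x => wt x ^ (α - 1) * (cu k x * v x) :=
      compact_int ((cu_smooth k).continuous.mul hv.continuous) ((cu_supp k).mul_right) _
    have i2 : Integrable fun x => c k * (wt x ^ (α - 1) * η x) :=
      (compact_int ηs.continuous ηc _).const_mul _
    have e : (fun x => wt x ^ (α - 1) * (cu k x * v x - c k * η x)) = fun x =>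
        wt x ^ (α - 1) * (cu k x * v x) - c k * (wt x ^ (α - 1) * η x) := by
      funext x
      ring
    rw [e, integral_sub i1 i2, integral_const_mul, ← hb]
    simp only [hcdef, if_pos h]
    field_simp
    ring

/-- the quotients are nonnegative -/
lemma bdd : BddBelow ((fun u => energy α u / mass α u) '' admissible d α) := by
  refine ⟨0, ?_⟩
  rintro _ ⟨u, _, rfl⟩
  refine div_nonneg (integral_nonneg fun x => ?_) (integral_nonneg fun x => ?_)
  · have := wtp_pos α x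
    exact mul_nonneg this.le (sq_nonneg _)
  · have := wtp_pos (α - 1) x
    exact mul_nonneg this.le (sq_nonneg _)

/-- upper bound for the best constant -/
theorem bestConst_le (hv : ContDiff ℝ ∞ v) (hD : Integrable fun x => wt x ^ (α - 1) * v x ^ 2)
    (hN : Integrable fun x => wt x ^ α * ‖fderiv ℝ v x‖ ^ 2) (hpos : 0 < mass α v)
    (hmean : α < -((d : ℝ) - 2) / 2 → (Integrable fun x => wt x ^ (α - 1) * v x) ∧
      ∫ x, wt x ^ (α - 1) * v x = 0) :
    (admissible d α).Nonempty ∧ bestConst d α ≤ energy α v / mass α v := by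
  obtain ⟨u, hu, hlim⟩ := exists_seq hv hD hN hpos hmean
  constructor
  · obtain ⟨k, hk⟩ := hu.exists
    exact ⟨u k, hk⟩
  · refine ge_of_tendsto hlim ?_
    filter_upwards [hu] with k hk
    exact csInf_le bdd ⟨u k, hk, rfl⟩

/-- lower bound for the best constant -/
theorem le_bestConst {C : ℝ} (hne : (admissible d α).Nonempty)
    (h : ∀ u ∈ admissible d α, C * mass α u ≤ energy α u) : C ≤ bestConst d α := by
  refine le_csInf (hne.image _) ?_
  rintro _ ⟨u, hu, rfl⟩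
  have hpos : 0 < mass α u := by
    obtain ⟨h0, hs, hc, _⟩ := hu
    obtain ⟨x, hx⟩ := Function.ne_iff.1 h0
    have hc1 : Continuous fun x : En d => wt x ^ (α - 1) * u x ^ 2 :=
      (wtp_cont _).mul (hs.continuous.pow 2)
    have hc2 : HasCompactSupport fun x : En d => u x ^ 2 :=
      hc.comp_left (g := fun t : ℝ => t ^ 2) (by simp)
    rw [mass_eq]
    refine hc1.integral_pos_of_hasCompactSupport_nonneg_nonzero hc2.mul_left
      (fun x => mul_nonneg (wtp_pos _ _).le (sq_nonneg _)) (x := x) ?_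
    exact mul_ne_zero (wtp_pos _ _).ne' (pow_ne_zero _ hx)
  simp only
  rw [le_div_iff₀ hpos]
  exact h u hu

end conv

end Run7.h187.Hy
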