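import Pool.Agent.Run7.h187.HyCut

/-!
The integrals `∫ (1+|x|²)^(-β)` and the quotients of the test functions.
-/

set_option autoImplicit false

open MeasureTheory Set Filter Topology Metric
open scoped ContDiff

namespace Run7.h187.Hy

variable {d : ℕ}

/-- `∫ (1+|x|²)^(-β)` -/
noncomputable def II (d : ℕ) (β : ℝ) : ℝ := ∫ x : En d, wt x ^ (-β)

lemma int_wt {β : ℝ} (h : (d : ℝ) / 2 < β) : Integrable fun x : En d => wt x ^ (-β) := by
  have := integrable_rpow_neg_one_add_norm_sq (E := En d) (μ := volume) (r := 2 * β) (by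
    rw [finrank_euclideanSpace_fin]
    linarith)
  have e : -(2 * β) / 2 = -β := by ring
  rw [e] at this
  exact this

lemma int_wt' {a : ℝ} (h : a < -((d : ℝ) / 2)) : Integrable fun x : En d => wt x ^ a := by
  have := int_wt (d := d) (β := -a) (by linarith)
  rwa [neg_neg] at this

lemma II_pos {β : ℝ} (h : (d : ℝ) / 2 < β) : 0 < II d β := by
  rw [II, integral_pos_iff_support_of_nonneg (fun x => (wtp_pos _ x).le) (int_wt h)]
  have : Function.support (fun x : En d => wt x ^ (-β)) = univ := by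
    ext x
    simp [(wtp_pos (-β) x).ne']
  rw [this]
  exact isOpen_univ.measure_pos volume univ_nonempty

lemma II_anti {β γ : ℝ} (h : (d : ℝ) / 2 < β) (hγ : β ≤ γ) : II d γ ≤ II d β := by
  refine integral_mono (int_wt (h.trans_le hγ)) (int_wt h) fun x => ?_
  exact Real.rpow_le_rpow_of_exponent_le (one_le_wt x) (by linarith)

lemma coord_sq_le (x : En d) (i : Fin d) : x i ^ 2 ≤ wt x := by
  have h : x i ^ 2 ≤ ‖x‖ ^ 2 := by
    rw [EuclideanSpace.real_norm_sq_eq]
    exact Finset.single_le_sum (f := fun j => x j ^ 2) (fun j _ => sq_nonneg _) (Finset.mem_univ i)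
  unfold wt
  linarith

lemma int_coord {β : ℝ} (h : (d : ℝ) / 2 < β) (i : Fin d) :
    Integrable fun x : En d => x i ^ 2 * wt x ^ (-β - 1) := by
  refine (int_wt h).mono' ?_ (Eventually.of_forall fun x => ?_)
  · exact (((by fun_prop : Continuous fun x : En d => x i).pow 2).mul
      (wtp_cont _)).aestronglyMeasurable
  · rw [Real.norm_of_nonneg (mul_nonneg (sq_nonneg _) (wtp_pos _ _).le),
      Real.rpow_sub_one (wt_pos x).ne']
    have := coord_sq_le x i
    have h2 := wtp_pos (-β) x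
    have h3 := wt_pos x
    rw [mul_div_assoc', div_le_iff₀ h3]
    nlinarith

lemma wt_hasFDerivAt (x : En d) : HasFDerivAt (wt : En d → ℝ) (2 • innerSL ℝ x) x := by
  have := (hasStrictFDerivAt_norm_sq x).hasFDerivAt.const_add 1
  exact this

lemma wtp_hasFDerivAt (a : ℝ) (x : En d) :
    HasFDerivAt (fun x : En d => wt x ^ a) ((a * wt x ^ (a - 1)) • (2 • innerSL ℝ x)) x :=
  (wt_hasFDerivAt x).rpow_const (Or.inl (wt_pos x).ne')

/-- integration by parts with the cutoff -/
theorem coord_identity {β : ℝ} (h : (d : ℝ) / 2 < β) (i : Fin d) :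
    II d β = 2 * β * ∫ x : En d, x i ^ 2 * wt x ^ (-β - 1) := by
  obtain ⟨K, hK0, hK⟩ := exists_K (d := d)
  set e : En d := EuclideanSpace.single i 1 with he
  have hne : ‖e‖ = 1 := by simp [he]
  set f : En d → ℝ := fun x => x i * wt x ^ (-β) with hf
  have cc : Continuous fun x : En d => x i := by fun_prop
  have hfc : Continuous f := cc.mul (wtp_cont _)
  set f' : En d → ℝ := fun x => wt x ^ (-β) - 2 * β * (x i ^ 2 * wt x ^ (-β - 1)) with hf'
  have hf'c : Continuous f' :=
    (wtp_cont _).sub (continuous_const.mul ((cc.pow 2).mul (wtp_cont _)))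
  have hfd : ∀ x, HasFDerivAt f (x i • ((-β * wt x ^ (-β - 1)) • (2 • innerSL ℝ x)) +
      wt x ^ (-β) • (EuclideanSpace.proj i : En d →L[ℝ] ℝ)) x := by
    intro x
    have h1 : HasFDerivAt (fun x : En d => x i) (EuclideanSpace.proj i : En d →L[ℝ] ℝ) x :=
      (EuclideanSpace.proj i : En d →L[ℝ] ℝ).hasFDerivAt
    exact h1.mul (wtp_hasFDerivAt (-β) x)
  have hfv : ∀ x, fderiv ℝ f x e = f' x := by
    intro x
    rw [(hfd x).fderiv]
    have e1 : inner ℝ x e = x i := by simp [he, EuclideanSpace.inner_single_right]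
    have e2 : (EuclideanSpace.proj i : En d →L[ℝ] ℝ) e = 1 := by simp [he]
    simp only [hf', add_apply, smul_apply, innerSL_apply_apply, smul_eq_mul, nsmul_eq_mul, e1, e2]
    push_cast
    ring
  have parts : ∀ k : ℕ, ∫ x, f x * fderiv ℝ (cu k) x e = - ∫ x, f' x * cu k x := by
    intro k
    have hcs : HasCompactSupport (cu k : En d → ℝ) := cu_supp k
    have c1 : Continuous fun x : En d => fderiv ℝ (cu k) x e :=
      ((cu_smooth k).continuous_fderiv (by simp)).clm_apply continuous_const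
    have s1 : HasCompactSupport fun x : En d => fderiv ℝ (cu k) x e :=
      (hcs.fderiv (𝕜 := ℝ)).comp_left (g := fun L : En d →L[ℝ] ℝ => L e) (by simp)
    have := integral_mul_fderiv_eq_neg_fderiv_mul_of_integrable (μ := (volume : Measure (En d)))
      (f := f) (g := cu k) (v := e)
      (by
        simp only [hfv]
        exact (hf'c.mul (cu_smooth k).continuous).integrable_of_hasCompactSupport hcs.mul_left)
      ((hfc.mul c1).integrable_of_hasCompactSupport s1.mul_left)
      ((hfc.mul (cu_smooth k).continuous).integrable_of_hasCompactSupport hcs.mul_left)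
      (fun x _ => (hfd x).differentiableAt)
      (fun x _ => (cu_smooth k).differentiable (by simp) x)
    rw [this]
    simp only [hfv]
  have iF : Integrable f' := (int_wt h).sub ((int_coord h i).const_mul _)
  have l1 : Tendsto (fun k : ℕ => ∫ x, f' x * cu k x) atTop (𝓝 (∫ x, f' x)) := by
    refine tendsto_integral_of_dominated_convergence (fun x => ‖f' x‖) ?_ iF.norm ?_ ?_
    · intro k
      exact (hf'c.mul (cu_smooth k).continuous).aestronglyMeasurable
    · intro k
      refine Eventually.of_forall fun x => ?_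
      rw [norm_mul, Real.norm_of_nonneg (cu_nonneg k x)]
      exact mul_le_of_le_one_right (norm_nonneg _) (cu_le_one k x)
    · refine Eventually.of_forall fun x => ?_
      refine tendsto_const_nhds.congr' ?_
      filter_upwards [cu_eventually x] with k hk
      rw [hk.self_of_nhds, mul_one]
  have l2 : Tendsto (fun k : ℕ => ∫ x, f x * fderiv ℝ (cu k) x e) atTop (𝓝 0) := by
    have z : (0 : ℝ) = ∫ x : En d, (0 : ℝ) := by simp
    rw [z]
    refine tendsto_integral_of_dominated_convergence (fun x => 3 * K * wt x ^ (-β)) ?_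
      ((int_wt h).const_mul _) ?_ ?_
    · intro k
      have c1 : Continuous fun x : En d => fderiv ℝ (cu k) x e :=
        ((cu_smooth k).continuous_fderiv (by simp)).clm_apply continuous_const
      exact (hfc.mul c1).aestronglyMeasurable
    · intro k
      refine Eventually.of_forall fun x => ?_
      have a1 : ‖fderiv ℝ (cu k) x e‖ ≤ ‖fderiv ℝ (cu k) x‖ := by
        have := (fderiv ℝ (cu k) x).le_opNorm e
        rwa [hne, mul_one] at this
      have a2 := cu_sq hK k x
      have a3 : (|x i| * ‖fderiv ℝ (cu k) x‖) ^ 2 ≤ (3 * K) ^ 2 := by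
        rw [mul_pow, sq_abs]
        have b1 := coord_sq_le x i
        have b2 := wt_pos x
        calc x i ^ 2 * ‖fderiv ℝ (cu k) x‖ ^ 2 ≤ wt x * (5 * K ^ 2 / wt x) :=
              mul_le_mul b1 a2 (sq_nonneg _) b2.le
          _ = 5 * K ^ 2 := by field_simp
          _ ≤ _ := by nlinarith [sq_nonneg K]
      have a4 : |x i| * ‖fderiv ℝ (cu k) x‖ ≤ 3 * K :=
        le_of_sq_le_sq a3 (by positivity)
      simp only [hf]
      rw [norm_mul, norm_mul, Real.norm_of_nonneg (wtp_pos (-β) x).le, Real.norm_eq_abs (x i)]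
      have a5 := wtp_pos (-β) x
      calc |x i| * wt x ^ (-β) * ‖fderiv ℝ (cu k) x e‖
          ≤ |x i| * wt x ^ (-β) * ‖fderiv ℝ (cu k) x‖ := by gcongr
        _ = (|x i| * ‖fderiv ℝ (cu k) x‖) * wt x ^ (-β) := by ring
        _ ≤ 3 * K * wt x ^ (-β) := by gcongr
    · refine Eventually.of_forall fun x => ?_
      refine tendsto_const_nhds.congr' ?_
      filter_upwards [cu_eventually x] with k hk
      rw [hk.fderiv_eq]
      simp
  have l3 : Tendsto (fun k : ℕ => - ∫ x, f' x * cu k x) atTop (𝓝 0) := by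
    simpa only [parts] using l2
  have l4 := tendsto_nhds_unique l3 l1.neg
  have l5 : ∫ x, f' x = 0 := by linarith
  simp only [hf'] at l5
  rw [integral_sub (int_wt h) ((int_coord h i).const_mul _), integral_const_mul] at l5
  unfold II
  linarith

lemma norm_sq_id (a : ℝ) (x : En d) : ‖x‖ ^ 2 * wt x ^ (a - 1) = wt x ^ a - wt x ^ (a - 1) := by
  have e : wt x ^ a = wt x ^ (a - 1) * wt x := by
    rw [← Real.rpow_add_one (wt_pos x).ne']
    congr 1
    ring
  rw [e]
  unfold wt
  ring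

/-- `2 β I(β+1) = (2 β - d) I(β)` -/
theorem II_succ {β : ℝ} (h : (d : ℝ) / 2 < β) (hβ : 0 < β) :
    II d β - II d (β + 1) = d / (2 * β) * II d β := by
  have h1 : II d β - II d (β + 1) = ∫ x : En d, ‖x‖ ^ 2 * wt x ^ (-β - 1) := by
    rw [II, II, ← integral_sub (int_wt h) (int_wt (by linarith))]
    congr 1
    funext x
    rw [norm_sq_id]
    congr 2
    ring
  have h2 : ∫ x : En d, ‖x‖ ^ 2 * wt x ^ (-β - 1) =
      ∑ i : Fin d, ∫ x : En d, x i ^ 2 * wt x ^ (-β - 1) := by
    rw [← integral_finsetSum _ fun i _ => int_coord h i]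
    congr 1
    funext x
    rw [EuclideanSpace.real_norm_sq_eq, Finset.sum_mul]
  have h3 : ∀ i : Fin d, ∫ x : En d, x i ^ 2 * wt x ^ (-β - 1) = II d β / (2 * β) := by
    intro i
    rw [coord_identity h i]
    field_simp
  rw [h1, h2]
  simp only [h3, Finset.sum_const, Finset.card_univ, Fintype.card_fin, nsmul_eq_mul]
  ring

/-! ### power test functions -/

/-- `(1+|x|²)^a - c` -/
noncomputable def pf (d : ℕ) (a c : ℝ) (x : En d) : ℝ := wt x ^ a - c

lemma pf_smooth (a c : ℝ) : ContDiff ℝ ∞ (pf d a c) := (wtp_smooth a).sub contDiff_const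

lemma pf_grad (a c : ℝ) (x : En d) :
    ‖fderiv ℝ (pf d a c) x‖ ^ 2 = 4 * a ^ 2 * (‖x‖ ^ 2 * wt x ^ (2 * a - 2)) := by
  have h := (wtp_hasFDerivAt a x).sub_const c
  have e : fderiv ℝ (pf d a c) x = (a * wt x ^ (a - 1)) • (2 • innerSL ℝ x) := h.fderiv
  have e2 : (2 • innerSL ℝ x : En d →L[ℝ] ℝ) = (2 : ℝ) • innerSL ℝ x := by
    rw [two_smul, two_smul]
  rw [e, e2, norm_smul, norm_smul, innerSL_apply_norm, norm_mul, mul_pow, mul_pow, mul_pow,
    Real.norm_eq_abs, Real.norm_eq_abs, Real.norm_eq_abs, sq_abs, sq_abs, sq_abs]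
  have e3 : (wt x ^ (a - 1)) ^ 2 = wt x ^ (2 * a - 2) := by
    rw [← Real.rpow_natCast, ← Real.rpow_mul (wt_pos x).le]
    congr 1
    push_cast
    ring
  rw [e3]
  ring

lemma pf_dens (α a c : ℝ) (x : En d) : wt x ^ α * ‖fderiv ℝ (pf d a c) x‖ ^ 2 =
    4 * a ^ 2 * (wt x ^ (-(1 - α - 2 * a)) - wt x ^ (-(1 - α - 2 * a + 1))) := by
  rw [pf_grad]
  have e1 : wt x ^ (-(1 - α - 2 * a + 1)) = wt x ^ α * wt x ^ (2 * a - 2) := by
    rw [← Real.rpow_add (wt_pos x)]
    congr 1
    ring
  have e2 : wt x ^ (-(1 - α - 2 * a)) = wt x ^ α * wt x ^ (2 * a - 2) * wt x := by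
    rw [← e1, ← Real.rpow_add_one (wt_pos x).ne']
    congr 1
    ring
  rw [e1, e2]
  unfold wt
  ring

lemma pf_energy_int {α a : ℝ} (c : ℝ) (h : (d : ℝ) / 2 < 1 - α - 2 * a) :
    Integrable fun x : En d => wt x ^ α * ‖fderiv ℝ (pf d a c) x‖ ^ 2 := by
  simp only [pf_dens]
  exact ((int_wt h).sub (int_wt (by linarith))).const_mul _

lemma pf_energy {α a : ℝ} (c : ℝ) (h : (d : ℝ) / 2 < 1 - α - 2 * a) (h0 : 0 < 1 - α - 2 * a) :
    energy α (pf d a c) = 4 * a ^ 2 * (d / (2 * (1 - α - 2 * a)) * II d (1 - α - 2 * a)) := by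
  rw [energy_eq]
  simp only [pf_dens]
  rw [integral_const_mul, integral_sub (int_wt h) (int_wt (by linarith)), ← II_succ h h0]
  rfl

lemma pf_sq (α a c : ℝ) (x : En d) : wt x ^ (α - 1) * pf d a c x ^ 2 =
    wt x ^ (-(1 - α - 2 * a)) - 2 * c * wt x ^ (-(1 - α - a)) + c ^ 2 * wt x ^ (-(1 - α)) := by
  have e1 : wt x ^ (-(1 - α)) = wt x ^ (α - 1) := by congr 1; ring
  have e2 : wt x ^ (-(1 - α - a)) = wt x ^ (α - 1) * wt x ^ a := by
    rw [← Real.rpow_add (wt_pos x)]
    congr 1
    ring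
  have e3 : wt x ^ (-(1 - α - 2 * a)) = wt x ^ (α - 1) * wt x ^ a * wt x ^ a := by
    rw [← Real.rpow_add (wt_pos x), ← Real.rpow_add (wt_pos x)]
    congr 1
    ring
  rw [e1, e2, e3, pf]
  ring

lemma pf_mass_int {α a c : ℝ} (h : (d : ℝ) / 2 < 1 - α - 2 * a)
    (hc : c ≠ 0 → (d : ℝ) / 2 < 1 - α) :
    Integrable fun x : En d => wt x ^ (α - 1) * pf d a c x ^ 2 := by
  simp only [pf_sq]
  by_cases h0 : c = 0
  · simp only [h0, mul_zero, zero_mul, sub_zero, ne_eq, OfNat.ofNat_ne_zero, not_false_eq_true,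
      zero_pow, add_zero]
    exact int_wt h
  · have h1 := hc h0
    exact ((int_wt h).sub ((int_wt (by linarith)).const_mul _)).add ((int_wt h1).const_mul _)

lemma pf_mass_zero {α a : ℝ} : mass α (pf d a 0) = II d (1 - α - 2 * a) := by
  rw [mass_eq]
  simp only [pf_sq, mul_zero, zero_mul, sub_zero, ne_eq, OfNat.ofNat_ne_zero, not_false_eq_true,
      zero_pow, add_zero]
  rfl

lemma pf_mass {α a : ℝ} (c : ℝ) (h : (d : ℝ) / 2 < 1 - α - 2 * a) (hc : (d : ℝ) / 2 < 1 - α) :
    mass α (pf d a c) = II d (1 - α - 2 * a) - 2 * c * II d (1 - α - a) +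
      c ^ 2 * II d (1 - α) := by
  rw [mass_eq]
  simp only [pf_sq]
  have i2 : Integrable fun x : En d => 2 * c * wt x ^ (-(1 - α - a)) :=
    (int_wt (by linarith)).const_mul _
  have i3 : Integrable fun x : En d => c ^ 2 * wt x ^ (-(1 - α)) := (int_wt hc).const_mul _
  have i1 : Integrable fun x : En d => wt x ^ (-(1 - α - 2 * a)) - 2 * c * wt x ^ (-(1 - α - a)) :=
    (int_wt h).sub i2
  rw [integral_add i1 i3, integral_sub (int_wt h) i2, integral_const_mul, integral_const_mul]
  rfl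

lemma pf_mean {α a : ℝ} (c : ℝ) (h : (d : ℝ) / 2 < 1 - α - 2 * a) (hc : (d : ℝ) / 2 < 1 - α) :
    (Integrable fun x : En d => wt x ^ (α - 1) * pf d a c x) ∧
    ∫ x : En d, wt x ^ (α - 1) * pf d a c x = II d (1 - α - a) - c * II d (1 - α) := by
  have e : (fun x : En d => wt x ^ (α - 1) * pf d a c x) = fun x =>
      wt x ^ (-(1 - α - a)) - c * wt x ^ (-(1 - α)) := by
    funext x
    have e1 : wt x ^ (-(1 - α)) = wt x ^ (α - 1) := by congr 1; ring
    have e2 : wt x ^ (-(1 - α - a)) = wt x ^ (α - 1) * wt x ^ a := by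
      rw [← Real.rpow_add (wt_pos x)]
      congr 1
      ring
    rw [e1, e2, pf]
    ring
  have i2 : Integrable fun x : En d => c * wt x ^ (-(1 - α)) := (int_wt hc).const_mul _
  have i1 : Integrable fun x : En d => wt x ^ (-(1 - α - a)) := int_wt (by linarith)
  rw [e]
  refine ⟨i1.sub i2, ?_⟩
  rw [integral_sub i1 i2, integral_const_mul]
  rfl

end Run7.h187.Hy
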