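import Pool.Agent.Run7.h187.ShDefs

/-!
Existence and uniqueness of the solution of Shang's equations (for `V = k³`).
-/

set_option autoImplicit false

namespace Run7.h187.Sh

open MvPowerSeries

/-! ### multiplicities -/

theorem zz_mul (v w : ℤ × ℤ) : zz v * zz w = zz (v + w) := by
  simp [zz, AddMonoidAlgebra.single_mul_single]

theorem zz_zero : zz 0 = 1 := rfl

theorem zz_pow (v : ℤ × ℤ) (n : ℕ) : zz v ^ n = zz (n • v) := by
  induction n with
  | zero => simp [zz_zero]
  | succ n ih => rw [pow_succ, ih, zz_mul, succ_nsmul]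

theorem coeff_mul_zz (X : Lam) (g w : ℤ × ℤ) : (X * zz g).coeff w = X.coeff (w - g) := by
  rw [zz, AddMonoidAlgebra.coeff_mul_single_apply]; simp [sub_eq_add_neg]

theorem mult_eq (w : ℤ × ℤ) (X : Lam) :
    mult w X = X.coeff w - X.coeff (w + (1, 0)) - X.coeff (w + (0, 1)) + X.coeff (w + (2, 1))
      + X.coeff (w + (1, 2)) - X.coeff (w + (2, 2)) := by
  have h1 : zz (-1, -1) = zz (-1, 0) * zz (0, -1) := by rw [zz_mul]; rfl
  have h2 : zz (-2, -1) = zz (-1, 0) * zz (-1, 0) * zz (0, -1) := by
    rw [zz_mul, zz_mul]; rfl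
  have h3 : zz (-1, -2) = zz (-1, 0) * zz (0, -1) * zz (0, -1) := by
    rw [zz_mul, zz_mul]; rfl
  have h4 : zz (-2, -2) = zz (-1, 0) * zz (-1, 0) * zz (0, -1) * zz (0, -1) := by
    rw [zz_mul, zz_mul, zz_mul]; rfl
  have : X * ((1 - zz (-1, 0)) * (1 - zz (0, -1)) * (1 - zz (-1, -1))) =
      X - X * zz (-1, 0) - X * zz (0, -1) + X * zz (-2, -1) + X * zz (-1, -2)
        - X * zz (-2, -2) := by
    rw [h1, h2, h3, h4]; ring
  rw [mult, this]
  simp only [AddMonoidAlgebra.coeff_sub, AddMonoidAlgebra.coeff_add, Finsupp.sub_apply,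
    Finsupp.add_apply, coeff_mul_zz]
  have e1 : w - (-1, 0) = w + (1, 0) := by ext <;> simp
  have e2 : w - (0, -1) = w + (0, 1) := by ext <;> simp
  have e3 : w - (-2, -1) = w + (2, 1) := by ext <;> simp
  have e4 : w - (-1, -2) = w + (1, 2) := by ext <;> simp
  have e5 : w - (-2, -2) = w + (2, 2) := by ext <;> simp
  rw [e1, e2, e3, e4, e5]

theorem mult_sub (w : ℤ × ℤ) (X Y : Lam) : mult w (X - Y) = mult w X - mult w Y := by
  simp only [mult_eq, AddMonoidAlgebra.coeff_sub, Finsupp.sub_apply]; ring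

theorem mult_add (w : ℤ × ℤ) (X Y : Lam) : mult w (X + Y) = mult w X + mult w Y := by
  simp only [mult_eq, AddMonoidAlgebra.coeff_add, Finsupp.add_apply]; ring

theorem mult_zsmul (w : ℤ × ℤ) (n : ℤ) (X : Lam) : mult w (n • X) = n * mult w X := by
  simp only [mult_eq, AddMonoidAlgebra.coeff_smul, Finsupp.smul_apply, smul_eq_mul]; ring

/-- the character of the adjoint module -/
noncomputable def adjc : Lam := ∑ w ∈ roots, zz w + 2 • zz 0

theorem coeff_zz (v w : ℤ × ℤ) : (zz v).coeff w = if v = w then 1 else 0 := by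
  rw [zz, AddMonoidAlgebra.coeff_single, Finsupp.single_apply]

theorem coeff_adjc (w : ℤ × ℤ) : adjc.coeff w =
    (if (1, 0) = w then 1 else 0) + (if (0, 1) = w then 1 else 0) + (if (1, 1) = w then 1 else 0)
    + (if (-1, 0) = w then 1 else 0) + (if (0, -1) = w then 1 else 0)
    + (if (-1, -1) = w then 1 else 0) + 2 * (if (0, 0) = w then 1 else 0) := by
  have : adjc = zz (1, 0) + zz (0, 1) + zz (1, 1) + zz (-1, 0) + zz (0, -1) + zz (-1, -1)
      + (zz (0, 0) + zz (0, 0)) := by
    rw [adjc, roots, two_nsmul]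
    rw [Finset.sum_insert (by decide), Finset.sum_insert (by decide),
      Finset.sum_insert (by decide), Finset.sum_insert (by decide),
      Finset.sum_insert (by decide), Finset.sum_singleton]
    rw [show ((0 : ℤ × ℤ)) = (0, 0) from rfl]
    abel
  rw [this]
  simp only [AddMonoidAlgebra.coeff_add, Finsupp.add_apply, coeff_zz]
  ring

theorem coeff_one' (w : ℤ × ℤ) : (1 : Lam).coeff w = if (0, 0) = w then 1 else 0 := by
  rw [← zz_zero, coeff_zz]; rfl

theorem mult_adjc_zero : mult (0, 0) adjc = 0 := by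
  rw [mult_eq]
  simp only [coeff_adjc]
  decide

theorem mult_adjc_one : mult (1, 1) adjc = 1 := by
  rw [mult_eq]
  simp only [coeff_adjc]
  decide

theorem mult_one_zero : mult (0, 0) (1 : Lam) = 1 := by
  rw [mult_eq]
  simp only [coeff_one']
  decide

theorem mult_one_one : mult (1, 1) (1 : Lam) = 0 := by
  rw [mult_eq]
  simp only [coeff_one']
  decide

/-! ### first order expansions -/

/-- `f = 1 - x^p c + x^{2p} H` for some `H` -/
def Fst (p : Deg) (c : Lam) (f : Ser) : Prop :=
  ∃ H : Ser, f = 1 - monomial p (1 : Lam) * C c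
    + monomial p (1 : Lam) * monomial p (1 : Lam) * H

theorem monomial_eq_mul_C (p : Deg) (c : Lam) :
    (monomial p c : Ser) = monomial p (1 : Lam) * C c := by
  rw [← monomial_zero_eq_C_apply, monomial_mul_monomial]
  simp

theorem Fst.one (p : Deg) : Fst p 0 (1 : Ser) := ⟨0, by simp⟩

theorem Fst.mul {p : Deg} {c d : Lam} {f g : Ser} (hf : Fst p c f) (hg : Fst p d g) :
    Fst p (c + d) (f * g) := by
  obtain ⟨H, rfl⟩ := hf
  obtain ⟨K, rfl⟩ := hg
  refine ⟨C c * C d + H + K - monomial p (1 : Lam) * (C c * K + C d * H)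
    + monomial p (1 : Lam) * monomial p (1 : Lam) * H * K, ?_⟩
  rw [map_add]
  ring

theorem Fst.pow {p : Deg} {c : Lam} {f : Ser} (hf : Fst p c f) (n : ℕ) :
    Fst p (n • c) (f ^ n) := by
  induction n with
  | zero => simpa using Fst.one p
  | succ n ih => rw [pow_succ, succ_nsmul]; exact ih.mul hf

theorem constantCoeff_monomial_one {p : Deg} (hp : p ≠ 0) :
    constantCoeff (monomial p (1 : Lam) : Ser) = 0 := by
  rw [← coeff_zero_eq_constantCoeff_apply, coeff_monomial, if_neg (Ne.symm hp)]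

theorem Fst.constantCoeff {p : Deg} (hp : p ≠ 0) {c : Lam} {f : Ser} (hf : Fst p c f) :
    MvPowerSeries.constantCoeff f = 1 := by
  obtain ⟨H, rfl⟩ := hf
  simp [constantCoeff_monomial_one hp]

theorem Fst.inverse {p : Deg} (hp : p ≠ 0) {c : Lam} {f : Ser} (hf : Fst p c f) :
    Fst p (-c) (Ring.inverse f) := by
  have hu : IsUnit f := by
    rw [MvPowerSeries.isUnit_iff_constantCoeff, hf.constantCoeff hp]
    exact isUnit_one
  have e := Ring.mul_inverse_cancel f hu
  obtain ⟨H, hH⟩ := hf
  generalize Ring.inverse f = g at e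
  refine ⟨C c * C c * g - monomial p (1 : Lam) * C c * H * g - H * g, ?_⟩
  rw [hH] at e
  rw [map_neg]
  linear_combination (1 + monomial p (1 : Lam) * C c) * e

theorem Fst.pw {p : Deg} (hp : p ≠ 0) {c : Lam} {f : Ser} (hf : Fst p c f) (n : ℤ) :
    Fst p (n • c) (Sh.pw f n) := by
  have h := (hf.pow n.toNat).mul ((hf.inverse hp).pow (-n).toNat)
  have e : n.toNat • c + (-n).toNat • (-c) = n • c := by
    rw [smul_neg, ← sub_eq_add_neg, ← natCast_zsmul, ← natCast_zsmul, ← sub_smul]
    congr 1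
    omega
  rw [e] at h
  exact h

theorem Fst.prod {p : Deg} {ι : Type*} (s : Finset ι) (c : ι → Lam) (f : ι → Ser)
    (h : ∀ i ∈ s, Fst p (c i) (f i)) : Fst p (∑ i ∈ s, c i) (∏ i ∈ s, f i) := by
  classical
  induction s using Finset.induction_on with
  | empty => simpa using Fst.one p
  | insert i s hi ih =>
      rw [Finset.sum_insert hi, Finset.prod_insert hi]
      exact (h i (Finset.mem_insert_self i s)).mul
        (ih fun j hj => h j (Finset.mem_insert_of_mem hj))

theorem Fst.bin (p : Deg) (w : ℤ × ℤ) : Fst p (zz w) (Sh.bin p w) :=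
  ⟨0, by rw [Sh.bin, monomial_eq_mul_C]; simp⟩

theorem Fst.factor {p : Deg} (hp : p ≠ 0) (a b : ℤ) :
    Fst p (a • adjc + b • (1 : Lam)) (Sh.factor p a b) := by
  have h := (Fst.prod roots _ _ fun w _ => (Fst.bin p w).pw hp a).mul
    ((Fst.bin p 0).pw hp (2 * a + b))
  have e : (∑ w ∈ roots, a • zz w) + (2 * a + b) • zz 0 = a • adjc + b • (1 : Lam) := by
    rw [adjc, smul_add, Finset.smul_sum, add_smul, zz_zero, ← natCast_zsmul, smul_smul,
      add_assoc, mul_comm a]
    rfl
  rw [e] at h
  exact h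

/-! ### coefficients of products -/

theorem coeff_Fst_mul {p m : Deg} (hpm : ¬ p ≤ m) {c : Lam} {f : Ser} (hf : Fst p c f) (h : Ser) :
    coeff m (f * h) = coeff m h := by
  obtain ⟨H, rfl⟩ := hf
  have : (1 - monomial p (1 : Lam) * C c + monomial p (1 : Lam) * monomial p (1 : Lam) * H) * h =
      h + monomial p (1 : Lam) * ((-C c + monomial p (1 : Lam) * H) * h) := by ring
  rw [this, map_add, coeff_monomial_mul, if_neg hpm, add_zero]

theorem coeff_Fst_mul_self {m : Deg} (hm : m ≠ 0) {c : Lam} {f : Ser} (hf : Fst m c f) (h : Ser) :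
    coeff m (f * h) = coeff m h - c * coeff 0 h := by
  obtain ⟨H, rfl⟩ := hf
  have : (1 - monomial m (1 : Lam) * C c + monomial m (1 : Lam) * monomial m (1 : Lam) * H) * h =
      h - monomial m (1 : Lam) * (C c * h)
        + monomial m (1 : Lam) * (monomial m (1 : Lam) * (H * h)) := by ring
  rw [this, map_add, map_sub, coeff_monomial_mul, if_pos le_rfl, coeff_monomial_mul,
    if_pos le_rfl, tsub_self, coeff_monomial_mul, if_neg, coeff_C_mul]
  · simp
  · intro h0
    exact hm (le_antisymm h0 (zero_le))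

theorem coeff_prod_mul (m : Deg) (a b : Deg → ℤ) (h : Ser) (U : Finset Deg)
    (hU : ∀ p ∈ U, ¬ p ≤ m) :
    coeff m ((∏ p ∈ U, factor p (a p) (b p)) * h) = coeff m h := by
  classical
  induction U using Finset.induction_on with
  | empty => simp
  | insert p U hp ih =>
      have hpm := hU p (Finset.mem_insert_self p U)
      have hp0 : p ≠ 0 := by
        rintro rfl
        exact hpm (zero_le)
      rw [Finset.prod_insert hp, mul_assoc, coeff_Fst_mul hpm (Fst.factor hp0 _ _)]
      exact ih fun q hq => hU q (Finset.mem_insert_of_mem hq)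

theorem lamCoeff_eq_of_subset (m : Deg) (a b : Deg → ℤ) (S : Finset Deg)
    (hS : (Finset.Iic m).erase 0 ⊆ S) (h0 : 0 ∉ S) :
    lamCoeff a b m = coeff m (∏ p ∈ S, factor p (a p) (b p)) := by
  classical
  rw [lamCoeff, ← Finset.prod_sdiff hS, coeff_prod_mul]
  intro p hp hpm
  rw [Finset.mem_sdiff] at hp
  apply hp.2
  rw [Finset.mem_erase, Finset.mem_Iic]
  refine ⟨?_, hpm⟩
  rintro rfl
  exact h0 hp.1

/-- the part of `lamCoeff` which depends on smaller degrees only -/
noncomputable def lower (a b : Deg → ℤ) (m : Deg) : Lam :=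
  coeff m (∏ p ∈ ((Finset.Iic m).erase 0).erase m, factor p (a p) (b p))

theorem lower_congr {a b a' b' : Deg → ℤ} {m : Deg} (ha : ∀ p < m, a p = a' p)
    (hb : ∀ p < m, b p = b' p) : lower a b m = lower a' b' m := by
  have e : ∏ p ∈ ((Finset.Iic m).erase 0).erase m, factor p (a p) (b p) =
      ∏ p ∈ ((Finset.Iic m).erase 0).erase m, factor p (a' p) (b' p) := by
    apply Finset.prod_congr rfl
    intro p hp
    rw [Finset.mem_erase, Finset.mem_erase, Finset.mem_Iic] at hp
    have : p < m := lt_of_le_of_ne hp.2.2 hp.1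
    rw [ha p this, hb p this]
  rw [lower, lower, e]

theorem lamCoeff_eq_lower {m : Deg} (hm : m ≠ 0) (a b : Deg → ℤ) :
    lamCoeff a b m = lower a b m - (a m • adjc + b m • (1 : Lam)) := by
  have hmem : m ∈ (Finset.Iic m).erase 0 := by
    rw [Finset.mem_erase, Finset.mem_Iic]
    exact ⟨hm, le_rfl⟩
  rw [lamCoeff, ← Finset.mul_prod_erase _ _ hmem,
    coeff_Fst_mul_self hm (Fst.factor hm (a m) (b m)), lower]
  have h0 : coeff 0 (∏ p ∈ ((Finset.Iic m).erase 0).erase m, factor p (a p) (b p)) = 1 := by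
    have := coeff_prod_mul 0 a b 1 (((Finset.Iic m).erase 0).erase m) (by
      intro p hp hp0
      rw [Finset.mem_erase, Finset.mem_erase] at hp
      exact hp.2.1 (le_antisymm hp0 (zero_le)))
    rw [mul_one] at this
    rw [this, coeff_zero_one]
  rw [h0, mul_one]

theorem lamCoeff_zero (a b : Deg → ℤ) : lamCoeff a b 0 = 1 := by
  have h : (Finset.Iic (0 : Deg)).erase 0 = ∅ := by
    ext p
    simp only [Finset.mem_erase, Finset.mem_Iic, Finset.notMem_empty, iff_false, not_and]
    intro hp hp0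
    exact hp (le_antisymm hp0 (zero_le))
  rw [lamCoeff, h, Finset.prod_empty, coeff_zero_one]

/-- the condition of `IsShang` at one multidegree -/
def SatAt (a b : Deg → ℤ) (m : Deg) : Prop :=
  mult (0, 0) (lamCoeff a b m) = (if m = 0 then 1 else 0) ∧
      mult (1, 1) (lamCoeff a b m) =
        (if m = Finsupp.single 0 1 ∨ m = Finsupp.single 1 1 ∨ m = Finsupp.single 2 1
          then -1 else 0)

/-- the coefficient of `[V]` -/
noncomputable def dl (m : Deg) : ℤ :=
  if m = Finsupp.single 0 1 ∨ m = Finsupp.single 1 1 ∨ m = Finsupp.single 2 1 then -1 else 0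

theorem satAt_zero (a b : Deg → ℤ) : SatAt a b 0 := by
  have h : ¬ ((0 : Deg) = Finsupp.single 0 1 ∨ (0 : Deg) = Finsupp.single 1 1 ∨
      (0 : Deg) = Finsupp.single 2 1) := by
    rintro (h | h | h)
    · have := DFunLike.congr_fun h 0
      simp at this
    · have := DFunLike.congr_fun h 1
      simp at this
    · have := DFunLike.congr_fun h 2
      simp at this
  rw [SatAt, lamCoeff_zero, mult_one_zero, mult_one_one, if_pos rfl, if_neg h]
  exact ⟨rfl, rfl⟩

theorem satAt_iff {m : Deg} (hm : m ≠ 0) (a b : Deg → ℤ) :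
    SatAt a b m ↔ b m = mult (0, 0) (lower a b m) ∧ a m = mult (1, 1) (lower a b m) - dl m := by
  rw [SatAt, lamCoeff_eq_lower hm]
  simp only [mult_sub, mult_add, mult_zsmul, mult_adjc_zero, mult_adjc_one, mult_one_zero,
    mult_one_one, if_neg hm, mul_zero, mul_one, zero_add, add_zero]
  change (_ ∧ _ = dl m) ↔ _
  constructor
  · rintro ⟨h1, h2⟩
    constructor <;> linarith
  · rintro ⟨h1, h2⟩
    constructor <;> linarith

/-! ### uniqueness -/

theorem uniq {a b a' b' : Deg → ℤ} (ha : a 0 = a' 0) (hb : b 0 = b' 0) (m : Deg) :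
    (∀ p ≤ m, SatAt a b p) → (∀ p ≤ m, SatAt a' b' p) → a m = a' m ∧ b m = b' m := by
  induction m using WellFoundedLT.induction with
  | ind m ih =>
    intro h h'
    by_cases hm : m = 0
    · rw [hm]; exact ⟨ha, hb⟩
    have key : ∀ p < m, a p = a' p ∧ b p = b' p := fun p hp =>
      ih p hp (fun q hq => h q (hq.trans hp.le)) (fun q hq => h' q (hq.trans hp.le))
    have e : lower a b m = lower a' b' m :=
      lower_congr (fun p hp => (key p hp).1) (fun p hp => (key p hp).2)
    have h1 := (satAt_iff hm a b).1 (h m le_rfl)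
    have h2 := (satAt_iff hm a' b').1 (h' m le_rfl)
    rw [h1.1, h1.2, h2.1, h2.2, e]
    exact ⟨rfl, rfl⟩

/-! ### existence -/

open Classical in
/-- one step of the recursion for the solution -/
noncomputable def solF (m : Deg) (ih : ∀ p, p < m → ℤ × ℤ) : ℤ × ℤ :=
  if m = 0 then (0, 0) else
    (mult (1, 1) (lower (fun p => if h : p < m then (ih p h).1 else 0)
        (fun p => if h : p < m then (ih p h).2 else 0) m) - dl m,
      mult (0, 0) (lower (fun p => if h : p < m then (ih p h).1 else 0)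
        (fun p => if h : p < m then (ih p h).2 else 0) m))

/-- the solution -/
noncomputable def sol : Deg → ℤ × ℤ :=
  WellFounded.fix (wellFounded_lt : WellFounded ((· < ·) : Deg → Deg → Prop)) solF

theorem sol_eq (m : Deg) : sol m = solF m (fun p _ => sol p) :=
  WellFounded.fix_eq _ _ _

theorem sol_zero : sol 0 = (0, 0) := by rw [sol_eq, solF, if_pos rfl]

theorem exists_sol : ∃ a b : Deg → ℤ, IsShang a b := by
  classical
  refine ⟨fun p => (sol p).1, fun p => (sol p).2, by simp [sol_zero], by simp [sol_zero], ?_⟩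
  intro m
  by_cases hm : m = 0
  · rw [hm]
    exact satAt_zero _ _
  · refine (satAt_iff hm _ _).2 ?_
    have e : lower (fun p => (sol p).1) (fun p => (sol p).2) m =
        lower (fun p => if h : p < m then (sol p).1 else 0)
        (fun p => if h : p < m then (sol p).2 else 0) m :=
      lower_congr (fun p hp => by simp [hp]) (fun p hp => by simp [hp])
    have h := sol_eq m
    rw [solF, if_neg hm, ← e] at h
    rw [h]
    exact ⟨rfl, rfl⟩

theorem isShang_unique {a b a' b' : Deg → ℤ} (h : IsShang a b) (h' : IsShang a' b') :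
    a' = a ∧ b' = b := by
  have key : ∀ m, a' m = a m ∧ b' m = b m := fun m =>
    uniq (h'.1.trans h.1.symm) (h'.2.1.trans h.2.1.symm) m (fun p _ => h'.2.2 p)
      (fun p _ => h.2.2 p)
  exact ⟨funext fun m => (key m).1, funext fun m => (key m).2⟩

end Run7.h187.Sh
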